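import Mathlib
import Pool.Agent.H117R2.Golden2

set_option autoImplicit false

/-!
# The second most frequent element of a union-closed family: the entropy inequality
-/

namespace Pool.Agent.Y418.UC2

open Finset Real Pool.Agent.H117R2 Pool.Agent.H117R2.Gold

variable {α : Type*} [DecidableEq α]

/-- the union of the members containing `x` and of those avoiding `x` -/
theorem pair_ineq (l : List α) (P Q U : Finset (Finset α)) (h : ∀ X ∈ P, ∀ Y ∈ Q, X ∪ Y ∈ U) :
    q / 2 * ∑ i ∈ range l.length, (av l P i * wt E2 l Q i + av l Q i * wt E2 l P i) ≤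
      (P.card : ℝ) * Q.card * log U.card := by
  have h1 := main_ineq (twoPointGold (fun _ _ => 0)) U l P Q h
  rw [zero_mul, sub_zero] at h1
  have h2 := ent_le (U := U) (f := conv P Q) (fun S _ => conv_nonneg P Q S)
  rw [sum_conv U P Q h] at h2
  exact h1.trans h2

/-- The entropy inequality: every element other than `x` lies in at most `β m` members. -/
theorem core (A : Finset (Finset α)) (huc : ∀ X ∈ A, ∀ Y ∈ A, X ∪ Y ∈ A) (x : α) (β : ℝ)
    (hβ : ∀ y : α, y ≠ x → ((A.filter (fun S => y ∈ S)).card : ℝ) ≤ β * A.card) :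
    q * (1 - β) * A.card * ((av0 x A).card * log (av0 x A).card +
      (av1 x A).card * log (av1 x A).card) ≤
      ((av0 x A).card : ℝ) ^ 2 * log (av0 x A).card +
        ((A.card : ℝ) ^ 2 - ((av0 x A).card : ℝ) ^ 2) * log (av1 x A).card := by
  obtain ⟨l, hl⟩ : ∃ l, l = ((A.sup id).erase x).toList := ⟨_, rfl⟩
  have hmem : ∀ g, g ∈ l ↔ g ≠ x ∧ g ∈ A.sup id := by
    intro g
    rw [hl, mem_toList, mem_erase]
  have hsub : ∀ S ∈ A, S ⊆ A.sup id := fun S hS => le_sup (f := id) hS
  have sep : ∀ S ∈ A, ∀ T ∈ A, (x ∈ S ↔ x ∈ T) → (∀ g ∈ l, g ∈ S ↔ g ∈ T) → S = T := by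
    intro S hS T hT hx h
    ext g
    by_cases hg : g = x
    · rw [hg]; exact hx
    · constructor
      · intro h1
        exact (h g ((hmem g).mpr ⟨hg, hsub S hS h1⟩)).mp h1
      · intro h1
        exact (h g ((hmem g).mpr ⟨hg, hsub T hT h1⟩)).mpr h1
  have hA0 : ∀ S ∈ av0 x A, S ∈ A ∧ x ∉ S := fun S hS => mem_filter.mp hS
  have hA1 : ∀ S ∈ av1 x A, S ∈ A ∧ x ∈ S := fun S hS => mem_filter.mp hS
  have e0 := sum_eta l (av0 x A) (fun S hS T hT h => sep S (hA0 S hS).1 T (hA0 T hT).1
    ⟨fun h' => absurd h' (hA0 S hS).2, fun h' => absurd h' (hA0 T hT).2⟩ h)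
  have e1 := sum_eta l (av1 x A) (fun S hS T hT h => sep S (hA1 S hS).1 T (hA1 T hT).1
    ⟨fun _ => (hA1 T hT).2, fun _ => (hA1 S hS).2⟩ h)
  have u00 : ∀ X ∈ av0 x A, ∀ Y ∈ av0 x A, X ∪ Y ∈ av0 x A := by
    intro X hX Y hY
    refine mem_filter.mpr ⟨huc X (hA0 X hX).1 Y (hA0 Y hY).1, ?_⟩
    rw [mem_union, not_or]
    exact ⟨(hA0 X hX).2, (hA0 Y hY).2⟩
  have u01 : ∀ X ∈ av0 x A, ∀ Y ∈ av1 x A, X ∪ Y ∈ av1 x A := fun X hX Y hY =>
    mem_filter.mpr ⟨huc X (hA0 X hX).1 Y (hA1 Y hY).1, mem_union_right _ (hA1 Y hY).2⟩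
  have u10 : ∀ X ∈ av1 x A, ∀ Y ∈ av0 x A, X ∪ Y ∈ av1 x A := fun X hX Y hY =>
    mem_filter.mpr ⟨huc X (hA1 X hX).1 Y (hA0 Y hY).1, mem_union_left _ (hA1 X hX).2⟩
  have u11 : ∀ X ∈ av1 x A, ∀ Y ∈ av1 x A, X ∪ Y ∈ av1 x A := fun X hX Y hY =>
    mem_filter.mpr ⟨huc X (hA1 X hX).1 Y (hA1 Y hY).1, mem_union_left _ (hA1 X hX).2⟩
  have p00 := pair_ineq l _ _ _ u00
  have p01 := pair_ineq l _ _ _ u01
  have p10 := pair_ineq l _ _ _ u10
  have p11 := pair_ineq l _ _ _ u11
  have hm := card_av x A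
  have hq : 0 < q := by have := q_lb; linarith
  -- the sum of the four left hand sides
  have hsum : q / 2 * ∑ i ∈ range l.length,
        (av l (av0 x A) i * wt E2 l (av0 x A) i + av l (av0 x A) i * wt E2 l (av0 x A) i) +
      q / 2 * ∑ i ∈ range l.length,
        (av l (av0 x A) i * wt E2 l (av1 x A) i + av l (av1 x A) i * wt E2 l (av0 x A) i) +
      q / 2 * ∑ i ∈ range l.length,
        (av l (av1 x A) i * wt E2 l (av0 x A) i + av l (av0 x A) i * wt E2 l (av1 x A) i) +
      q / 2 * ∑ i ∈ range l.length,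
        (av l (av1 x A) i * wt E2 l (av1 x A) i + av l (av1 x A) i * wt E2 l (av1 x A) i) =
      q * ∑ i ∈ range l.length, av l A i * (wt E2 l (av0 x A) i + wt E2 l (av1 x A) i) := by
    rw [← mul_add, ← mul_add, ← mul_add, ← sum_add_distrib, ← sum_add_distrib,
      ← sum_add_distrib]
    have : ∑ i ∈ range l.length, av l A i * (wt E2 l (av0 x A) i + wt E2 l (av1 x A) i) =
        1 / 2 * ∑ i ∈ range l.length,
        (av l (av0 x A) i * wt E2 l (av0 x A) i + av l (av0 x A) i * wt E2 l (av0 x A) i +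
        (av l (av0 x A) i * wt E2 l (av1 x A) i + av l (av1 x A) i * wt E2 l (av0 x A) i) +
        (av l (av1 x A) i * wt E2 l (av0 x A) i + av l (av0 x A) i * wt E2 l (av1 x A) i) +
        (av l (av1 x A) i * wt E2 l (av1 x A) i + av l (av1 x A) i * wt E2 l (av1 x A) i)) := by
      rw [mul_sum]
      refine sum_congr rfl fun i _ => ?_
      rw [av_split x l A i]
      ring
    rw [this]
    ring
  have hlow : (1 - β) * A.card * ((av0 x A).card * log (av0 x A).card +
      (av1 x A).card * log (av1 x A).card) ≤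
      ∑ i ∈ range l.length, av l A i * (wt E2 l (av0 x A) i + wt E2 l (av1 x A) i) := by
    rw [← e0, ← e1, ← sum_add_distrib, mul_sum]
    refine sum_le_sum fun i hi => ?_
    apply mul_le_mul_of_nonneg_right _ (add_nonneg (eta_nonneg _ _ _) (eta_nonneg _ _ _))
    have hi' := mem_range.mp hi
    rw [av_eq l A i hi']
    have h1 := hβ l[i] ((hmem _).mp (List.getElem_mem hi')).1
    have h2 := card_av l[i] A
    unfold av0 av1 at h2
    linarith
  have hlow' := mul_le_mul_of_nonneg_left hlow hq.le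
  have e : (A.card : ℝ) ^ 2 - ((av0 x A).card : ℝ) ^ 2 =
      (av0 x A).card * (av1 x A).card + (av1 x A).card * (av0 x A).card +
        (av1 x A).card * (av1 x A).card := by
    rw [← hm]
    ring
  rw [e]
  linarith

/-- If every element other than `x` lies in at most `(3 - √5)/2` of the members, then `x` lies in
at least half of the members. -/
theorem golden (A : Finset (Finset α)) (huc : ∀ X ∈ A, ∀ Y ∈ A, X ∪ Y ∈ A) (x : α)
    (hx : x ∈ A.sup id)
    (hβ : ∀ y : α, y ≠ x →
      ((A.filter (fun S => y ∈ S)).card : ℝ) ≤ (3 - √5) / 2 * A.card) :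
    A.card ≤ 2 * (A.filter (fun S => x ∈ S)).card := by
  have h := core A huc x _ hβ
  have hq : q * (1 - (3 - √5) / 2) = 1 := by
    have h5 : √5 ^ 2 = 5 := sq_sqrt (by norm_num)
    unfold q
    nlinarith
  rw [hq, one_mul] at h
  have hm := card_av x A
  have h1 : 0 < (av1 x A).card := by
    rw [card_pos]
    rw [mem_sup] at hx
    obtain ⟨S, hS, hxS⟩ := hx
    exact ⟨S, mem_filter.mpr ⟨hS, hxS⟩⟩
  change A.card ≤ 2 * (av1 x A).card
  rcases Nat.eq_zero_or_pos (av0 x A).card with h0 | h0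
  · rw [h0] at hm
    have : ((av1 x A).card : ℝ) = A.card := by push_cast at hm; linarith
    have : (av1 x A).card = A.card := by exact_mod_cast this
    omega
  · have h0' : (0 : ℝ) < (av0 x A).card := by exact_mod_cast h0
    have h1' : (0 : ℝ) < (av1 x A).card := by exact_mod_cast h1
    obtain ⟨a, ha⟩ : ∃ a : ℝ, a = (av0 x A).card := ⟨_, rfl⟩
    obtain ⟨b, hb⟩ : ∃ b : ℝ, b = (av1 x A).card := ⟨_, rfl⟩
    rw [← hm, ← ha, ← hb] at h
    rw [← ha] at h0'
    rw [← hb] at h1'
    have h2 : a * b * log a ≤ a * b * log b := by nlinarith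
    have h3 : log a ≤ log b := le_of_mul_le_mul_left h2 (by positivity)
    have h4 : a ≤ b := (log_le_log_iff h0' h1').mp h3
    rw [← ha, ← hb] at hm
    have h5 : (A.card : ℝ) ≤ 2 * (av1 x A).card := by rw [← hb]; linarith
    exact_mod_cast h5


theorem log_lb {m : ℕ} (hm : 45 ≤ m) : (37429 / 10000 : ℝ) ≤ log m := by
  have h1 : (27 : ℝ) * log 2 ≤ 5 * log 45 := by
    have e1 : (27 : ℝ) * log 2 = log (2 ^ 27) := by rw [log_pow]; norm_num
    have e2 : (5 : ℝ) * log 45 = log (45 ^ 5) := by rw [log_pow]; norm_num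
    rw [e1, e2]
    exact log_le_log (by norm_num) (by norm_num)
  have h2 : log 45 ≤ log m := log_le_log (by norm_num) (by exact_mod_cast hm)
  have h3 := log_two_gt_d9
  linarith

/-- Numerical part: at least `45` members. -/
theorem third_large (A : Finset (Finset α)) (huc : ∀ X ∈ A, ∀ Y ∈ A, X ∪ Y ∈ A) (x : α)
    (hx : x ∈ A.sup id) (hβ : ∀ y : α, y ≠ x → 3 * (A.filter (fun S => y ∈ S)).card ≤ A.card)
    (hm45 : 45 ≤ A.card) : False := by
  have h := core A huc x (1 / 3) (fun y hy => by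
    have := hβ y hy
    have h' : 3 * ((A.filter (fun S => y ∈ S)).card : ℝ) ≤ A.card := by exact_mod_cast this
    linarith)
  have hM := log_lb hm45
  have hm := card_av x A
  have hm0 : (0 : ℝ) < A.card := by
    have : 0 < A.card := by omega
    exact_mod_cast this
  have h1 : 0 < (av1 x A).card := by
    rw [card_pos]
    rw [mem_sup] at hx
    obtain ⟨S, hS, hxS⟩ := hx
    exact ⟨S, mem_filter.mpr ⟨hS, hxS⟩⟩
  have hL0 : 0 ≤ log ((av0 x A).card : ℝ) := log_natCast_nonneg _
  have hL1 : 0 ≤ log ((av1 x A).card : ℝ) := log_natCast_nonneg _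
  have h1' : (0 : ℝ) < (av1 x A).card := by exact_mod_cast h1
  have h0nn : (0 : ℝ) ≤ (av0 x A).card := by positivity
  obtain ⟨a, ha⟩ : ∃ a : ℝ, a = (av0 x A).card := ⟨_, rfl⟩
  obtain ⟨b, hb⟩ : ∃ b : ℝ, b = (av1 x A).card := ⟨_, rfl⟩
  obtain ⟨m, hmd⟩ : ∃ m : ℝ, m = A.card := ⟨_, rfl⟩
  rcases Nat.eq_zero_or_pos (av0 x A).card with h0 | h0
  · rw [← ha, ← hb, ← hmd] at hm
    rw [← ha, ← hb, ← hmd] at h
    rw [← hmd] at hM hm0
    have ha0 : a = 0 := by rw [ha, h0]; simp
    have hbm : b = m := by linarith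
    rw [ha0, hbm] at h
    simp only [zero_mul, zero_add, ne_eq, OfNat.ofNat_ne_zero, not_false_eq_true, zero_pow,
      sub_zero] at h
    have hq := q_lb
    have h2 : 0 < m ^ 2 * log m := by
      have : 0 < log m := by linarith
      positivity
    nlinarith
  · have h0' : (0 : ℝ) < (av0 x A).card := by exact_mod_cast h0
    rw [← ha] at h0' hL0 h0nn
    rw [← hb] at h1' hL1
    rw [← hmd] at hm0 hM
    rw [← ha, ← hb, ← hmd] at hm h
    -- the two tangents
    have t0 : a * (log m - log a) ≤ (38630 / 100000) * a + m / 4 := by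
      have h2 : log (m / (4 * a)) ≤ m / (4 * a) - 1 := log_le_sub_one_of_pos (by positivity)
      have e4 : log (4 : ℝ) = 2 * log 2 := by
        have : (4 : ℝ) = 2 ^ 2 := by norm_num
        rw [this, log_pow]
        norm_num
      rw [log_div hm0.ne' (by positivity), log_mul (by norm_num) h0'.ne', e4] at h2
      have h3 := mul_le_mul_of_nonneg_left h2 h0'.le
      have e : a * (m / (4 * a) - 1) = m / 4 - a := by
        field_simp
      rw [e] at h3
      have h4 := log_two_lt_d9
      nlinarith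
    have t1 : b * (log m - log b) ≤ a := by
      have h2 : log (m / b) ≤ m / b - 1 := log_le_sub_one_of_pos (by positivity)
      rw [log_div hm0.ne' h1'.ne'] at h2
      have h3 := mul_le_mul_of_nonneg_left h2 h1'.le
      have e : b * (m / b - 1) = m - b := by
        field_simp
      rw [e] at h3
      linarith
    have v0 : 0 ≤ b * (log m - log b) := by
      have : log b ≤ log m := log_le_log h1' (by linarith)
      apply mul_nonneg h1'.le
      linarith
    have hq := q_lb
    have h5 : (10786 / 10000 : ℝ) * m * (a * log a + b * log b) ≤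
        a ^ 2 * log a + (m ^ 2 - a ^ 2) * log b := by
      refine le_trans ?_ h
      have : 0 ≤ m * (a * log a + b * log b) := by positivity
      nlinarith
    have hb' : b = m - a := by linarith
    have key : (786 / 10000 : ℝ) * m ^ 2 * log m ≤
        a * (log m - log a) * ((10786 / 10000) * m - a) +
          b * (log m - log b) * ((786 / 10000) * m - a) := by
      rw [hb'] at h5 ⊢
      nlinarith
    have k1 : a * (log m - log a) * ((10786 / 10000) * m - a) ≤
        ((38630 / 100000) * a + m / 4) * ((10786 / 10000) * m - a) := by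
      apply mul_le_mul_of_nonneg_right t0
      linarith
    have k2 : b * (log m - log b) * ((786 / 10000) * m - a) ≤ (16 / 10000) * m ^ 2 := by
      rcases le_total ((786 / 10000) * m - a) 0 with hneg | hpos
      · have : b * (log m - log b) * ((786 / 10000) * m - a) ≤ 0 :=
          mul_nonpos_of_nonneg_of_nonpos v0 hneg
        have h6 : 0 ≤ (16 / 10000) * m ^ 2 := by positivity
        linarith
      · have h6 := mul_le_mul_of_nonneg_right t1 hpos
        nlinarith [sq_nonneg (a - (393 / 10000) * m)]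
    have k3 : ((38630 / 100000) * a + m / 4) * ((10786 / 10000) * m - a) ≤
        (2877 / 10000) * m ^ 2 := by
      nlinarith [sq_nonneg (a - (2157 / 10000) * m)]
    have k4 : (786 / 10000 : ℝ) * m ^ 2 * (37429 / 10000) ≤ (786 / 10000 : ℝ) * m ^ 2 * log m :=
      mul_le_mul_of_nonneg_left hM (by positivity)
    have hm2 : 0 < m ^ 2 := by positivity
    linarith

/-! ### Popular elements -/

theorem lognat_mono {a b : ℕ} (h : a ≤ b) : log (a : ℝ) ≤ log (b : ℝ) := by
  rcases Nat.eq_zero_or_pos a with h0 | h0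
  · rw [h0]
    simpa using log_natCast_nonneg b
  · exact log_le_log (by exact_mod_cast h0) (by exact_mod_cast h)

/-- members with trace `T` on `X` -/
def cls (A : Finset (Finset α)) (X T : Finset α) : Finset (Finset α) :=
  A.filter (fun S => S ∩ X = T)

theorem sum_cls (A : Finset (Finset α)) (X : Finset α) :
    ∑ T ∈ X.powerset, ((cls A X T).card : ℝ) = A.card := by
  have h := card_eq_sum_card_fiberwise (s := A) (t := X.powerset) (f := fun S => S ∩ X)
    (fun S _ => mem_coe.mpr (mem_powerset.mpr inter_subset_right))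
  rw [h]
  push_cast
  rfl

theorem sum_av_cls (A : Finset (Finset α)) (X : Finset α) (l : List α) (i : ℕ)
    (hi : i < l.length) : ∑ T ∈ X.powerset, av l (cls A X T) i = av l A i := by
  rw [av_eq l A i hi]
  have h := card_eq_sum_card_fiberwise (s := A.filter (fun S => l[i] ∉ S)) (t := X.powerset)
    (f := fun S => S ∩ X) (fun S _ => mem_coe.mpr (mem_powerset.mpr inter_subset_right))
  rw [h, Nat.cast_sum]
  refine sum_congr rfl fun T _ => ?_
  rw [av_eq l _ i hi]
  unfold cls
  rw [filter_filter, filter_filter]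
  congr 2
  ext S
  simp only [mem_filter, and_congr_right_iff]
  intro _
  tauto

/-- The entropy inequality with a set `X` of exceptional elements. -/
theorem coreX (A : Finset (Finset α)) (huc : ∀ X ∈ A, ∀ Y ∈ A, X ∪ Y ∈ A) (X : Finset α) (β : ℝ)
    (hβ : ∀ y : α, y ∉ X → ((A.filter (fun S => y ∈ S)).card : ℝ) ≤ β * A.card) :
    q * (1 - β) * A.card * ∑ T ∈ X.powerset, ((cls A X T).card : ℝ) * log (cls A X T).card ≤
      ∑ S ∈ X.powerset, ∑ T ∈ X.powerset,
        ((cls A X S).card : ℝ) * (cls A X T).card * log (cls A X (S ∪ T)).card := by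
  obtain ⟨l, hl⟩ : ∃ l, l = (A.sup id \ X).toList := ⟨_, rfl⟩
  have hmem : ∀ g, g ∈ l ↔ g ∈ A.sup id ∧ g ∉ X := by
    intro g
    rw [hl, mem_toList, mem_sdiff]
  have hsub : ∀ S ∈ A, S ⊆ A.sup id := fun S hS => le_sup (f := id) hS
  have hq : 0 < q := by have := q_lb; linarith
  have sep : ∀ T, ∀ S ∈ cls A X T, ∀ S' ∈ cls A X T, (∀ g ∈ l, g ∈ S ↔ g ∈ S') → S = S' := by
    intro T S hS S' hS' h
    obtain ⟨hS, hST⟩ := mem_filter.mp hS
    obtain ⟨hS', hST'⟩ := mem_filter.mp hS'
    ext g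
    by_cases hg : g ∈ X
    · have h1 : g ∈ S ∩ X ↔ g ∈ S' ∩ X := by rw [hST, hST']
      rw [mem_inter, mem_inter] at h1
      tauto
    · constructor
      · intro h1
        exact (h g ((hmem g).mpr ⟨hsub S hS h1, hg⟩)).mp h1
      · intro h1
        exact (h g ((hmem g).mpr ⟨hsub S' hS' h1, hg⟩)).mpr h1
  have eta : ∀ T, ∑ i ∈ range l.length, wt E2 l (cls A X T) i =
      ((cls A X T).card : ℝ) * log (cls A X T).card := fun T => sum_eta l _ (sep T)
  have hun : ∀ S T, ∀ Y ∈ cls A X S, ∀ Z ∈ cls A X T, Y ∪ Z ∈ cls A X (S ∪ T) := by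
    intro S T Y hY Z hZ
    obtain ⟨hY, hYS⟩ := mem_filter.mp hY
    obtain ⟨hZ, hZT⟩ := mem_filter.mp hZ
    refine mem_filter.mpr ⟨huc Y hY Z hZ, ?_⟩
    rw [union_inter_distrib_right, hYS, hZT]
  refine le_trans ?_ (sum_le_sum fun S _ => sum_le_sum fun T _ => pair_ineq l _ _ _ (hun S T))
  have e1 : ∑ S ∈ X.powerset, ∑ T ∈ X.powerset, (q / 2 * ∑ i ∈ range l.length,
      (av l (cls A X S) i * wt E2 l (cls A X T) i + av l (cls A X T) i * wt E2 l (cls A X S) i)) =
      q * ∑ i ∈ range l.length, av l A i * ∑ T ∈ X.powerset, wt E2 l (cls A X T) i := by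
    have e2 : ∑ S ∈ X.powerset, ∑ T ∈ X.powerset, (q / 2 * ∑ i ∈ range l.length,
        (av l (cls A X S) i * wt E2 l (cls A X T) i +
          av l (cls A X T) i * wt E2 l (cls A X S) i)) =
        q / 2 * ∑ i ∈ range l.length, ∑ S ∈ X.powerset, ∑ T ∈ X.powerset,
        (av l (cls A X S) i * wt E2 l (cls A X T) i +
          av l (cls A X T) i * wt E2 l (cls A X S) i) := by
      simp only [mul_sum]
      symm
      rw [sum_comm]
      refine sum_congr rfl fun S _ => ?_
      rw [sum_comm]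
    rw [e2]
    have e3 : ∀ i ∈ range l.length, ∑ S ∈ X.powerset, ∑ T ∈ X.powerset,
        (av l (cls A X S) i * wt E2 l (cls A X T) i +
          av l (cls A X T) i * wt E2 l (cls A X S) i) =
        2 * (av l A i * ∑ T ∈ X.powerset, wt E2 l (cls A X T) i) := by
      intro i hi
      rw [← sum_av_cls A X l i (mem_range.mp hi)]
      simp only [sum_add_distrib]
      rw [← sum_mul_sum, sum_comm, ← sum_mul_sum]
      ring
    rw [sum_congr rfl e3, ← mul_sum]
    ring
  rw [e1, mul_assoc, mul_assoc]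
  apply mul_le_mul_of_nonneg_left _ hq.le
  simp only [← eta]
  rw [sum_comm, ← mul_assoc, mul_sum]
  refine sum_le_sum fun i hi => ?_
  apply mul_le_mul_of_nonneg_right _ (sum_nonneg fun T _ => eta_nonneg _ _ _)
  have hi' := mem_range.mp hi
  rw [av_eq l A i hi']
  have h1 := hβ l[i] ((hmem _).mp (List.getElem_mem hi')).2
  have h2 := card_av l[i] A
  unfold av0 av1 at h2
  linarith

/-- Consequence of `coreX` in terms of the number `a` of members avoiding `X` and the number `b` of
members meeting `X`. -/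
theorem coreX' (A : Finset (Finset α)) (huc : ∀ X ∈ A, ∀ Y ∈ A, X ∪ Y ∈ A) (X : Finset α)
    (β : ℝ) (hβ : ∀ y : α, y ∉ X → ((A.filter (fun S => y ∈ S)).card : ℝ) ≤ β * A.card) :
    ∃ L : ℝ, 0 ≤ L ∧
      L ≤ ((A.filter (fun S => (S ∩ X).Nonempty)).card : ℝ) *
        log (A.filter (fun S => (S ∩ X).Nonempty)).card ∧
      ((cls A X ∅).card : ℝ) + (A.filter (fun S => (S ∩ X).Nonempty)).card = A.card ∧
      q * (1 - β) * A.card * ((cls A X ∅).card * log (cls A X ∅).card + L) ≤
        ((cls A X ∅).card : ℝ) ^ 2 * log (cls A X ∅).card + 2 * (cls A X ∅).card * L +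
          ((A.filter (fun S => (S ∩ X).Nonempty)).card : ℝ) ^ 2 *
            log (A.filter (fun S => (S ∩ X).Nonempty)).card := by
  have h := coreX A huc X _ hβ
  have hm := sum_cls A X
  rw [← insert_erase (empty_mem_powerset X), sum_insert (notMem_erase _ _)] at hm
  have hbd : ∑ T ∈ X.powerset.erase ∅, ((cls A X T).card : ℝ) =
      (A.filter (fun S => (S ∩ X).Nonempty)).card := by
    have h1 := card_filter_add_card_filter_not (s := A) (fun S => (S ∩ X).Nonempty)
    have h2 : A.filter (fun S => ¬ (S ∩ X).Nonempty) = cls A X ∅ := by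
      unfold cls
      congr 1
      ext S
      rw [not_nonempty_iff_eq_empty]
    rw [h2] at h1
    have h3 : ((A.filter (fun S => (S ∩ X).Nonempty)).card : ℝ) + (cls A X ∅).card = A.card := by
      exact_mod_cast h1
    linarith
  have hle : ∀ T ∈ X.powerset.erase ∅,
      (cls A X T).card ≤ (A.filter (fun S => (S ∩ X).Nonempty)).card := by
    intro T hT
    apply card_le_card
    intro S hS
    obtain ⟨hS, hST⟩ := mem_filter.mp hS
    refine mem_filter.mpr ⟨hS, ?_⟩
    rw [hST]
    exact nonempty_iff_ne_empty.mpr (mem_erase.mp hT).1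
  obtain ⟨b, hb⟩ : ∃ b : ℝ, b = (A.filter (fun S => (S ∩ X).Nonempty)).card := ⟨_, rfl⟩
  obtain ⟨a, ha⟩ : ∃ a : ℝ, a = (cls A X ∅).card := ⟨_, rfl⟩
  obtain ⟨L, hL⟩ : ∃ L : ℝ, L = ∑ T ∈ X.powerset.erase ∅,
    ((cls A X T).card : ℝ) * log (cls A X T).card := ⟨_, rfl⟩
  have hL0 : 0 ≤ L := by
    rw [hL]
    exact sum_nonneg fun T _ => mul_nonneg (by positivity) (log_natCast_nonneg _)
  have hR : ∑ S ∈ X.powerset, ∑ T ∈ X.powerset,
        ((cls A X S).card : ℝ) * (cls A X T).card * log (cls A X (S ∪ T)).card ≤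
      a ^ 2 * log a + 2 * a * L + b ^ 2 * log b := by
    rw [← insert_erase (empty_mem_powerset X), sum_insert (notMem_erase _ _),
      sum_insert (notMem_erase _ _)]
    have r1 : ∑ T ∈ X.powerset.erase ∅, ((cls A X ∅).card : ℝ) * (cls A X T).card *
        log (cls A X (∅ ∪ T)).card = a * L := by
      rw [hL, mul_sum]
      refine sum_congr rfl fun T _ => ?_
      rw [empty_union, ha]
      ring
    have r2 : ∑ S ∈ X.powerset.erase ∅, ∑ T ∈ insert ∅ (X.powerset.erase ∅),
        ((cls A X S).card : ℝ) * (cls A X T).card * log (cls A X (S ∪ T)).card ≤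
        a * L + b ^ 2 * log b := by
      have r3 : ∀ S ∈ X.powerset.erase ∅, ∑ T ∈ insert ∅ (X.powerset.erase ∅),
          ((cls A X S).card : ℝ) * (cls A X T).card * log (cls A X (S ∪ T)).card ≤
          a * ((cls A X S).card * log (cls A X S).card) + (cls A X S).card * (b * log b) := by
        intro S hS
        rw [sum_insert (notMem_erase _ _), union_empty]
        have r4 : ∑ T ∈ X.powerset.erase ∅, ((cls A X S).card : ℝ) * (cls A X T).card *
            log (cls A X (S ∪ T)).card ≤ ∑ T ∈ X.powerset.erase ∅,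
            (cls A X S).card * log b * (cls A X T).card := by
          refine sum_le_sum fun T hT => ?_
          have r5 : log ((cls A X (S ∪ T)).card : ℝ) ≤ log b := by
            rw [hb]
            apply lognat_mono
            apply hle
            rw [mem_erase, mem_powerset] at hS hT ⊢
            refine ⟨?_, union_subset hS.2 hT.2⟩
            intro h0
            exact hS.1 (union_eq_empty.mp h0).1
          have r6 : 0 ≤ ((cls A X S).card : ℝ) * (cls A X T).card := by positivity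
          have := mul_le_mul_of_nonneg_left r5 r6
          linarith
        rw [← mul_sum, hbd, ← hb] at r4
        rw [← ha]
        linarith
      refine (sum_le_sum r3).trans ?_
      rw [sum_add_distrib, ← mul_sum, ← hL, ← sum_mul, hbd, ← hb]
      apply le_of_eq
      ring
    rw [r1, empty_union, ← ha]
    linarith
  have hLs : ∑ T ∈ X.powerset, ((cls A X T).card : ℝ) * log (cls A X T).card =
      a * log a + L := by
    rw [← insert_erase (empty_mem_powerset X), sum_insert (notMem_erase _ _), ← ha, ← hL]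
  rw [hLs] at h
  have hLb : L ≤ b * log b := by
    rw [hL, hb, ← hbd, sum_mul]
    refine sum_le_sum fun T hT => ?_
    apply mul_le_mul_of_nonneg_left _ (by positivity)
    rw [hbd]
    exact lognat_mono (hle T hT)
  rw [hbd] at hm
  refine ⟨L, hL0, ?_, hm, ?_⟩
  · rw [← hb]; exact hLb
  · rw [← ha, ← hb]
    exact h.trans hR

theorem exists_beta (m : ℕ) (hm : 0 < m) : ∃ β : ℝ, β < (3 - √5) / 2 ∧
    ∀ d : ℕ, (d : ℝ) ≤ (3 - √5) / 2 * m → (d : ℝ) ≤ β * m := by
  have hm' : (0 : ℝ) < m := by exact_mod_cast hm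
  have hψ : 0 ≤ (3 - √5) / 2 := by
    have h5 : √5 < 3 := by
      rw [sqrt_lt' (by norm_num)]
      norm_num
    linarith
  have hirr : Irrational √5 := by
    have := Nat.Prime.irrational_sqrt (p := 5) (by norm_num)
    simpa using this
  refine ⟨(⌊(3 - √5) / 2 * m⌋₊ : ℝ) / m, ?_, ?_⟩
  · rw [div_lt_iff₀ hm']
    apply lt_of_le_of_ne (Nat.floor_le (by positivity))
    intro h
    apply hirr
    refine ⟨3 - 2 * (⌊(3 - √5) / 2 * m⌋₊ : ℚ) / m, ?_⟩
    push_cast
    rw [h]
    field_simp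
    ring
  · intro d hd
    rw [div_mul_cancel₀ _ hm'.ne']
    exact_mod_cast Nat.le_floor hd

/-- If every element outside `X` lies in at most `(3 - √5)/2` of the members and some member meets
`X`, then more than half of the members meet `X`, or there are only two members. -/
theorem meet_half (A : Finset (Finset α)) (huc : ∀ X ∈ A, ∀ Y ∈ A, X ∪ Y ∈ A) (X : Finset α)
    (hX : ∃ S ∈ A, (S ∩ X).Nonempty)
    (hβ : ∀ y : α, y ∉ X →
      ((A.filter (fun S => y ∈ S)).card : ℝ) ≤ (3 - √5) / 2 * A.card) :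
    A.card < 2 * (A.filter (fun S => (S ∩ X).Nonempty)).card ∨
      (A.card = 2 ∧ (A.filter (fun S => (S ∩ X).Nonempty)).card = 1) := by
  have hb0 : 0 < (A.filter (fun S => (S ∩ X).Nonempty)).card := by
    obtain ⟨S, hS, hSX⟩ := hX
    exact card_pos.mpr ⟨S, mem_filter.mpr ⟨hS, hSX⟩⟩
  have hA0 : 0 < A.card := lt_of_lt_of_le hb0 (card_le_card (filter_subset _ _))
  obtain ⟨β, hβ1, hβ2⟩ := exists_beta A.card hA0
  obtain ⟨L, hL0, hLb, hm, h⟩ := coreX' A huc X β (fun y hy => hβ2 _ (hβ y hy))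
  have hq : q * (1 - (3 - √5) / 2) = 1 := by
    have h5 : √5 ^ 2 = 5 := sq_sqrt (by norm_num)
    unfold q
    nlinarith
  have hq0 : 0 < q := by have := q_lb; linarith
  have hr : 1 < q * (1 - β) := by
    rw [← hq]
    apply mul_lt_mul_of_pos_left _ hq0
    linarith
  have hloga : 0 ≤ log ((cls A X ∅).card : ℝ) := log_natCast_nonneg _
  obtain ⟨bn, hbn⟩ : ∃ bn : ℕ, bn = (A.filter (fun S => (S ∩ X).Nonempty)).card := ⟨_, rfl⟩
  obtain ⟨an, han⟩ : ∃ an : ℕ, an = (cls A X ∅).card := ⟨_, rfl⟩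
  rw [← hbn] at hb0 hLb hm h ⊢
  rw [← han] at hm h hloga
  have hmn : an + bn = A.card := by exact_mod_cast hm
  rcases Nat.lt_or_ge A.card (2 * bn) with hlt | hge
  · exact Or.inl hlt
  right
  have hba : bn ≤ an := by omega
  have hb1 : (0 : ℝ) < bn := by exact_mod_cast hb0
  have hba' : (bn : ℝ) ≤ an := by exact_mod_cast hba
  have ha1 : (0 : ℝ) < an := by linarith
  have hcard : (0 : ℝ) < A.card := by exact_mod_cast hA0
  have hmon : log (bn : ℝ) ≤ log (an : ℝ) := log_le_log hb1 hba'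
  have h2 : ((an : ℝ) - bn) * L ≤ ((an : ℝ) - bn) * (bn * log bn) :=
    mul_le_mul_of_nonneg_left hLb (by linarith)
  have h3 : (an : ℝ) * bn * log bn ≤ (an : ℝ) * bn * log an :=
    mul_le_mul_of_nonneg_left hmon (by positivity)
  have hQ0 : 0 ≤ (an : ℝ) * log an + L := by positivity
  -- `Q = 0`
  have hQ : (an : ℝ) * log an + L ≤ 0 := by
    by_contra hcon
    push Not at hcon
    have h4 : (A.card : ℝ) * (an * log an + L) < q * (1 - β) * A.card * (an * log an + L) := by
      have : 0 < (A.card : ℝ) * (an * log an + L) := by positivity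
      nlinarith
    rw [← hm] at h4 h
    nlinarith
  have hlog0 : (an : ℝ) * log an ≤ 0 := by linarith
  have han1 : an = 1 := by
    by_contra hne
    have h5 : 2 ≤ an := by omega
    have h6 : 0 < log (an : ℝ) := log_pos (by exact_mod_cast h5)
    have : 0 < (an : ℝ) * log an := by positivity
    linarith
  constructor
  · omega
  · omega

theorem psi_lt_half {m : ℝ} (hm : 0 < m) : (3 - √5) / 2 * m < m / 2 := by
  have h5 : 2 < √5 := by
    rw [lt_sqrt (by norm_num)]
    norm_num
  nlinarith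

/-- **Main theorem.** At least half of the members of a union-closed family contain an element that
lies in more than `(3 - √5)/2` of the members; more than half, unless the family is `{∅, S}`. -/
theorem popular (A : Finset (Finset α)) (huc : ∀ X ∈ A, ∀ Y ∈ A, X ∪ Y ∈ A)
    (hne : ∃ S ∈ A, S.Nonempty) :
    ∃ X : Finset α, (∀ x ∈ X, (3 - √5) / 2 * (A.card : ℝ) < (A.filter (fun S => x ∈ S)).card) ∧
      A.card ≤ 2 * (A.filter (fun S => (S ∩ X).Nonempty)).card ∧
      (A.card = 2 * (A.filter (fun S => (S ∩ X).Nonempty)).card → ∃ S, A = {∅, S}) := by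
  classical
  obtain ⟨X, hXd⟩ : ∃ X : Finset α, X = (A.sup id).filter
    (fun x => (3 - √5) / 2 * (A.card : ℝ) < (A.filter (fun S => x ∈ S)).card) := ⟨_, rfl⟩
  have hX : ∀ x, x ∈ X ↔ x ∈ A.sup id ∧
      (3 - √5) / 2 * (A.card : ℝ) < (A.filter (fun S => x ∈ S)).card := by
    intro x
    rw [hXd, mem_filter]
  have hψ : 0 ≤ (3 - √5) / 2 := by
    have h5 : √5 < 3 := by
      rw [sqrt_lt' (by norm_num)]
      norm_num
    linarith
  have hβ : ∀ y : α, y ∉ X →
      ((A.filter (fun S => y ∈ S)).card : ℝ) ≤ (3 - √5) / 2 * A.card := by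
    intro y hy
    by_cases hys : y ∈ A.sup id
    · by_contra hcon
      push Not at hcon
      exact hy ((hX y).mpr ⟨hys, hcon⟩)
    · have h0 : A.filter (fun S => y ∈ S) = ∅ := by
        rw [filter_eq_empty_iff]
        intro S hS hyS
        exact hys ((le_sup (f := id) hS) hyS)
      rw [h0, card_empty]
      simp only [Nat.cast_zero]
      positivity
  -- some member meets `X`
  have hmeet : ∃ S ∈ A, (S ∩ X).Nonempty := by
    obtain ⟨S, hS, x, hx⟩ := hne
    by_contra hcon
    push Not at hcon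
    have hsup : x ∈ A.sup id := (le_sup (f := id) hS) hx
    have hX0 : ∀ y, y ∉ X := by
      intro y hy
      obtain ⟨h1, _⟩ := (hX y).mp hy
      rw [mem_sup] at h1
      obtain ⟨S', hS', hyS'⟩ := h1
      have := hcon S' hS'
      have h2 : y ∈ S' ∩ X := mem_inter.mpr ⟨hyS', hy⟩
      rw [this] at h2
      exact absurd h2 (notMem_empty y)
    have h1 := golden A huc x hsup (fun y _ => hβ y (hX0 y))
    have h2 := hβ x (hX0 x)
    have hm0 : (0 : ℝ) < A.card := by exact_mod_cast card_pos.mpr ⟨S, hS⟩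
    have h3 := psi_lt_half hm0
    have h4 : (A.card : ℝ) ≤ 2 * (A.filter (fun S => x ∈ S)).card := by exact_mod_cast h1
    linarith
  refine ⟨X, fun x hx => ((hX x).mp hx).2, ?_⟩
  rcases meet_half A huc X hmeet hβ with h | ⟨h2, h1⟩
  · exact ⟨h.le, fun h' => absurd h' h.ne⟩
  · refine ⟨by omega, fun _ => ?_⟩
    -- two members, one of them avoids `X`
    obtain ⟨S0, S1, hne01, hA⟩ := card_eq_two.mp h2
    have key : ∀ S S' : Finset α, A = {S, S'} → ¬ (S ∩ X).Nonempty → S = ∅ := by
      intro S S' hA' hS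
      by_contra hcon
      obtain ⟨x, hx⟩ := nonempty_iff_ne_empty.mpr hcon
      apply hS
      refine ⟨x, mem_inter.mpr ⟨hx, ?_⟩⟩
      have hSA : S ∈ A := by rw [hA']; exact mem_insert_self _ _
      rw [hX]
      refine ⟨(le_sup (f := id) hSA) hx, ?_⟩
      have h3 : 1 ≤ (A.filter (fun S => x ∈ S)).card :=
        card_pos.mpr ⟨S, mem_filter.mpr ⟨hSA, hx⟩⟩
      have h4 : (1 : ℝ) ≤ (A.filter (fun S => x ∈ S)).card := by exact_mod_cast h3
      have h5 := psi_lt_half (show (0 : ℝ) < 2 by norm_num)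
      rw [h2]
      push_cast
      linarith
    by_cases hS0 : (S0 ∩ X).Nonempty
    · by_cases hS1 : (S1 ∩ X).Nonempty
      · exfalso
        have : A.filter (fun S => (S ∩ X).Nonempty) = A := by
          rw [filter_eq_self]
          intro S hS
          rw [hA, mem_insert, mem_singleton] at hS
          rcases hS with rfl | rfl
          · exact hS0
          · exact hS1
        rw [this] at h1
        omega
      · have h6 : A = {S1, S0} := by rw [hA, pair_comm]
        exact ⟨S0, by rw [h6, key S1 S0 h6 hS1]⟩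
    · exact ⟨S1, by rw [hA, key S0 S1 hA hS0]⟩

/-! ### The combinatorial part -/

theorem union_mem (A : Finset (Finset α)) (huc : ∀ X ∈ A, ∀ Y ∈ A, X ∪ Y ∈ A) (T : Finset α)
    (hpriv : ∀ y ∈ T, ∃ S ∈ A, S ∩ T = {y}) (U : Finset α) (hU : U.Nonempty) (hUT : U ⊆ T) :
    ∃ S ∈ A, S ∩ T = U := by
  induction hU using Finset.Nonempty.cons_induction with
  | singleton a => exact hpriv a (hUT (mem_singleton_self a))
  | cons a s has hs ih =>
    obtain ⟨S, hS, hST⟩ := ih fun y hy => hUT (mem_cons_of_mem hy)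
    obtain ⟨S', hS', hST'⟩ := hpriv a (hUT (mem_cons_self a s))
    refine ⟨S' ∪ S, huc S' hS' S hS, ?_⟩
    rw [union_inter_distrib_right, hST, hST', cons_eq_insert, insert_eq]

theorem sum_card_powerset (T : Finset α) :
    2 * ∑ U ∈ T.powerset, U.card = T.card * 2 ^ T.card := by
  have h1 : ∑ U ∈ T.powerset, U.card = ∑ U ∈ T.powerset, (T \ U).card := by
    apply sum_nbij' (fun U => T \ U) (fun U => T \ U)
    · intro U _
      exact mem_powerset.mpr sdiff_subset
    · intro U _
      exact mem_powerset.mpr sdiff_subset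
    · intro U hU
      exact Finset.sdiff_sdiff_eq_self (mem_powerset.mp hU)
    · intro U hU
      exact Finset.sdiff_sdiff_eq_self (mem_powerset.mp hU)
    · intro U hU
      rw [Finset.sdiff_sdiff_eq_self (mem_powerset.mp hU)]
  have h2 : ∑ U ∈ T.powerset, U.card + ∑ U ∈ T.powerset, (T \ U).card =
      T.card * 2 ^ T.card := by
    rw [← sum_add_distrib]
    have : ∀ U ∈ T.powerset, U.card + (T \ U).card = T.card := by
      intro U hU
      rw [add_comm, card_sdiff_add_card_eq_card (mem_powerset.mp hU)]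
    rw [sum_congr rfl this, sum_const, card_powerset, smul_eq_mul, mul_comm]
  omega

theorem sum_pred (T : Finset α) :
    ∑ U ∈ T.powerset, (U.card - 1) + 2 ^ T.card = ∑ U ∈ T.powerset, U.card + 1 := by
  have h1 : ∑ U ∈ T.powerset, (U.card - 1 + 1) = ∑ U ∈ T.powerset, U.card + 1 := by
    rw [← insert_erase (empty_mem_powerset T), sum_insert (notMem_erase _ _),
      sum_insert (notMem_erase _ _)]
    have : ∑ U ∈ T.powerset.erase ∅, (U.card - 1 + 1) = ∑ U ∈ T.powerset.erase ∅, U.card := by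
      refine sum_congr rfl fun U hU => ?_
      have := card_pos.mpr (nonempty_iff_ne_empty.mpr (mem_erase.mp hU).1)
      omega
    rw [this]
    simp
    ring
  rw [← h1, sum_add_distrib, sum_const, card_powerset]
  simp

/-- Knill's argument, for the elements other than `x`. -/
theorem knill (A : Finset (Finset α)) (huc : ∀ X ∈ A, ∀ Y ∈ A, X ∪ Y ∈ A) (x : α)
    (hne : ∃ S ∈ A, ∃ y ∈ S, y ≠ x)
    (hβ : ∀ y : α, y ≠ x → 3 * (A.filter (fun S => y ∈ S)).card ≤ A.card) (hm4 : 4 ≤ A.card) :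
    45 ≤ A.card := by
  -- a minimal transversal
  obtain ⟨T, hT, hmin⟩ := exists_min_image
    (((A.sup id).erase x).powerset.filter
      (fun T => ∀ S ∈ A, (∃ y ∈ S, y ≠ x) → (S ∩ T).Nonempty)) card
    ⟨(A.sup id).erase x, by
      rw [mem_filter, mem_powerset]
      refine ⟨Subset.rfl, ?_⟩
      rintro S hS ⟨y, hy, hyx⟩
      exact ⟨y, mem_inter.mpr ⟨hy, mem_erase.mpr ⟨hyx, (le_sup (f := id) hS) hy⟩⟩⟩⟩
  rw [mem_filter, mem_powerset] at hT
  obtain ⟨hTs, hTt⟩ := hT
  have hTx : ∀ y ∈ T, y ≠ x := fun y hy => (mem_erase.mp (hTs hy)).1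
  have hpriv : ∀ y ∈ T, ∃ S ∈ A, S ∩ T = {y} := by
    intro y hy
    by_contra hcon
    push Not at hcon
    have h1 : T.erase y ∈ (((A.sup id).erase x).powerset.filter
        (fun T => ∀ S ∈ A, (∃ y ∈ S, y ≠ x) → (S ∩ T).Nonempty)) := by
      rw [mem_filter, mem_powerset]
      refine ⟨(erase_subset _ _).trans hTs, ?_⟩
      intro S hS hSy
      obtain ⟨z, hz⟩ := hTt S hS hSy
      by_contra hemp
      rw [not_nonempty_iff_eq_empty] at hemp
      apply hcon S hS
      have h2 : ∀ w ∈ S ∩ T, w = y := by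
        intro w hw
        by_contra hwy
        have : w ∈ S ∩ T.erase y :=
          mem_inter.mpr ⟨(mem_inter.mp hw).1, mem_erase.mpr ⟨hwy, (mem_inter.mp hw).2⟩⟩
        rw [hemp] at this
        exact absurd this (notMem_empty w)
      ext w
      rw [mem_singleton]
      exact ⟨h2 w, fun h => by rw [h, ← h2 z hz]; exact hz⟩
    have h2 := hmin _ h1
    have h3 := card_erase_lt_of_mem hy
    omega
  have hT1 : 1 ≤ T.card := by
    obtain ⟨S, hS, hSy⟩ := hne
    obtain ⟨z, hz⟩ := hTt S hS hSy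
    exact card_pos.mpr ⟨z, (mem_inter.mp hz).2⟩
  -- double counting
  have hdc : ∑ y ∈ T, (A.filter (fun S => y ∈ S)).card = ∑ S ∈ A, (S ∩ T).card := by
    have e1 : ∀ y ∈ T, (A.filter (fun S => y ∈ S)).card = ∑ S ∈ A, if y ∈ S then 1 else 0 := by
      intro y _
      rw [card_filter]
    have e2 : ∀ S ∈ A, (S ∩ T).card = ∑ y ∈ T, if y ∈ S then 1 else 0 := by
      intro S _
      rw [inter_comm, ← filter_mem_eq_inter, card_filter]
    rw [sum_congr rfl e1, sum_congr rfl e2, sum_comm]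
  have hD : 3 * ∑ S ∈ A, (S ∩ T).card ≤ T.card * A.card := by
    rw [← hdc, mul_sum]
    calc _ ≤ ∑ y ∈ T, A.card := sum_le_sum fun y hy => hβ y (hTx y hy)
      _ = _ := by rw [sum_const, smul_eq_mul]
  have hE : (A.filter (fun S => S ∩ T = ∅)).card ≤ 2 := by
    have h1 : A.filter (fun S => S ∩ T = ∅) ⊆ ({x} : Finset α).powerset := by
      intro S hS
      rw [mem_filter] at hS
      rw [mem_powerset]
      intro y hy
      rw [mem_singleton]
      by_contra hyx
      have := hTt S hS.1 ⟨y, hy, hyx⟩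
      rw [hS.2] at this
      exact absurd this not_nonempty_empty
    have h2 := card_le_card h1
    rwa [card_powerset, card_singleton, pow_one] at h2
  have hR : ∑ U ∈ T.powerset, (U.card - 1) ≤ ∑ S ∈ A, ((S ∩ T).card - 1) := by
    rw [← sum_fiberwise_of_maps_to (s := A) (t := T.powerset) (g := fun S => S ∩ T)
      (fun S _ => mem_powerset.mpr inter_subset_right)]
    refine sum_le_sum fun U hU => ?_
    rcases U.eq_empty_or_nonempty with h0 | h0
    · rw [h0]; simp
    · obtain ⟨S, hS, hSU⟩ := union_mem A huc T hpriv U h0 (mem_powerset.mp hU)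
      have h1 : (S ∩ T).card - 1 ≤ ∑ S ∈ A.filter (fun S => S ∩ T = U), ((S ∩ T).card - 1) :=
        single_le_sum (f := fun S => (S ∩ T).card - 1) (fun _ _ => Nat.zero_le _)
          (mem_filter.mpr ⟨hS, hSU⟩)
      rwa [hSU] at h1
  have hsum : ∑ S ∈ A, (S ∩ T).card + (A.filter (fun S => S ∩ T = ∅)).card =
      A.card + ∑ S ∈ A, ((S ∩ T).card - 1) := by
    rw [card_filter, card_eq_sum_ones, ← sum_add_distrib, ← sum_add_distrib]
    refine sum_congr rfl fun S _ => ?_
    split_ifs with h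
    · rw [h]; simp
    · have := card_pos.mpr (nonempty_iff_ne_empty.mpr h)
      omega
  have h1 := sum_card_powerset T
  have h2 := sum_pred T
  obtain ⟨t, ht⟩ : ∃ t, t = T.card := ⟨_, rfl⟩
  obtain ⟨m, hmd⟩ : ∃ m, m = A.card := ⟨_, rfl⟩
  obtain ⟨D, hDd⟩ : ∃ D, D = ∑ S ∈ A, (S ∩ T).card := ⟨_, rfl⟩
  obtain ⟨R, hRd⟩ : ∃ R, R = ∑ S ∈ A, ((S ∩ T).card - 1) := ⟨_, rfl⟩
  obtain ⟨W, hWd⟩ : ∃ W, W = ∑ U ∈ T.powerset, (U.card - 1) := ⟨_, rfl⟩
  obtain ⟨V, hVd⟩ : ∃ V, V = ∑ U ∈ T.powerset, U.card := ⟨_, rfl⟩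
  obtain ⟨E, hEd⟩ : ∃ E, E = (A.filter (fun S => S ∩ T = ∅)).card := ⟨_, rfl⟩
  rw [← ht, ← hmd, ← hDd] at hD
  rw [← hEd] at hE
  rw [← hWd, ← hRd] at hR
  rw [← hDd, ← hEd, ← hmd, ← hRd] at hsum
  rw [← hVd, ← ht] at h1
  rw [← hWd, ← hVd, ← ht] at h2
  rw [← hmd] at hm4 ⊢
  rw [← ht] at hT1
  rcases Nat.lt_or_ge t 5 with h5 | h5
  · interval_cases t
    · omega
    · omega
    · omega
    · omega
  · obtain ⟨s, rfl⟩ := Nat.exists_eq_add_of_le h5
    have hP : 32 ≤ 2 ^ (5 + s) := by
      have : 1 ≤ 2 ^ s := Nat.one_le_two_pow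
      rw [pow_add]
      omega
    obtain ⟨P, hPd⟩ : ∃ P, P = 2 ^ (5 + s) := ⟨_, rfl⟩
    rw [← hPd] at hP h1 h2
    have h3 : 3 * (m + W) ≤ (5 + s) * m + 6 := by omega
    have h4 : (3 + s) * P + 2 = 2 * W := by nlinarith
    have h6 : (3 + s) * 32 ≤ (3 + s) * P := Nat.mul_le_mul_left _ hP
    by_contra hcon
    push Not at hcon
    have h7 : (2 + s) * m ≤ (2 + s) * 44 := Nat.mul_le_mul_left _ (by omega)
    nlinarith

end Pool.Agent.Y418.UC2
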