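import Mathlib

set_option autoImplicit false
set_option linter.unusedSectionVars false

namespace Pool.Agent.Y418

open Finset

namespace Play

/-- last element of a history -/
def lx (h : List (Finset ℕ)) : Finset ℕ := h.getD (h.length - 1) ∅

/-- moves of the player moving at indices congruent to `p`, last move of the history excluded -/
def lX (p : ℕ) (h : List (Finset ℕ)) : Finset (Finset ℕ) :=
  ((range (h.length - 1)).filter (fun i => i % 2 = p)).image (fun j => h.getD j ∅)

/-- moves of the other player, last move of the history excluded -/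
def lY (p : ℕ) (h : List (Finset ℕ)) : Finset (Finset ℕ) :=
  ((range (h.length - 1)).filter (fun i => i % 2 ≠ p)).image (fun j => h.getD j ∅)

theorem mem_cases (p : ℕ) (h : List (Finset ℕ)) (z : Finset ℕ) (hz : z ∈ h) :
    z = lx h ∨ z ∈ lX p h ∨ z ∈ lY p h := by
  obtain ⟨j, hj, rfl⟩ := List.mem_iff_getElem.1 hz
  by_cases h1 : j = h.length - 1
  · left
    rw [lx, ← h1, List.getD_eq_getElem _ _ hj]
  · right
    by_cases h2 : j % 2 = p
    · left
      rw [lX, mem_image]
      refine ⟨j, ?_, ?_⟩
      · rw [mem_filter, mem_range]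
        exact ⟨by omega, h2⟩
      · rw [List.getD_eq_getElem _ _ hj]
    · right
      rw [lY, mem_image]
      refine ⟨j, ?_, ?_⟩
      · rw [mem_filter, mem_range]
        exact ⟨by omega, h2⟩
      · rw [List.getD_eq_getElem _ _ hj]

theorem exists_fresh (k : ℕ) (hk : 0 < k) (Z : Finset (Finset ℕ)) :
    ∃ y : Finset ℕ, y.card = k ∧ y ∉ Z := by
  classical
  obtain ⟨B, hB⟩ : ∃ B : ℕ, ∀ y ∈ Z, ∀ u ∈ y, u < B := by
    refine ⟨(Z.biUnion id).sup id + 1, ?_⟩
    intro y hy u hu
    have : u ∈ Z.biUnion id := mem_biUnion.2 ⟨y, hy, hu⟩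
    have h2 := Finset.le_sup (f := id) this
    simp only [id] at h2
    exact Nat.lt_succ_of_le h2
  refine ⟨(range k).image (fun i => B + i), ?_, ?_⟩
  · rw [Finset.card_image_of_injective, Finset.card_range]
    intro a b hab
    have : B + a = B + b := hab
    omega
  · intro h
    have h1 : B + 0 ∈ (range k).image (fun i => B + i) :=
      mem_image_of_mem _ (mem_range.2 hk)
    have h2 := hB _ h _ h1
    omega

/-- the list of the first `n` moves -/
def play (p : ℕ) (s r : List (Finset ℕ) → Finset ℕ) : ℕ → List (Finset ℕ)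
  | 0 => []
  | (n + 1) => play p s r n ++ [if n % 2 = p then s (play p s r n) else r (play p s r n)]

def mv (p : ℕ) (s r : List (Finset ℕ) → Finset ℕ) (n : ℕ) : Finset ℕ :=
  if n % 2 = p then s (play p s r n) else r (play p s r n)

theorem play_eq (p : ℕ) (s r : List (Finset ℕ) → Finset ℕ) (n : ℕ) :
    play p s r n = List.ofFn (fun j : Fin n => mv p s r j) := by
  induction n with
  | zero => simp [play]
  | succ n ih =>
    rw [List.ofFn_succ', List.concat_eq_append]
    change play p s r n ++ [mv p s r n] = _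
    rw [ih]
    rfl

theorem getD_ofFn (m : ℕ → Finset ℕ) (n j : ℕ) (hj : j < n) :
    (List.ofFn (fun j : Fin n => m j)).getD j ∅ = m j := by
  rw [List.getD_eq_getElem _ _ (by rw [List.length_ofFn]; exact hj), List.getElem_ofFn]

theorem exists_play (k : ℕ) (hk : 0 < k) (p : ℕ) (hp : p < 2)
    (Inv : Finset (Finset ℕ) → Finset (Finset ℕ) → Prop) (Cp : Finset (Finset ℕ) → Prop)
    (h0 : Inv ∅ ∅) (h0' : ∀ y, Inv ∅ {y})
    (hstep : ∀ X Y, Inv X Y → ∀ x, x ∉ X → x ∉ Y → (Cp (insert x X) → Cp Y) ∧
      ∃ y : Finset ℕ, y.card = k ∧ y ∉ insert x X ∧ y ∉ Y ∧ Inv (insert x X) (insert y Y))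
    (s : List (Finset ℕ) → Finset ℕ) :
    ∃ m : ℕ → Finset ℕ,
      (∀ i : ℕ, i % 2 = p → m i = s (List.ofFn (fun j : Fin i => m j))) ∧
      (∀ i : ℕ, i % 2 ≠ p → (m i).card = k ∧ ∀ j < i, m j ≠ m i) ∧
      (∀ N : ℕ, N % 2 = p → (∀ i ≤ N, i % 2 = p → (m i).card = k ∧ ∀ j < i, m j ≠ m i) →
        Cp (((range (N + 1)).filter (fun i => i % 2 = p)).image m) →
        Cp (((range N).filter (fun i => i % 2 ≠ p)).image m)) := by
  classical
  -- the reply function
  have hr : ∀ h : List (Finset ℕ), ∃ y : Finset ℕ, y.card = k ∧ (∀ z ∈ h, z ≠ y) ∧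
      (Inv (lX p h) (lY p h) → lx h ∉ lX p h → lx h ∉ lY p h →
        Inv (insert (lx h) (lX p h)) (insert y (lY p h))) := by
    intro h
    by_cases hc : Inv (lX p h) (lY p h) ∧ lx h ∉ lX p h ∧ lx h ∉ lY p h
    · obtain ⟨_, y, hy1, hy2, hy3, hy4⟩ := hstep _ _ hc.1 _ hc.2.1 hc.2.2
      refine ⟨y, hy1, ?_, fun _ _ _ => hy4⟩
      rintro z hz rfl
      rcases mem_cases p h z hz with h' | h' | h'
      · exact hy2 (by rw [h']; exact mem_insert_self _ _)
      · exact hy2 (mem_insert_of_mem h')
      · exact hy3 h'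
    · obtain ⟨y, hy1, hy2⟩ := exists_fresh k hk h.toFinset
      refine ⟨y, hy1, ?_, fun h1 h2 h3 => absurd ⟨h1, h2, h3⟩ hc⟩
      rintro z hz rfl
      exact hy2 (List.mem_toFinset.2 hz)
  choose r hr1 hr2 hr3 using hr
  set m := mv p s r with hm
  have hmA : ∀ i : ℕ, i % 2 = p → m i = s (List.ofFn (fun j : Fin i => m j)) := by
    intro i hi
    rw [hm, ← play_eq p s r i]
    simp [mv, hi]
  have hmD : ∀ i : ℕ, i % 2 ≠ p → m i = r (List.ofFn (fun j : Fin i => m j)) := by
    intro i hi
    rw [hm, ← play_eq p s r i]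
    simp [mv, hi]
  have hlegal : ∀ i : ℕ, i % 2 ≠ p → (m i).card = k ∧ ∀ j < i, m j ≠ m i := by
    intro i hi
    rw [hmD i hi]
    refine ⟨hr1 _, ?_⟩
    intro j hj
    apply hr2
    rw [List.mem_ofFn]
    exact ⟨⟨j, hj⟩, rfl⟩
  refine ⟨m, hmA, hlegal, ?_⟩
  -- the sets of moves
  have hXs : ∀ i, i % 2 = p → ((range (i + 1)).filter (fun i => i % 2 = p)).image m =
      insert (m i) (((range i).filter (fun i => i % 2 = p)).image m) := by
    intro i hi
    rw [Finset.range_add_one, Finset.filter_insert, if_pos hi, Finset.image_insert]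
  have hXs' : ∀ i, i % 2 ≠ p → ((range (i + 1)).filter (fun i => i % 2 = p)).image m =
      ((range i).filter (fun i => i % 2 = p)).image m := by
    intro i hi
    rw [Finset.range_add_one, Finset.filter_insert, if_neg hi]
  have hYs : ∀ i, i % 2 ≠ p → ((range (i + 1)).filter (fun i => i % 2 ≠ p)).image m =
      insert (m i) (((range i).filter (fun i => i % 2 ≠ p)).image m) := by
    intro i hi
    rw [Finset.range_add_one, Finset.filter_insert, if_pos hi, Finset.image_insert]
  have hYs' : ∀ i, i % 2 = p → ((range (i + 1)).filter (fun i => i % 2 ≠ p)).image m =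
      ((range i).filter (fun i => i % 2 ≠ p)).image m := by
    intro i hi
    rw [Finset.range_add_one, Finset.filter_insert, if_neg (not_not.2 hi)]
  -- list functions on histories
  have hlx : ∀ i, lx (List.ofFn (fun j : Fin (i + 1) => m j)) = m i := by
    intro i
    rw [lx, List.length_ofFn, Nat.add_sub_cancel]
    exact getD_ofFn m (i + 1) i (Nat.lt_succ_self i)
  have hlX : ∀ i, lX p (List.ofFn (fun j : Fin (i + 1) => m j)) =
      ((range i).filter (fun i => i % 2 = p)).image m := by
    intro i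
    rw [lX, List.length_ofFn, Nat.add_sub_cancel]
    apply Finset.image_congr
    intro j hj
    have hj' : j < i := mem_range.1 (mem_filter.1 (Finset.mem_coe.1 hj)).1
    exact getD_ofFn m (i + 1) j (by omega)
  have hlY : ∀ i, lY p (List.ofFn (fun j : Fin (i + 1) => m j)) =
      ((range i).filter (fun i => i % 2 ≠ p)).image m := by
    intro i
    rw [lY, List.length_ofFn, Nat.add_sub_cancel]
    apply Finset.image_congr
    intro j hj
    have hj' : j < i := mem_range.1 (mem_filter.1 (Finset.mem_coe.1 hj)).1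
    exact getD_ofFn m (i + 1) j (by omega)
  -- a legal attacker move is new
  have hnew : ∀ i, (∀ j < i, m j ≠ m i) →
      m i ∉ ((range i).filter (fun i => i % 2 = p)).image m ∧
      m i ∉ ((range i).filter (fun i => i % 2 ≠ p)).image m := by
    intro i hi
    constructor
    · intro h
      obtain ⟨j, hj, hj'⟩ := mem_image.1 h
      exact hi j (mem_range.1 (mem_filter.1 hj).1) hj'
    · intro h
      obtain ⟨j, hj, hj'⟩ := mem_image.1 h
      exact hi j (mem_range.1 (mem_filter.1 hj).1) hj'
  have hinv : ∀ n : ℕ, (∀ l < n, ∀ j < p + 2 * l, m j ≠ m (p + 2 * l)) →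
      Inv (((range (p + 2 * n)).filter (fun i => i % 2 = p)).image m)
        (((range (p + 2 * n)).filter (fun i => i % 2 ≠ p)).image m) := by
    intro n
    induction n with
    | zero =>
      intro _
      have hp' : p = 0 ∨ p = 1 := by omega
      rcases hp' with hp0 | hp1
      · have e1 : p + 2 * 0 = 0 := by omega
        rw [e1]
        simp only [Finset.range_zero, Finset.filter_empty, Finset.image_empty]
        exact h0
      · have e1 : p + 2 * 0 = 0 + 1 := by omega
        rw [e1, hXs' 0 (by omega), hYs 0 (by omega)]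
        simp only [Finset.range_zero, Finset.filter_empty, Finset.image_empty]
        exact h0' _
    | succ n ih =>
      intro hleg
      have h1 := ih (fun l hl => hleg l (by omega))
      have h2 := hleg n (Nat.lt_succ_self n)
      obtain ⟨h3, h4⟩ := hnew _ h2
      have hpar1 : (p + 2 * n) % 2 = p := by omega
      have hpar2 : (p + 2 * n + 1) % 2 ≠ p := by omega
      have e1 : p + 2 * (n + 1) = p + 2 * n + 1 + 1 := by omega
      rw [e1, hXs' _ hpar2, hYs _ hpar2, hXs _ hpar1, hYs' _ hpar1]
      have h5 := hr3 (List.ofFn (fun j : Fin (p + 2 * n + 1) => m j))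
      rw [hlX, hlY, hlx] at h5
      have h6 := h5 h1 h3 h4
      rw [← hmD _ hpar2] at h6
      exact h6
  intro N hN hleg hCp
  obtain ⟨n, rfl⟩ : ∃ n, N = p + 2 * n := ⟨N / 2, by omega⟩
  have h1 := hinv n (fun l hl => (hleg (p + 2 * l) (by omega) (by omega)).2)
  obtain ⟨h3, h4⟩ := hnew _ (hleg (p + 2 * n) le_rfl hN).2
  rw [hXs _ hN] at hCp
  exact (hstep _ _ h1 _ h3 h4).1 hCp

end Play

end Pool.Agent.Y418
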