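import Pool.Agent.Y418.StepS
import Pool.Agent.Y418.Play

set_option autoImplicit false
set_option linter.unusedSectionVars false

namespace Pool.Agent.Y418

open Finset

namespace Sys

variable {V J T : Type} [Fintype V] [DecidableEq V] [Fintype J] [DecidableEq J]
  [Fintype T] [DecidableEq T] {S : Sys V J T}

/-- the hypergraph on `Fin n` -/
def HF (S : Sys V J T) (n : ℕ) (ε : V ≃ Fin n) : Finset (Finset (Fin n)) :=
  S.H.image (Finset.map ε.toEmbedding)

theorem copy_iff {n : ℕ} (ε : V ≃ Fin n) (Z : Finset (Finset ℕ)) :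
    S.Copy Z ↔ ∃ f : Fin n → ℕ, Function.Injective f ∧ ∀ e ∈ S.HF n ε, e.image f ∈ Z := by
  constructor
  · rintro ⟨ψ, hψ⟩
    refine ⟨fun i => ψ (ε.symm i), ?_, ?_⟩
    · intro a b hab
      exact ε.symm.injective (ψ.injective hab)
    · intro e he
      obtain ⟨e₀, he₀, rfl⟩ := mem_image.1 he
      have h1 : (e₀.map ε.toEmbedding).image (fun i => ψ (ε.symm i)) = e₀.map ψ := by
        ext u
        simp only [mem_image, Finset.mem_map]
        constructor
        · rintro ⟨_, ⟨v, hv, rfl⟩, rfl⟩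
          refine ⟨v, hv, ?_⟩
          simp
        · rintro ⟨v, hv, rfl⟩
          refine ⟨ε v, ⟨v, hv, rfl⟩, ?_⟩
          simp
      rw [h1]
      apply hψ
      rw [HI_eq]
      exact mem_image_of_mem _ he₀
  · rintro ⟨f, hf, hfZ⟩
    refine ⟨⟨fun v => f (ε v), fun a b hab => ε.injective (hf hab)⟩, ?_⟩
    intro y hy
    rw [HI_eq] at hy
    obtain ⟨e₀, he₀, rfl⟩ := mem_image.1 hy
    have h1 : (e₀.map ε.toEmbedding).image f =
        e₀.map ⟨fun v => f (ε v), fun a b hab => ε.injective (hf hab)⟩ := by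
      ext u
      simp only [mem_image, Finset.mem_map]
      constructor
      · rintro ⟨_, ⟨v, hv, rfl⟩, rfl⟩
        exact ⟨v, hv, rfl⟩
      · rintro ⟨v, hv, rfl⟩
        exact ⟨ε v, ⟨v, hv, rfl⟩, rfl⟩
    rw [← h1]
    exact hfZ _ (mem_image_of_mem _ he₀)

theorem Good.card_mem_HF (hS : S.Good) {n : ℕ} (ε : V ≃ Fin n) {e : Finset (Fin n)}
    (he : e ∈ S.HF n ε) : e.card = S.h + 1 := by
  obtain ⟨e₀, he₀, rfl⟩ := mem_image.1 he
  rw [Finset.card_map]
  rw [H, mem_union] at he₀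
  rcases he₀ with h | h
  · obtain ⟨j, _, rfl⟩ := mem_image.1 h
    exact hS.hEc j
  · obtain ⟨B, hB, rfl⟩ := mem_image.1 h
    rw [Finset.card_insert_of_notMem (hS.hGz B hB), hS.hGc B hB]

theorem Good.deg_all (hS : S.Good) (v : V) :
    S.d ≤ (S.H.filter (fun e => v ∈ e)).card := by
  by_cases hv : v = S.z
  · subst hv
    have h1 : S.G.image (insert S.z) ⊆ S.H.filter (fun e => S.z ∈ e) := by
      intro e he
      rw [mem_filter]
      refine ⟨?_, ?_⟩
      · rw [H]
        exact mem_union_right _ he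
      · obtain ⟨B, hB, rfl⟩ := mem_image.1 he
        exact mem_insert_self _ _
    have h2 : (S.G.image (insert S.z)).card = S.d := by
      rw [Finset.card_image_of_injOn, hS.hGn]
      intro B hB B' hB' hBB
      have h1 := hS.hGz B hB
      have h2 := hS.hGz B' hB'
      have : (insert S.z B).erase S.z = (insert S.z B').erase S.z := by
        rw [hBB]
      rwa [Finset.erase_insert h1, Finset.erase_insert h2] at this
    rw [← h2]
    exact Finset.card_le_card h1
  · exact (Nat.le_add_right _ _).trans (hS.hdeg v hv)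

theorem Good.deg_HF (hS : S.Good) {n : ℕ} (ε : V ≃ Fin n) (i : Fin n) :
    S.d ≤ ((S.HF n ε).filter (fun e => i ∈ e)).card := by
  have h1 := hS.deg_all (ε.symm i)
  have h2 : (S.H.filter (fun e => ε.symm i ∈ e)).image (Finset.map ε.toEmbedding) ⊆
      (S.HF n ε).filter (fun e => i ∈ e) := by
    intro e he
    obtain ⟨e₀, he₀, rfl⟩ := mem_image.1 he
    rw [mem_filter] at he₀
    rw [mem_filter]
    refine ⟨mem_image_of_mem _ he₀.1, ?_⟩
    rw [Finset.mem_map]
    exact ⟨ε.symm i, he₀.2, by simp⟩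
  have h3 := Finset.card_le_card h2
  rw [Finset.card_image_of_injective _ (Finset.map_injective _)] at h3
  exact h1.trans h3

theorem Good.final (hS : S.Good) (hJ : 0 < Fintype.card J) :
    ∃ (k n : ℕ) (H : Finset (Finset (Fin n))), 0 < n ∧
    (∀ e ∈ H, e.card = k) ∧
    (∀ v : Fin n, S.d ≤ (H.filter (fun e => v ∈ e)).card) ∧
    (¬ ∃ s : List (Finset ℕ) → Finset ℕ, ∀ m : ℕ → Finset ℕ,
        (∀ i : ℕ, Even i → m i = s (List.ofFn (fun j : Fin i => m j))) →
        (∀ i : ℕ, Odd i → (m i).card = k ∧ ∀ j < i, m j ≠ m i) →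
        ∃ N : ℕ, Even N ∧
          (∀ i ≤ N, Even i → (m i).card = k ∧ ∀ j < i, m j ≠ m i) ∧
          (∃ f : Fin n → ℕ, Function.Injective f ∧
              ∀ e ∈ H, ∃ i ≤ N, Even i ∧ m i = e.image f) ∧
          ¬ (∃ f : Fin n → ℕ, Function.Injective f ∧
              ∀ e ∈ H, ∃ i < N, Odd i ∧ m i = e.image f)) ∧
    (¬ ∃ t : List (Finset ℕ) → Finset ℕ, ∀ m : ℕ → Finset ℕ,
        (∀ i : ℕ, Odd i → m i = t (List.ofFn (fun j : Fin i => m j))) →
        (∀ i : ℕ, Even i → (m i).card = k ∧ ∀ j < i, m j ≠ m i) →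
        ∃ N : ℕ, Odd N ∧
          (∀ i ≤ N, Odd i → (m i).card = k ∧ ∀ j < i, m j ≠ m i) ∧
          (∃ f : Fin n → ℕ, Function.Injective f ∧
              ∀ e ∈ H, ∃ i ≤ N, Odd i ∧ m i = e.image f) ∧
          ¬ (∃ f : Fin n → ℕ, Function.Injective f ∧
              ∀ e ∈ H, ∃ i < N, Even i ∧ m i = e.image f)) := by
  classical
  have ε : V ≃ Fin (Fintype.card V) := Fintype.equivFin V
  have hstep : ∀ X Y, S.Inv X Y → ∀ x, x ∉ X → x ∉ Y → (S.Copy (insert x X) → S.Copy Y) ∧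
      ∃ y : Finset ℕ, y.card = S.h + 1 ∧ y ∉ insert x X ∧ y ∉ Y ∧
        S.Inv (insert x X) (insert y Y) := fun X Y hI x hx hy => hS.step hI hx hy
  have hplay := fun p hp s => Play.exists_play (S.h + 1) (Nat.succ_pos _) p hp S.Inv S.Copy
    (inv_init hJ) (inv_init' hJ) hstep s
  refine ⟨S.h + 1, Fintype.card V, S.HF _ ε, ?_, fun e he => hS.card_mem_HF ε he,
    fun v => hS.deg_HF ε v, ?_, ?_⟩
  · rw [hS.hV]
    omega
  · rintro ⟨s, hs⟩
    obtain ⟨m, hm1, hm2, hm3⟩ := hplay 0 (by norm_num) s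
    obtain ⟨N, hN, hleg, ⟨f, hf, hfe⟩, hno⟩ := hs m
      (fun i hi => hm1 i (Nat.even_iff.1 hi))
      (fun i hi => hm2 i (by have := Nat.odd_iff.1 hi; omega))
    have hN' := Nat.even_iff.1 hN
    have hcopy := hm3 N hN' (fun i hi hi' => hleg i hi (Nat.even_iff.2 hi')) (by
      rw [copy_iff ε]
      refine ⟨f, hf, ?_⟩
      intro e he
      obtain ⟨i, hi, hie, hie'⟩ := hfe e he
      rw [← hie']
      apply mem_image_of_mem
      rw [mem_filter, mem_range]
      exact ⟨by omega, Nat.even_iff.1 hie⟩)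
    rw [copy_iff ε] at hcopy
    obtain ⟨g, hg, hge⟩ := hcopy
    apply hno
    refine ⟨g, hg, ?_⟩
    intro e he
    obtain ⟨i, hi, hi'⟩ := mem_image.1 (hge e he)
    rw [mem_filter, mem_range] at hi
    exact ⟨i, hi.1, Nat.odd_iff.2 (by omega), hi'⟩
  · rintro ⟨s, hs⟩
    obtain ⟨m, hm1, hm2, hm3⟩ := hplay 1 (by norm_num) s
    obtain ⟨N, hN, hleg, ⟨f, hf, hfe⟩, hno⟩ := hs m
      (fun i hi => hm1 i (Nat.odd_iff.1 hi))
      (fun i hi => hm2 i (by have := Nat.even_iff.1 hi; omega))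
    have hN' := Nat.odd_iff.1 hN
    have hcopy := hm3 N hN' (fun i hi hi' => hleg i hi (Nat.odd_iff.2 hi')) (by
      rw [copy_iff ε]
      refine ⟨f, hf, ?_⟩
      intro e he
      obtain ⟨i, hi, hie, hie'⟩ := hfe e he
      rw [← hie']
      apply mem_image_of_mem
      rw [mem_filter, mem_range]
      exact ⟨by omega, Nat.odd_iff.1 hie⟩)
    rw [copy_iff ε] at hcopy
    obtain ⟨g, hg, hge⟩ := hcopy
    apply hno
    refine ⟨g, hg, ?_⟩
    intro e he
    obtain ⟨i, hi, hi'⟩ := mem_image.1 (hge e he)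
    rw [mem_filter, mem_range] at hi
    exact ⟨i, hi.1, Nat.even_iff.2 (by omega), hi'⟩

end Sys

end Pool.Agent.Y418
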