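import Pool.Agent.Y418.Conc4
import Pool.Agent.Y418.Final

set_option autoImplicit false
set_option linter.unusedSectionVars false

namespace Pool.Agent.Y418

open Finset

namespace Conc

theorem digits_unique : ∀ (n : ℕ) (c c' : Fin n → ℕ), (∀ l, c l ≤ 2) → (∀ l, c' l ≤ 2) →
    ∑ l : Fin n, 3 ^ (l : ℕ) * c l = ∑ l : Fin n, 3 ^ (l : ℕ) * c' l → c = c' := by
  intro n
  induction n with
  | zero =>
    intro c c' _ _ _
    funext l
    exact l.elim0
  | succ n ih =>
    intro c c' hc hc' h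
    rw [Fin.sum_univ_succ, Fin.sum_univ_succ] at h
    have e1 : ∀ f : Fin (n + 1) → ℕ, ∑ i : Fin n, 3 ^ ((i.succ : Fin (n + 1)) : ℕ) * f i.succ =
        3 * ∑ i : Fin n, 3 ^ (i : ℕ) * f i.succ := by
      intro f
      rw [Finset.mul_sum]
      apply Finset.sum_congr rfl
      intro i _
      rw [Fin.val_succ, pow_succ]
      ring
    rw [e1 c, e1 c'] at h
    simp only [Fin.val_zero, pow_zero, one_mul] at h
    have h0 := hc 0
    have h0' := hc' 0
    have hz : c 0 = c' 0 := by omega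
    have hs : ∑ i : Fin n, 3 ^ (i : ℕ) * c i.succ = ∑ i : Fin n, 3 ^ (i : ℕ) * c' i.succ := by
      omega
    have h1 := ih (fun i => c i.succ) (fun i => c' i.succ) (fun l => hc _) (fun l => hc' _) hs
    funext l
    refine Fin.cases hz (fun i => ?_) l
    exact congrFun h1 i

theorem uniq_weights {J : Type} [Fintype J] (K M : ℕ) (hK : M + 1 < K) (ι : J ≃ Fin (Fintype.card J))
    (c c' : J → ℕ) (hc : ∀ l, c l ≤ 2) (hc' : ∀ l, c' l ≤ 2) (a a' : ℕ) (ha : a ≤ M + 1)
    (ha' : a' ≤ M + 1)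
    (h : a + ∑ l, (K * 3 ^ (ι l : ℕ)) * c l = a' + ∑ l, (K * 3 ^ (ι l : ℕ)) * c' l) :
    a = a' ∧ c = c' := by
  have e1 : ∀ f : J → ℕ, ∑ l, (K * 3 ^ (ι l : ℕ)) * f l =
      K * ∑ i : Fin (Fintype.card J), 3 ^ (i : ℕ) * f (ι.symm i) := by
    intro f
    rw [← Equiv.sum_comp ι, Finset.mul_sum]
    apply Finset.sum_congr rfl
    intro l _
    rw [Equiv.symm_apply_apply, Nat.mul_assoc]
  rw [e1 c, e1 c'] at h
  have hmod : a = a' := by
    have h1 := congrArg (fun x => x % K) h
    simp only [Nat.add_mul_mod_self_left] at h1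
    rwa [Nat.mod_eq_of_lt (by omega), Nat.mod_eq_of_lt (by omega)] at h1
  refine ⟨hmod, ?_⟩
  subst hmod
  have h2 := Nat.add_left_cancel h
  have h3 := Nat.eq_of_mul_eq_mul_left (by omega : 0 < K) h2
  have h4 := digits_unique _ (fun i => c (ι.symm i)) (fun i => c' (ι.symm i))
    (fun l => hc _) (fun l => hc' _) h3
  funext l
  have := congrFun h4 (ι l)
  simpa using this

theorem exists_code (L : ℕ) (hL : 2 ≤ L) :
    ∃ (q : ℕ) (γ : Option ((Fin q ⊕ Bool) × Fin L) → (Fin q ⊕ Bool) → Bool),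
      Function.Injective γ ∧ (∀ o, γ o (Sum.inr false) = false) ∧
      (∀ o, γ o (Sum.inr true) = true) := by
  have hq : ∀ L : ℕ, 2 ≤ L → (2 * L + 2) * L + 1 ≤ 2 ^ (2 * L) := by
    intro L hL
    induction L, hL using Nat.le_induction with
    | base => norm_num
    | succ n hn ih =>
      have e : 2 ^ (2 * (n + 1)) = 4 * 2 ^ (2 * n) := by
        rw [show 2 * (n + 1) = 2 * n + 2 by ring, pow_add]
        ring
      rw [e]
      nlinarith
  have hcard : Fintype.card (Option ((Fin (2 * L) ⊕ Bool) × Fin L)) ≤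
      Fintype.card (Fin (2 * L) → Bool) := by
    rw [Fintype.card_option, Fintype.card_prod, Fintype.card_sum, Fintype.card_fin,
      Fintype.card_bool, Fintype.card_fin, Fintype.card_fun, Fintype.card_bool, Fintype.card_fin]
    exact hq L hL
  obtain ⟨g⟩ := Function.Embedding.nonempty_of_card_le hcard
  refine ⟨2 * L, fun o => Sum.elim (g o) id, ?_, fun o => rfl, fun o => rfl⟩
  intro o o' h
  apply g.injective
  funext i
  have := congrFun h (Sum.inl i)
  exact this

theorem exists_par (d : ℕ) (hd : 3 ≤ d) :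
    ∃ (I J : Type) (_ : Fintype J) (_ : DecidableEq J) (P : Par I J), P.d = d := by
  classical
  obtain ⟨q, γ, hγ, hγ0, hγ1⟩ := exists_code (d + 4) (by omega)
  let J : Type := (Fin q ⊕ Bool) × Fin (d + 4)
  let K : ℕ := 2 * d + 2 + 2 * Fintype.card J
  let ι : J ≃ Fin (Fintype.card J) := Fintype.equivFin J
  obtain ⟨T0, _, hT0⟩ := Finset.exists_subset_card_eq (s := (univ : Finset (Fin (2 * d))))
    (n := d - 2) (by rw [Finset.card_univ, Fintype.card_fin]; omega)
  refine ⟨Fin q ⊕ Bool, J, inferInstance, inferInstance, ?_, ?_⟩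
  · refine
      { d := d
        M := 2 * d
        row := Prod.fst
        i0 := Sum.inr false
        i1 := Sum.inr true
        γ := γ
        s := fun l => K * 3 ^ (ι l : ℕ)
        T0 := T0
        hd := hd
        hM := le_rfl
        hT0 := hT0
        hrow := ?_
        hγ := hγ
        hγ0 := hγ0
        hγ1 := hγ1
        hs := ?_
        huniq := ?_ }
    · intro i Z hZ
      by_contra hcon
      push Not at hcon
      have hsub : (univ : Finset (Fin (d + 4))).image (fun c => ((i, c) : J)) ⊆ Z := by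
        intro p hp
        obtain ⟨c, _, rfl⟩ := mem_image.1 hp
        by_contra hc
        exact hcon _ hc rfl
      have h1 := Finset.card_le_card hsub
      rw [Finset.card_image_of_injective, Finset.card_univ, Fintype.card_fin] at h1
      · omega
      · intro a b hab
        exact (Prod.mk.inj hab).2
    · intro l
      have h1 : 1 ≤ 3 ^ (ι l : ℕ) := Nat.one_le_pow _ _ (by norm_num)
      have h2 : K * 1 ≤ K * 3 ^ (ι l : ℕ) := Nat.mul_le_mul_left K h1
      have h3 : 2 * Fintype.card J < K := by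
        change 2 * Fintype.card J < 2 * d + 2 + 2 * Fintype.card J
        omega
      omega
    · intro c c' hc hc' a a' ha ha' h
      refine uniq_weights K (2 * d) ?_ ι c c' hc hc' a a' ha ha' h
      change 2 * d + 1 < 2 * d + 2 + 2 * Fintype.card J
      omega
  · rfl

/-- the drawn strong Ramsey games -/
theorem drawn (d : ℕ) (hd : 3 ≤ d) :
    ∃ (k n : ℕ) (H : Finset (Finset (Fin n))), 0 < n ∧
    (∀ e ∈ H, e.card = k) ∧
    (∀ v : Fin n, d ≤ (H.filter (fun e => v ∈ e)).card) ∧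
    (¬ ∃ s : List (Finset ℕ) → Finset ℕ, ∀ m : ℕ → Finset ℕ,
        (∀ i : ℕ, Even i → m i = s (List.ofFn (fun j : Fin i => m j))) →
        (∀ i : ℕ, Odd i → (m i).card = k ∧ ∀ j < i, m j ≠ m i) →
        ∃ N : ℕ, Even N ∧
          (∀ i ≤ N, Even i → (m i).card = k ∧ ∀ j < i, m j ≠ m i) ∧
          (∃ f : Fin n → ℕ, Function.Injective f ∧
              ∀ e ∈ H, ∃ i ≤ N, Even i ∧ m i = e.image f) ∧
          ¬ (∃ f : Fin n → ℕ, Function.Injective f ∧
              ∀ e ∈ H, ∃ i < N, Odd i ∧ m i = e.image f)) ∧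
    (¬ ∃ t : List (Finset ℕ) → Finset ℕ, ∀ m : ℕ → Finset ℕ,
        (∀ i : ℕ, Odd i → m i = t (List.ofFn (fun j : Fin i => m j))) →
        (∀ i : ℕ, Even i → (m i).card = k ∧ ∀ j < i, m j ≠ m i) →
        ∃ N : ℕ, Odd N ∧
          (∀ i ≤ N, Odd i → (m i).card = k ∧ ∀ j < i, m j ≠ m i) ∧
          (∃ f : Fin n → ℕ, Function.Injective f ∧
              ∀ e ∈ H, ∃ i ≤ N, Odd i ∧ m i = e.image f) ∧
          ¬ (∃ f : Fin n → ℕ, Function.Injective f ∧
              ∀ e ∈ H, ∃ i < N, Even i ∧ m i = e.image f)) := by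
  obtain ⟨I, J, hJ1, hJ2, P, rfl⟩ := exists_par d hd
  have h1 := Par.card_J P
  exact (Par.good P).final (by omega)

end Conc

end Pool.Agent.Y418
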