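import Pool.Agent.Y418.Race

set_option autoImplicit false
set_option linter.unusedSectionVars false

namespace Pool.Agent.Y418

open Finset

namespace Sys

variable {V J T : Type} [Fintype V] [DecidableEq V] [Fintype J] [DecidableEq J]
  [Fintype T] [DecidableEq T] {S : Sys V J T}

theorem exists_preimage_of_mem_HI {ψ : V ↪ ℕ} {y : Finset ℕ} (hy : y ∈ S.HI ψ) {u : ℕ}
    (hu : u ∈ y) : ∃ v, ψ v = u := by
  rcases mem_HI.1 hy with ⟨j, rfl⟩ | ⟨B, hB, rfl⟩
  · obtain ⟨v, _, hv⟩ := Finset.mem_map.1 hu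
    exact ⟨v, hv⟩
  · rcases mem_insert.1 hu with h | h
    · exact ⟨S.z, h.symm⟩
    · obtain ⟨v, _, hv⟩ := Finset.mem_map.1 h
      exact ⟨v, hv⟩

/-- finishing the building phase -/
theorem fin1 {X Y : Finset (Finset ℕ)} (hdisj : ∀ y ∈ X, y ∉ Y)
    (hX : X.card ≤ Fintype.card J) (hY : Y.card ≤ X.card + 1) {φ : V ↪ ℕ} {J0 : Finset J}
    (hJ0 : J0.card = X.card) (hJ : ∀ j ∈ J0, (S.E j).map φ ∈ Y) {f : Finset ℕ} (hf : f ∈ X)
    (hfφ : ∀ v, φ v ∉ f) : S.Inv X Y := by
  rcases lt_or_eq_of_le hX with hlt | heq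
  · exact Or.inl ⟨hdisj, hlt, hY, φ, J0, hJ0, hJ, Or.inr ⟨f, hf, hfφ⟩⟩
  · refine Or.inr (Or.inl ⟨heq, φ, f, hdisj, ?_, hf, hfφ⟩)
    have hJ0u : J0 = univ := by
      rw [← Finset.card_eq_iff_eq_univ, hJ0, heq]
    intro y hy
    obtain ⟨j, rfl⟩ := mem_CI.1 hy
    exact hJ j (by rw [hJ0u]; exact mem_univ _)

theorem Good.step_1 (hS : S.Good) {X Y : Finset (Finset ℕ)} (h1 : S.St1 X Y) {x : Finset ℕ}
    (hxX : x ∉ X) (hxY : x ∉ Y) : S.Step X Y x := by
  classical
  obtain ⟨hdisj, hXm, hYc, φ, J0, hJ0, hJ, hf⟩ := h1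
  have hd := hS.hd
  have hdisj' : ∀ y ∈ insert x X, y ∉ Y := by
    intro y hy
    rcases mem_insert.1 hy with rfl | h
    · exact hxY
    · exact hdisj y h
  have hXc' : (insert x X).card = X.card + 1 := Finset.card_insert_of_notMem hxX
  refine ⟨?_, ?_⟩
  · intro hcopy
    exfalso
    refine hS.no_copy' ?_ hcopy
    omega
  rcases hf with rfl | ⟨f, hfX, hfφ⟩
  · -- first move
    obtain ⟨φ', hφ'⟩ := exists_fresh_emb (V := V) (insert x ∅ ∪ Y)
    have hJne : 0 < Fintype.card J := by
      rw [Finset.card_empty] at hXm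
      exact hXm
    obtain ⟨j⟩ := Fintype.card_pos_iff.1 hJne
    obtain ⟨v, hv⟩ : (S.E j).Nonempty := by
      rw [← Finset.card_pos, hS.hEc]
      omega
    have hvm : φ' v ∈ (S.E j).map φ' := (Finset.mem_map' φ').2 hv
    have hn1 : (S.E j).map φ' ∉ insert x (∅ : Finset (Finset ℕ)) := fun h =>
      hφ' v _ (mem_union_left _ h) hvm
    have hn2 : (S.E j).map φ' ∉ Y := fun h => hφ' v _ (mem_union_right _ h) hvm
    refine ⟨(S.E j).map φ', ?_, hn1, hn2, ?_⟩
    · rw [Finset.card_map, hS.hEc]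
    · refine fin1 (J0 := {j}) (φ := φ') (f := x) ?_ ?_ ?_ ?_ ?_ (mem_insert_self _ _) ?_
      · intro y hy hy'
        rcases mem_insert.1 hy' with rfl | h
        · exact hn1 hy
        · exact hdisj' y hy h
      · rw [hXc']
        omega
      · rw [hXc', Finset.card_insert_of_notMem hn2]
        omega
      · rw [hXc', Finset.card_singleton, Finset.card_empty]
      · intro i hi
        rw [mem_singleton] at hi
        rw [hi]
        exact mem_insert_self _ _
      · intro v
        exact hφ' v x (mem_union_left _ (mem_insert_self _ _))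
  · -- later moves
    obtain ⟨j, hj⟩ : ∃ j, j ∉ J0 := by
      by_contra hcon
      push Not at hcon
      have : J0 = univ := Finset.eq_univ_iff_forall.2 hcon
      rw [this, Finset.card_univ] at hJ0
      omega
    set U : Finset (Finset V) := univ.filter (fun e => e.map φ ∈ insert x X ∪ Y) with hU
    have hUc : U.card ≤ 2 * Fintype.card J := by
      have h1 : (U.image (Finset.map φ)).card = U.card :=
        Finset.card_image_of_injective _ (Finset.map_injective φ)
      have h2 : U.image (Finset.map φ) ⊆ insert x X ∪ Y := by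
        intro y hy
        obtain ⟨e, he, rfl⟩ := mem_image.1 hy
        rw [hU, mem_filter] at he
        exact he.2
      have h3 := Finset.card_le_card h2
      have h4 := Finset.card_union_le (insert x X) Y
      omega
    obtain ⟨π, hπ, hπj⟩ := hS.hflex j U hUc
    have hy : (S.E j).map (π.toEmbedding.trans φ) ∉ insert x X ∪ Y := by
      rw [← Finset.map_map]
      intro h
      apply hπj
      rw [hU, mem_filter]
      exact ⟨mem_univ _, h⟩
    rw [mem_union, not_or] at hy
    refine ⟨(S.E j).map (π.toEmbedding.trans φ), ?_, hy.1, hy.2, ?_⟩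
    · rw [Finset.card_map, hS.hEc]
    · refine fin1 (J0 := insert j J0) (φ := π.toEmbedding.trans φ) (f := f) ?_ ?_ ?_ ?_ ?_
        (mem_insert_of_mem hfX) ?_
      · intro y hy2 hy'
        rcases mem_insert.1 hy' with rfl | h
        · exact hy.1 hy2
        · exact hdisj' y hy2 h
      · rw [hXc']
        omega
      · rw [hXc', Finset.card_insert_of_notMem hy.2]
        omega
      · rw [hXc', Finset.card_insert_of_notMem hj, hJ0]
      · intro i hi
        rcases mem_insert.1 hi with rfl | h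
        · exact mem_insert_self _ _
        · have hij : i ≠ j := by
            rintro rfl
            exact hj h
          refine mem_insert_of_mem ?_
          rw [← Finset.map_map, hπ i hij]
          exact hJ i h
      · intro v
        exact hfφ (π v)

/-- aligned cores avoid `f` -/
theorem Good.aligned_avoid (hS : S.Good) {φ ψ : V ↪ ℕ} {f : Finset ℕ} (hf : ∀ v, φ v ∉ f)
    {B B' : Finset V} (hB : B ∈ S.G) (h : B.map ψ = B'.map φ) : f ∉ S.CI ψ := by
  intro hfC
  obtain ⟨j, rfl⟩ := mem_CI.1 hfC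
  obtain ⟨v, hv, hv'⟩ := hS.hmeet j B hB
  have h1 : ψ v ∈ B.map ψ := (Finset.mem_map' ψ).2 hv'
  rw [h] at h1
  obtain ⟨u, _, hu⟩ := Finset.mem_map.1 h1
  apply hf u
  rw [hu]
  exact (Finset.mem_map' ψ).2 hv

theorem Good.r_ne_g (hS : S.Good) (ψ : V ↪ ℕ) :
    insert (ψ S.z) (S.Sr.map ψ) ≠ insert (ψ S.z) (S.Sg.map ψ) := by
  intro h
  apply hS.Sr_ne_Sg ψ
  have h1 : ψ S.z ∉ S.Sr.map ψ := by
    rw [Finset.mem_map']
    exact hS.hGz _ Sr_mem_G
  have h2 : ψ S.z ∉ S.Sg.map ψ := by
    rw [Finset.mem_map']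
    exact hS.hGz _ Sg_mem_G
  have : (insert (ψ S.z) (S.Sr.map ψ)).erase (ψ S.z) =
      (insert (ψ S.z) (S.Sg.map ψ)).erase (ψ S.z) := by rw [h]
  rwa [Finset.erase_insert h1, Finset.erase_insert h2] at this

theorem Good.step_2 (hS : S.Good) {X Y : Finset (Finset ℕ)} (h2 : S.St2 X Y) {x : Finset ℕ}
    (hxX : x ∉ X) (hxY : x ∉ Y) : S.Step X Y x := by
  classical
  obtain ⟨hXm, φ, f, hc⟩ := h2
  have hd := hS.hd
  have hdisj' : ∀ y ∈ insert x X, y ∉ Y := by
    intro y hy
    rcases mem_insert.1 hy with rfl | h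
    · exact hxY
    · exact hc.disj y h
  have hXc' : (insert x X).card = Fintype.card J + 1 := by
    rw [Finset.card_insert_of_notMem hxX, hXm]
  refine ⟨?_, ?_⟩
  · intro hcopy
    exfalso
    refine hS.no_copy' ?_ hcopy
    omega
  by_cases ha : ∃ ψ : V ↪ ℕ, S.Live Y ψ ∧ insert x X ⊆ S.HI ψ
  · obtain ⟨ψ, hψ, hXψ⟩ := ha
    by_cases hb : S.CI ψ ⊆ insert x X
    · -- kill
      have hsd : (insert x X \ S.CI ψ).card = 1 := by
        rw [Finset.card_sdiff_of_subset hb, hXc', hS.card_CI]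
        omega
      obtain ⟨x', hx'⟩ := Finset.card_eq_one.1 hsd
      have huniq : ∀ y ∈ insert x X, y ∉ S.CI ψ → y = x' := by
        intro y hy hy'
        have : y ∈ insert x X \ S.CI ψ := mem_sdiff.2 ⟨hy, hy'⟩
        rw [hx', mem_singleton] at this
        exact this
      have hrn : insert (ψ S.z) (S.Sr.map ψ) ∉ S.CI ψ := fun h =>
        hS.z_notin_CI h (mem_insert_self _ _)
      have hgn : insert (ψ S.z) (S.Sg.map ψ) ∉ S.CI ψ := fun h =>
        hS.z_notin_CI h (mem_insert_self _ _)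
      obtain ⟨y, hyrg, hyX⟩ : ∃ y, (y = insert (ψ S.z) (S.Sr.map ψ) ∨
          y = insert (ψ S.z) (S.Sg.map ψ)) ∧ y ∉ insert x X := by
        by_contra hcon
        push Not at hcon
        have h3 := hcon _ (Or.inl rfl)
        have h4 := hcon _ (Or.inr rfl)
        apply hS.r_ne_g ψ
        rw [huniq _ h3 hrn, huniq _ h4 hgn]
      have hyH : y ∈ S.HI ψ := by
        rcases hyrg with rfl | rfl
        · exact r_mem_HI ψ
        · exact g_mem_HI ψ
      refine ⟨y, hS.card_of_mem_HI hyH, hyX, hψ y hyH, ?_⟩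
      refine Or.inr (Or.inr (Or.inl ?_))
      refine ⟨φ, f, ⟨?_, hc.core.trans (subset_insert _ _), mem_insert_of_mem hc.fX, hc.fφ⟩,
        ψ, hb, ?_⟩
      · intro y' hy' hyy
        rcases mem_insert.1 hyy with rfl | h
        · exact hyX hy'
        · exact hdisj' y' hy' h
      · intro y' hy' hyn
        refine ⟨ψ, rfl, hXψ hy', ?_, ?_⟩
        · intro y'' hy'' hz
          have h5 : y'' ∉ S.CI ψ := fun h => hS.z_notin_CI h hz
          rw [huniq y'' hy'' h5, huniq y' hy' hyn]
        · rcases hyrg with rfl | rfl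
          · exact Or.inl (mem_insert_self _ _)
          · exact Or.inr (mem_insert_self _ _)
    · -- block the core
      obtain ⟨b, hbC, hbX⟩ := Finset.not_subset.1 hb
      have hbH : b ∈ S.HI ψ := CI_sub_HI ψ hbC
      refine ⟨b, hS.card_of_mem_HI hbH, hbX, hψ b hbH, ?_⟩
      refine Or.inr (Or.inr (Or.inr (Or.inl ?_)))
      refine ⟨φ, f, ⟨?_, hc.core.trans (subset_insert _ _), mem_insert_of_mem hc.fX, hc.fφ⟩,
        hXc', ψ, hXψ, b, hbC, mem_insert_self _ _⟩
      intro y' hy' hyy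
      rcases mem_insert.1 hyy with rfl | h
      · exact hbX hy'
      · exact hdisj' y' hy' h
  · push Not at ha
    have hc' : S.Ctx (insert x X) Y φ f := ⟨hdisj', hc.core, mem_insert_of_mem hc.fX, hc.fφ⟩
    suffices hst : ∃ y : Finset ℕ, y.card = S.h + 1 ∧ y ∉ insert x X ∧ y ∉ Y ∧
        S.StP (insert x X) (insert y Y) by
      obtain ⟨y, hy1, hy2, hy3, hy4⟩ := hst
      exact ⟨y, hy1, hy2, hy3, Or.inr (Or.inr (Or.inr (Or.inr (Or.inl hy4))))⟩
    refine hS.start hc' ?_ ?_
    · intro ψ hψ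
      have h1 := ha ψ hψ
      have h3 : (S.HI ψ ∩ insert x X).card < (insert x X).card := by
        apply Finset.card_lt_card
        rw [Finset.ssubset_iff_subset_ne]
        refine ⟨Finset.inter_subset_right, ?_⟩
        intro h
        apply h1
        rw [← h]
        exact Finset.inter_subset_left
      omega
    · have key : ∀ ψ : V ↪ ℕ, S.CI ψ ⊆ insert x X → ∀ B ∈ S.G, ∀ B' : Finset V, B.map ψ = B'.map φ →
          S.CI ψ = (insert x X).erase f := by
        intro ψ hψ B hB B' hBB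
        have hfn := hS.aligned_avoid hc.fφ hB hBB
        apply Finset.eq_of_subset_of_card_le
        · intro y hy
          rw [mem_erase]
          refine ⟨?_, hψ hy⟩
          rintro rfl
          exact hfn hy
        · rw [hS.card_CI, Finset.card_erase_of_mem (mem_insert_of_mem hc.fX), hXc']
          omega
      intro ψ₁ ψ₂ h1 h2 B₁ hB₁ B₂ hB₂ hm₁ hm₂
      rw [key ψ₁ h1 B₁ hB₁ _ hm₁, key ψ₂ h2 B₂ hB₂ _ hm₂]

theorem Good.step_N (hS : S.Good) {X Y : Finset (Finset ℕ)} (hN : S.StN X Y) {x : Finset ℕ}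
    (hxX : x ∉ X) (hxY : x ∉ Y) : S.Step X Y x := by
  classical
  obtain ⟨φ, f, hc, hXm, ψ, hXψ, b, hbC, hbY⟩ := hN
  have hd := hS.hd
  have hdisj' : ∀ y ∈ insert x X, y ∉ Y := by
    intro y hy
    rcases mem_insert.1 hy with rfl | h
    · exact hxY
    · exact hc.disj y h
  have hbX : b ∉ X := fun h => hc.disj b h hbY
  have hlive : ∀ χ, S.Live Y χ → (S.HI χ ∩ X).card < Fintype.card J := by
    intro χ hχ
    by_contra hcon
    push Not at hcon
    have hsub : S.HI χ ∩ X ⊆ S.HI χ ∩ S.HI ψ :=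
      Finset.inter_subset_inter (Finset.Subset.refl _) hXψ
    have hcard := Finset.card_le_card hsub
    rcases hS.hrigid χ ψ (by omega) with h | h
    · apply hχ b _ hbY
      apply CI_sub_HI
      rw [h]
      exact hbC
    · have hsub2 : S.HI χ ∩ X ⊆ S.CI ψ := (hsub.trans h).trans Finset.inter_subset_right
      have heq : S.HI χ ∩ X = S.CI ψ := by
        apply Finset.eq_of_subset_of_card_le hsub2
        rw [hS.card_CI]
        exact hcon
      rw [← heq, mem_inter] at hbC
      exact hbX hbC.2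
  have hlive' : ∀ χ, S.Live Y χ → (S.HI χ ∩ insert x X).card ≤ Fintype.card J := by
    intro χ hχ
    have h1 := hlive χ hχ
    have h2 := card_HI_inter_insert_le (S := S) χ X x
    omega
  refine ⟨?_, ?_⟩
  · intro hcopy
    exfalso
    refine hS.no_copy hdisj' ?_ hcopy
    intro χ hχ
    have := hlive' χ hχ
    omega
  have hc' : S.Ctx (insert x X) Y φ f := ⟨hdisj', hc.core, mem_insert_of_mem hc.fX, hc.fφ⟩
  suffices hst : ∃ y : Finset ℕ, y.card = S.h + 1 ∧ y ∉ insert x X ∧ y ∉ Y ∧
      S.StP (insert x X) (insert y Y) by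
    obtain ⟨y, hy1, hy2, hy3, hy4⟩ := hst
    exact ⟨y, hy1, hy2, hy3, Or.inr (Or.inr (Or.inr (Or.inr (Or.inl hy4))))⟩
  refine hS.start hc' hlive' ?_
  · have hCX : (S.CI ψ ∩ X).card < Fintype.card J := by
      rw [← hS.card_CI ψ]
      apply Finset.card_lt_card
      rw [Finset.ssubset_iff_subset_ne]
      refine ⟨Finset.inter_subset_left, ?_⟩
      intro h
      rw [← h, mem_inter] at hbC
      exact hbX hbC.2
    have key : ∀ χ : V ↪ ℕ, S.CI χ ⊆ insert x X → S.CI χ = insert x (S.CI ψ ∩ X) := by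
      intro χ hχ
      have hcχ := hS.card_CI χ
      have he1 := Finset.pred_card_le_card_erase (s := S.CI χ) (a := x)
      have hsubX : (S.CI χ).erase x ⊆ X := by
        intro y hy
        rw [mem_erase] at hy
        rcases mem_insert.1 (hχ hy.2) with h | h
        · exact absurd h hy.1
        · exact h
      have hsub : (S.CI χ).erase x ⊆ S.HI χ ∩ S.HI ψ := by
        intro y hy
        rw [mem_inter]
        exact ⟨CI_sub_HI χ (mem_of_mem_erase hy), hXψ (hsubX hy)⟩
      have hcard := Finset.card_le_card hsub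
      rcases hS.hrigid χ ψ (by omega) with h | h
      · exfalso
        rw [← h] at hbC
        exact hdisj' b (hχ hbC) hbY
      · have hsub2 : (S.CI χ).erase x ⊆ S.CI ψ ∩ X := by
          intro y hy
          rw [mem_inter]
          exact ⟨(mem_inter.1 (h (hsub hy))).2, hsubX hy⟩
        have heq : (S.CI χ).erase x = S.CI ψ ∩ X := by
          apply Finset.eq_of_subset_of_card_le hsub2
          omega
        have hx : x ∈ S.CI χ := by
          by_contra hx
          rw [Finset.erase_eq_of_notMem hx] at heq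
          rw [← heq, hcχ] at hCX
          exact lt_irrefl _ hCX
        rw [← heq, Finset.insert_erase hx]
    intro ψ₁ ψ₂ h1 h2 _ _ _ _ _ _
    rw [key ψ₁ h1, key ψ₂ h2]

end Sys

end Pool.Agent.Y418
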