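import Pool.Agent.Y418.Sys

set_option autoImplicit false
set_option linter.unusedSectionVars false

namespace Pool.Agent.Y418

open Finset

namespace Conc

variable {I J : Type} [Fintype J] [DecidableEq J]

/-- base points -/
abbrev Bs (s : J → ℕ) (M : ℕ) : Type := (Σ l : J, Fin (s l) × Bool) ⊕ Fin M

/-- vertices -/
abbrev Vx (s : J → ℕ) (M : ℕ) : Type := (Bs s M × Bool) ⊕ Bool

instance instDecVx (s : J → ℕ) (M : ℕ) : DecidableEq (Vx s M) := inferInstance

/-- a function on the base points given by block types and values on the last block -/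
def Fn {s : J → ℕ} {M : ℕ} (τ : J → Bool → Bool) (μ : Fin M → Bool) : Bs s M → Bool
  | Sum.inl ⟨l, _, b⟩ => τ l b
  | Sum.inr t => μ t

/-- graph of a function -/
def gr {s : J → ℕ} {M : ℕ} (f : Bs s M → Bool) : Finset (Vx s M) :=
  univ.image (fun v => Sum.inl (v, f v))

theorem mem_gr_inl {s : J → ℕ} {M : ℕ} {f : Bs s M → Bool} {v : Bs s M} {σ : Bool} :
    (Sum.inl (v, σ) : Vx s M) ∈ gr f ↔ f v = σ := by
  rw [gr, mem_image]
  constructor
  · rintro ⟨v', _, h⟩
    have := Sum.inl.inj h
    rw [Prod.mk.injEq] at this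
    rw [← this.1, ← this.2]
  · rintro rfl
    exact ⟨v, mem_univ _, rfl⟩

theorem not_mem_gr_inr {s : J → ℕ} {M : ℕ} {f : Bs s M → Bool} {c : Bool} :
    (Sum.inr c : Vx s M) ∉ gr f := by
  rw [gr, mem_image]
  rintro ⟨v', _, h⟩
  exact absurd h (by simp)

theorem card_gr {s : J → ℕ} {M : ℕ} (f : Bs s M → Bool) :
    (gr f).card = Fintype.card (Bs s M) := by
  rw [gr, Finset.card_image_of_injective, Finset.card_univ]
  intro a b hab
  have := Sum.inl.inj hab
  rw [Prod.mk.injEq] at this
  exact this.1

theorem gr_inj {s : J → ℕ} {M : ℕ} {f f' : Bs s M → Bool} (h : gr f = gr f') : f = f' := by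
  funext v
  have : (Sum.inl (v, f v) : Vx s M) ∈ gr f' := by
    rw [← h, mem_gr_inl]
  rw [mem_gr_inl] at this
  exact this.symm

/-- the extra point -/
theorem card_inter {s : J → ℕ} {M : ℕ} (f f' : Bs s M → Bool) (c c' : Bool) :
    ((insert (Sum.inr c) (gr f)) ∩ (insert (Sum.inr c') (gr f'))).card =
      (if c = c' then 1 else 0) + (univ.filter (fun v => f v = f' v)).card := by
  have h1 : (gr f ∩ gr f').card = (univ.filter (fun v => f v = f' v)).card := by
    have : gr f ∩ gr f' = (univ.filter (fun v => f v = f' v)).image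
        (fun v => (Sum.inl (v, f v) : Vx s M)) := by
      ext p
      rw [mem_inter, mem_image]
      constructor
      · rintro ⟨h1, h2⟩
        rcases p with ⟨v, σ⟩ | c
        · rw [mem_gr_inl] at h1 h2
          refine ⟨v, ?_, by rw [h1]⟩
          rw [mem_filter]
          exact ⟨mem_univ _, by rw [h1, h2]⟩
        · exact absurd h1 not_mem_gr_inr
      · rintro ⟨v, hv, rfl⟩
        rw [mem_filter] at hv
        rw [mem_gr_inl, mem_gr_inl]
        exact ⟨rfl, hv.2.symm⟩
    rw [this, Finset.card_image_of_injective]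
    intro a b hab
    have := Sum.inl.inj hab
    rw [Prod.mk.injEq] at this
    exact this.1
  by_cases hc : c = c'
  · subst hc
    have : (insert (Sum.inr c) (gr f)) ∩ (insert (Sum.inr c) (gr f')) =
        insert (Sum.inr c) (gr f ∩ gr f') := by
      rw [Finset.insert_inter_distrib]
    rw [this, Finset.card_insert_of_notMem, h1, if_pos rfl, Nat.add_comm]
    rw [mem_inter]
    exact fun h => not_mem_gr_inr h.1
  · have : (insert (Sum.inr c) (gr f)) ∩ (insert (Sum.inr c') (gr f')) = gr f ∩ gr f' := by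
      ext p
      rw [mem_inter, mem_insert, mem_insert, mem_inter]
      constructor
      · rintro ⟨h1 | h1, h2 | h2⟩
        · exfalso
          rw [h1] at h2
          exact hc (Sum.inr.inj h2)
        · rw [h1] at h2
          exact absurd h2 not_mem_gr_inr
        · rw [h2] at h1
          exact absurd h1 not_mem_gr_inr
        · exact ⟨h1, h2⟩
      · rintro ⟨h1, h2⟩
        exact ⟨Or.inr h1, Or.inr h2⟩
    rw [this, h1, if_neg hc, Nat.zero_add]

/-- agreement of block types -/
def cv (τ τ' : J → Bool → Bool) (l : J) : ℕ := (univ.filter (fun b => τ l b = τ' l b)).card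

theorem cv_le (τ τ' : J → Bool → Bool) (l : J) : cv τ τ' l ≤ 2 := by
  have := Finset.card_le_univ (univ.filter (fun b => τ l b = τ' l b))
  simpa [cv] using this

theorem card_agree {s : J → ℕ} {M : ℕ} (τ τ' : J → Bool → Bool) (μ μ' : Fin M → Bool) :
    (univ.filter (fun v : Bs s M => Fn τ μ v = Fn τ' μ' v)).card =
      (∑ l, s l * cv τ τ' l) + (univ.filter (fun t => μ t = μ' t)).card := by
  rw [Finset.card_filter, Fintype.sum_sum_type, Finset.card_filter]
  congr 1
  rw [Fintype.sum_sigma]
  apply Finset.sum_congr rfl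
  intro l _
  rw [Fintype.sum_prod_type]
  have : ∀ x : Fin (s l), (∑ b : Bool, if Fn (s := s) (M := M) τ μ (Sum.inl ⟨l, x, b⟩) =
      Fn (s := s) (M := M) τ' μ' (Sum.inl ⟨l, x, b⟩) then 1 else 0) = cv τ τ' l := by
    intro x
    rw [cv, Finset.card_filter]
    rfl
  simp only [this]
  rw [Finset.sum_const, Finset.card_univ, Fintype.card_fin, smul_eq_mul]

end Conc

end Pool.Agent.Y418
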