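import Pool.Agent.Y418.Conc

set_option autoImplicit false
set_option linter.unusedSectionVars false

namespace Pool.Agent.Y418

open Finset

namespace Conc

/-- parameters of the construction -/
structure Par (I J : Type) [Fintype J] [DecidableEq J] where
  d : ℕ
  M : ℕ
  row : J → I
  i0 : I
  i1 : I
  γ : Option J → I → Bool
  s : J → ℕ
  T0 : Finset (Fin M)
  hd : 3 ≤ d
  hM : 2 * d ≤ M
  hT0 : T0.card = d - 2
  hrow : ∀ (i : I) (Z : Finset J), Z.card ≤ d + 3 → ∃ j, j ∉ Z ∧ row j = i
  hγ : Function.Injective γ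
  hγ0 : ∀ o, γ o i0 = false
  hγ1 : ∀ o, γ o i1 = true
  hs : ∀ l, 2 * Fintype.card J < s l
  huniq : ∀ c c' : J → ℕ, (∀ l, c l ≤ 2) → (∀ l, c' l ≤ 2) → ∀ a a' : ℕ, a ≤ M + 1 →
    a' ≤ M + 1 → a + ∑ l, s l * c l = a' + ∑ l, s l * c' l → a = a' ∧ c = c'

/-- names of the edges -/
inductive Ix (J : Type) (M : ℕ) : Type
  | c (j : J) : Ix J M
  | r : Ix J M
  | g : Ix J M
  | a (t : Fin M) : Ix J M

namespace Par

variable {I J : Type} [Fintype J] [DecidableEq J] (P : Par I J)

def τx : Ix J P.M → J → Bool → Bool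
  | Ix.c j => fun l b => if l = j then b else P.γ (some l) (P.row j)
  | Ix.r => fun _ b => b
  | Ix.g => fun _ b => !b
  | Ix.a _ => fun _ b => b

def μx : Ix J P.M → Fin P.M → Bool
  | Ix.c j => fun _ => P.γ none (P.row j)
  | Ix.r => fun _ => true
  | Ix.g => fun _ => false
  | Ix.a t => fun t' => decide (t' = t)

def sp : Ix J P.M → Bool
  | Ix.c _ => false
  | Ix.r => true
  | Ix.g => true
  | Ix.a _ => true

def fn (x : Ix J P.M) : Bs P.s P.M → Bool := Fn (P.τx x) (P.μx x)

def ed (x : Ix J P.M) : Finset (Vx P.s P.M) := insert (Sum.inr (P.sp x)) (gr (P.fn x))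

def low (x y : Ix J P.M) : ℕ :=
  (if P.sp x = P.sp y then 1 else 0) + (univ.filter (fun t => P.μx x t = P.μx y t)).card

theorem low_le (x y : Ix J P.M) : P.low x y ≤ P.M + 1 := by
  have h1 := Finset.card_le_univ (univ.filter (fun t => P.μx x t = P.μx y t))
  rw [Fintype.card_fin] at h1
  unfold low
  split_ifs <;> omega

theorem card_ed_inter (x y : Ix J P.M) :
    (P.ed x ∩ P.ed y).card = P.low x y + ∑ l, P.s l * cv (P.τx x) (P.τx y) l := by
  rw [ed, ed, card_inter, fn, fn, card_agree, low]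
  omega

theorem key {x y x' y' : Ix J P.M} (h : (P.ed x ∩ P.ed y).card = (P.ed x' ∩ P.ed y').card)
    (l : J) : cv (P.τx x) (P.τx y) l = cv (P.τx x') (P.τx y') l := by
  rw [card_ed_inter, card_ed_inter] at h
  have h1 := (P.huniq _ _ (fun l => cv_le _ _ l) (fun l => cv_le _ _ l) _ _ (P.low_le x y)
    (P.low_le x' y') h).2
  exact congrFun h1 l

theorem cv_cc {i j : J} (hij : i ≠ j) (l : J) :
    cv (P.τx (Ix.c i)) (P.τx (Ix.c j)) l = 1 ↔ (l = i ∨ l = j) := by
  unfold cv τx
  by_cases h1 : l = i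
  · subst h1
    have h2 : ¬ l = j := hij
    simp only [h2, true_or, iff_true, if_true, if_false]
    cases P.γ (some l) (P.row j) <;> decide
  · by_cases h2 : l = j
    · subst h2
      simp only [h1, or_true, iff_true, if_true, if_false]
      cases P.γ (some l) (P.row i) <;> decide
    · simp only [h1, h2, or_self, iff_false, if_false]
      cases P.γ (some l) (P.row i) <;> cases P.γ (some l) (P.row j) <;> decide

theorem cv_cn {i : J} {y : Ix J P.M} (hy : P.sp y = true) (l : J) :
    cv (P.τx (Ix.c i)) (P.τx y) l = 1 ↔ l ≠ i := by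
  cases y with
  | c j => exact absurd hy (by simp [sp])
  | r =>
    unfold cv τx
    by_cases h1 : l = i
    · simp [h1]
    · simp only [h1, if_false, ne_eq, not_false_eq_true, iff_true]
      cases P.γ (some l) (P.row i) <;> rfl
  | g =>
    unfold cv τx
    by_cases h1 : l = i
    · simp [h1]
    · simp only [h1, if_false, ne_eq, not_false_eq_true, iff_true]
      cases P.γ (some l) (P.row i) <;> rfl
  | a t =>
    unfold cv τx
    by_cases h1 : l = i
    · simp [h1]
    · simp only [h1, if_false, ne_eq, not_false_eq_true, iff_true]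
      cases P.γ (some l) (P.row i) <;> rfl

theorem cv_nn {x y : Ix J P.M} (hx : P.sp x = true) (hy : P.sp y = true) (l : J) :
    cv (P.τx x) (P.τx y) l ≠ 1 := by
  cases x <;> cases y <;> simp [sp] at hx hy <;> unfold cv τx <;> simp

theorem cv_comm (x y : Ix J P.M) (l : J) :
    cv (P.τx x) (P.τx y) l = cv (P.τx y) (P.τx x) l := by
  unfold cv
  congr 1
  apply Finset.filter_congr
  intro b _
  exact eq_comm

theorem cv_g {i : J} {x : Ix J P.M} (hx : P.sp x = true) :
    cv (P.τx (Ix.c i)) (P.τx x) i = 0 ↔ x = Ix.g := by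
  cases x with
  | c j => exact absurd hx (by simp [sp])
  | r =>
    unfold cv τx
    simp
  | g =>
    unfold cv τx
    simp
  | a t =>
    unfold cv τx
    simp

end Par

end Conc

end Pool.Agent.Y418
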