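import Pool.Agent.Y418.Conc2

set_option autoImplicit false
set_option linter.unusedSectionVars false

namespace Pool.Agent.Y418

open Finset

namespace Conc

namespace Par

variable {I J : Type} [Fintype J] [DecidableEq J] {P : Par I J}

theorem mem_ed_inl {x : Ix J P.M} {v : Bs P.s P.M} {σ : Bool} :
    (Sum.inl (v, σ) : Vx P.s P.M) ∈ P.ed x ↔ P.fn x v = σ := by
  rw [ed, mem_insert, mem_gr_inl]
  constructor
  · rintro (h | h)
    · exact absurd h (by simp)
    · exact h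
  · exact fun h => Or.inr h

theorem mem_ed_inr {x : Ix J P.M} {c : Bool} :
    (Sum.inr c : Vx P.s P.M) ∈ P.ed x ↔ c = P.sp x := by
  rw [ed, mem_insert]
  constructor
  · rintro (h | h)
    · exact Sum.inr.inj h
    · exact absurd h not_mem_gr_inr
  · rintro rfl
    exact Or.inl rfl

theorem inter_eq {ψ ψ' : Vx P.s P.M ↪ ℕ} {x y x' y' : Ix J P.M}
    (hx : (P.ed x).map ψ = (P.ed x').map ψ') (hy : (P.ed y).map ψ = (P.ed y').map ψ') :
    (P.ed x ∩ P.ed y).card = (P.ed x' ∩ P.ed y').card := by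
  rw [← Finset.card_map ψ, Finset.map_inter, hx, hy, ← Finset.map_inter, Finset.card_map]

theorem cv_self (x : Ix J P.M) (l : J) : cv (P.τx x) (P.τx x) l = 2 := by
  unfold cv
  simp

theorem ed_c_inj {i j : J} (h : P.ed (Ix.c i) = P.ed (Ix.c j)) : i = j := by
  by_contra hij
  have h1 : (P.ed (Ix.c i) ∩ P.ed (Ix.c j)).card = (P.ed (Ix.c i) ∩ P.ed (Ix.c i)).card := by
    rw [← h]
  have h2 := P.key h1 i
  have h3 := (P.cv_cc hij i).2 (Or.inl rfl)
  rw [h3, cv_self] at h2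
  omega

theorem exists_off (P : Par I J) (i j k : J) : ∃ l, l ≠ i ∧ l ≠ j ∧ l ≠ k := by
  obtain ⟨l, hl, _⟩ := P.hrow P.i0 {i, j, k} (Finset.card_le_three.trans (by
    have := P.hd
    omega))
  simp only [mem_insert, mem_singleton, not_or] at hl
  exact ⟨l, hl⟩

theorem R1 {ψ ψ' : Vx P.s P.M ↪ ℕ} {i j : J} (hij : i ≠ j) {x' y' : Ix J P.M}
    (hx : (P.ed (Ix.c i)).map ψ = (P.ed x').map ψ')
    (hy : (P.ed (Ix.c j)).map ψ = (P.ed y').map ψ') : x' = Ix.c i ∨ x' = Ix.c j := by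
  have hkey := fun l => P.key (inter_eq hx hy) l
  have hi := (P.cv_cc hij i).2 (Or.inl rfl)
  by_cases hsx : P.sp x' = true
  · exfalso
    by_cases hsy : P.sp y' = true
    · exact P.cv_nn hsx hsy i (by rw [← hkey, hi])
    · cases y' with
      | c k =>
        obtain ⟨l, h1, h2, h3⟩ := exists_off P i j k
        have h4 : cv (P.τx x') (P.τx (Ix.c k)) l = 1 := by
          rw [P.cv_comm]
          exact (P.cv_cn hsx l).2 h3
        rw [← hkey, P.cv_cc hij] at h4
        rcases h4 with h | h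
        · exact h1 h
        · exact h2 h
      | r => exact hsy rfl
      | g => exact hsy rfl
      | a t => exact hsy rfl
  · cases x' with
    | c k =>
      by_cases hsy : P.sp y' = true
      · exfalso
        obtain ⟨l, h1, h2, h3⟩ := exists_off P i j k
        have h4 : cv (P.τx (Ix.c k)) (P.τx y') l = 1 := (P.cv_cn hsy l).2 h3
        rw [← hkey, P.cv_cc hij] at h4
        rcases h4 with h | h
        · exact h1 h
        · exact h2 h
      · cases y' with
        | c l =>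
          have hkl : k ≠ l := by
            rintro rfl
            apply hij
            apply ed_c_inj (P := P)
            apply Finset.map_injective ψ
            rw [hx, hy]
          have h4 := (P.cv_cc hkl k).2 (Or.inl rfl)
          rw [← hkey, P.cv_cc hij] at h4
          rcases h4 with h | h
          · left
            rw [h]
          · right
            rw [h]
        | r => exact absurd rfl hsy
        | g => exact absurd rfl hsy
        | a t => exact absurd rfl hsy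
    | r => exact absurd rfl hsx
    | g => exact absurd rfl hsx
    | a t => exact absurd rfl hsx

theorem fix {ψ ψ' : Vx P.s P.M ↪ ℕ} {D : Finset J}
    (hD : ∀ i ∈ D, ∃ x', (P.ed (Ix.c i)).map ψ = (P.ed x').map ψ') (h3 : 3 ≤ D.card) :
    ∀ i ∈ D, (P.ed (Ix.c i)).map ψ = (P.ed (Ix.c i)).map ψ' := by
  intro i hi
  have h2 : 1 < (D.erase i).card := by
    rw [Finset.card_erase_of_mem hi]
    omega
  obtain ⟨j, hj, k, hk, hjk⟩ := Finset.one_lt_card.1 h2
  rw [mem_erase] at hj hk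
  obtain ⟨x', hx'⟩ := hD i hi
  obtain ⟨y', hy'⟩ := hD j hj.2
  obtain ⟨z', hz'⟩ := hD k hk.2
  rcases R1 (Ne.symm hj.1) hx' hy' with h | h
  · rw [h] at hx'
    exact hx'
  · rcases R1 (Ne.symm hk.1) hx' hz' with h' | h'
    · rw [h'] at hx'
      exact hx'
    · rw [h] at h'
      exact absurd (Ix.c.inj h') hjk

theorem R2 {ψ ψ' : Vx P.s P.M ↪ ℕ} {i : J}
    (hi : (P.ed (Ix.c i)).map ψ = (P.ed (Ix.c i)).map ψ') {x x' : Ix J P.M}
    (hx : P.sp x = true) (hxx : (P.ed x).map ψ = (P.ed x').map ψ') :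
    P.sp x' = true ∧ (x = Ix.g ↔ x' = Ix.g) := by
  have hkey := fun l => P.key (inter_eq hi hxx) l
  by_cases hsx : P.sp x' = true
  · refine ⟨hsx, ?_⟩
    rw [← P.cv_g (i := i) hx, ← P.cv_g (i := i) hsx, hkey]
  · exfalso
    cases x' with
    | c k =>
      by_cases hki : k = i
      · subst hki
        rw [← hi] at hxx
        have h1 := Finset.map_injective ψ hxx
        have h2 : (Sum.inr true : Vx P.s P.M) ∈ P.ed x := mem_ed_inr.2 hx.symm
        rw [h1, mem_ed_inr] at h2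
        exact absurd h2 (by simp [sp])
      · have h1 := hkey i
        rw [(P.cv_cc (Ne.symm hki) i).2 (Or.inl rfl)] at h1
        exact (P.cv_cn hx i).1 h1 rfl
    | r => exact hsx rfl
    | g => exact hsx rfl
    | a t => exact hsx rfl

/-- block of a base point -/
def oo {s : J → ℕ} {M : ℕ} : Bs s M → Option J
  | Sum.inl ⟨l, _, _⟩ => some l
  | Sum.inr _ => none

/-- bit of a base point -/
def bb {s : J → ℕ} {M : ℕ} : Bs s M → Bool
  | Sum.inl ⟨_, _, b⟩ => b
  | Sum.inr _ => true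

theorem fn_c_other {j : J} {v : Bs P.s P.M} (h : oo v ≠ some j) :
    P.fn (Ix.c j) v = P.γ (oo v) (P.row j) := by
  rcases v with ⟨l, x, b⟩ | t
  · have h' : l ≠ j := fun h' => h (congrArg some h')
    simp only [fn, Fn, τx, oo, if_neg h']
  · rfl

theorem fn_c_self {j : J} {v : Bs P.s P.M} (h : oo v = some j) :
    P.fn (Ix.c j) v = bb v := by
  rcases v with ⟨l, x, b⟩ | t
  · have h' : l = j := Option.some.inj h
    simp only [fn, Fn, τx, bb, if_pos h']
  · exact absurd h (by simp [oo])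

theorem fn_c_atom {j : J} {v v' : Bs P.s P.M} (h : oo v = oo v') (h' : bb v = bb v') :
    P.fn (Ix.c j) v = P.fn (Ix.c j) v' := by
  by_cases hj : oo v = some j
  · rw [fn_c_self hj, fn_c_self (h ▸ hj), h']
  · rw [fn_c_other hj, fn_c_other (h ▸ hj), h]

theorem fn_r (v : Bs P.s P.M) : P.fn Ix.r v = bb v := by
  rcases v with ⟨l, x, b⟩ | t
  · rfl
  · rfl

theorem fn_g (v : Bs P.s P.M) : P.fn Ix.g v = !(bb v) := by
  rcases v with ⟨l, x, b⟩ | t
  · rfl
  · rfl

theorem fn_a (t : Fin P.M) {v : Bs P.s P.M} (h : oo v ≠ none) : P.fn (Ix.a t) v = bb v := by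
  rcases v with ⟨l, x, b⟩ | t
  · rfl
  · exact absurd rfl h

/-- vertices in the same atom (blocks in `Z` are coarser) -/
def SameAt (P : Par I J) (Z : Finset J) (p p' : Vx P.s P.M) : Prop :=
  (p = Sum.inr false ∧ p' = Sum.inr false) ∨
  ∃ (v v' : Bs P.s P.M) (σ : Bool), p = Sum.inl (v, σ) ∧ p' = Sum.inl (v', σ) ∧
    oo v = oo v' ∧ ∀ j, j ∉ Z → oo v = some j → bb v = bb v'

theorem mem_iff {ψ ψ' : Vx P.s P.M ↪ ℕ} {e e' : Finset (Vx P.s P.M)}
    (hxx : e.map ψ = e'.map ψ') {p p' : Vx P.s P.M}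
    (h : ψ p = ψ' p') : p ∈ e ↔ p' ∈ e' := by
  rw [← Finset.mem_map' ψ, hxx, h, Finset.mem_map']

theorem exists_row (P : Par I J) (i : I) {Z : Finset J} (hZ : Z.card ≤ P.d + 1)
    (o o' : Option J) : ∃ j, j ∉ Z ∧ o ≠ some j ∧ o' ≠ some j ∧ P.row j = i := by
  have hcard : (Z ∪ (o.toFinset ∪ o'.toFinset)).card ≤ P.d + 3 := by
    refine (Finset.card_union_le _ _).trans ?_
    have h1 := Finset.card_union_le o.toFinset o'.toFinset
    have h2 : o.toFinset.card ≤ 1 := by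
      cases o <;> simp
    have h3 : o'.toFinset.card ≤ 1 := by
      cases o' <;> simp
    omega
  obtain ⟨j, hj, hji⟩ := P.hrow i _ hcard
  rw [mem_union, mem_union, not_or, not_or, Option.mem_toFinset, Option.mem_toFinset] at hj
  refine ⟨j, hj.1, ?_, ?_, hji⟩
  · intro h
    exact hj.2.1 (by rw [h]; rfl)
  · intro h
    exact hj.2.2 (by rw [h]; rfl)

theorem atoms {ψ ψ' : Vx P.s P.M ↪ ℕ} {Z : Finset J} (hZ : Z.card ≤ P.d + 1)
    (hC : ∀ j, j ∉ Z → (P.ed (Ix.c j)).map ψ = (P.ed (Ix.c j)).map ψ')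
    {p p' : Vx P.s P.M} (hp : p ≠ Sum.inr true) (hp' : p' ≠ Sum.inr true)
    (h : ψ p = ψ' p') : SameAt P Z p p' := by
  have hmem : ∀ j, j ∉ Z → (p ∈ P.ed (Ix.c j) ↔ p' ∈ P.ed (Ix.c j)) :=
    fun j hj => mem_iff (hC j hj) h
  -- a base point cannot correspond to ω
  have hω : ∀ (q : Vx P.s P.M) (v : Bs P.s P.M) (σ : Bool), q = Sum.inl (v, σ) →
      ∃ j, j ∉ Z ∧ q ∉ P.ed (Ix.c j) := by
    intro q v σ hq
    obtain ⟨j, hj1, hj2, _, hj3⟩ := exists_row P (if σ = true then P.i0 else P.i1) hZ (oo v) none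
    refine ⟨j, hj1, ?_⟩
    rw [hq, mem_ed_inl, fn_c_other hj2, hj3]
    cases σ
    · simp [P.hγ1]
    · simp [P.hγ0]
  have hωmem : ∀ j, (Sum.inr false : Vx P.s P.M) ∈ P.ed (Ix.c j) := fun j => mem_ed_inr.2 rfl
  rcases p with ⟨v, σ⟩ | c
  · rcases p' with ⟨v', σ'⟩ | c'
    · right
      have hpat : ∀ i, (P.γ (oo v) i = σ ↔ P.γ (oo v') i = σ') := by
        intro i
        obtain ⟨j, hj1, hj2, hj3, hj4⟩ := exists_row P i hZ (oo v) (oo v')
        have := hmem j hj1
        rw [mem_ed_inl, mem_ed_inl, fn_c_other hj2, fn_c_other hj3, hj4] at this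
        exact this
      have hσ : σ = σ' := by
        have := hpat P.i0
        rw [P.hγ0, P.hγ0] at this
        cases σ <;> cases σ' <;> simp at this <;> rfl
      subst hσ
      have hoo : oo v = oo v' := by
        apply P.hγ
        funext i
        have := hpat i
        cases h1 : P.γ (oo v) i <;> cases h2 : P.γ (oo v') i <;> cases σ <;>
          simp [h1, h2] at this <;> rfl
      refine ⟨v, v', σ, rfl, rfl, hoo, ?_⟩
      intro j hj hvj
      have := hmem j hj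
      rw [mem_ed_inl, mem_ed_inl, fn_c_self hvj, fn_c_self (hoo ▸ hvj)] at this
      cases h1 : bb v <;> cases h2 : bb v' <;> cases σ <;> simp [h1, h2] at this <;> rfl
    · exfalso
      have hc : c' = false := by
        cases c'
        · rfl
        · exact absurd rfl hp'
      subst hc
      obtain ⟨j, hj1, hj2⟩ := hω _ v σ rfl
      exact hj2 ((hmem j hj1).2 (hωmem j))
  · have hc : c = false := by
      cases c
      · rfl
      · exact absurd rfl hp
    subst hc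
    rcases p' with ⟨v', σ'⟩ | c'
    · exfalso
      obtain ⟨j, hj1, hj2⟩ := hω _ v' σ' rfl
      exact hj2 ((hmem j hj1).1 (hωmem j))
    · left
      refine ⟨rfl, ?_⟩
      cases c'
      · rfl
      · exact absurd rfl hp'

theorem exists_core {Z : Finset J} (hZ : Z.card ≤ P.d + 1) {p : Vx P.s P.M}
    (hp : p ≠ Sum.inr true) : ∃ j, j ∉ Z ∧ p ∈ P.ed (Ix.c j) := by
  rcases p with ⟨v, σ⟩ | c
  · obtain ⟨j, hj1, hj2, _, hj3⟩ := exists_row P (if σ = true then P.i1 else P.i0) hZ (oo v) none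
    refine ⟨j, hj1, ?_⟩
    rw [mem_ed_inl, fn_c_other hj2, hj3]
    cases σ
    · simp [P.hγ0]
    · simp [P.hγ1]
  · have hc : c = false := by
      cases c
      · rfl
      · exact absurd rfl hp
    subst hc
    obtain ⟨j, hj1, _, _, _⟩ := exists_row P P.i0 hZ none none
    exact ⟨j, hj1, mem_ed_inr.2 rfl⟩

theorem exists_partner {ψ ψ' : Vx P.s P.M ↪ ℕ} {Z : Finset J} (hZ : Z.card ≤ P.d + 1)
    (hC : ∀ j, j ∉ Z → (P.ed (Ix.c j)).map ψ = (P.ed (Ix.c j)).map ψ')
    {p : Vx P.s P.M} (hp : p ≠ Sum.inr true) :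
    ∃ p', p' ≠ Sum.inr true ∧ ψ p = ψ' p' := by
  obtain ⟨j, hj, hpj⟩ := exists_core hZ hp
  have h1 : ψ p ∈ (P.ed (Ix.c j)).map ψ := (Finset.mem_map' ψ).2 hpj
  rw [hC j hj] at h1
  obtain ⟨p', hp', hpp⟩ := Finset.mem_map.1 h1
  refine ⟨p', ?_, hpp.symm⟩
  rintro rfl
  rw [mem_ed_inr] at hp'
  exact absurd hp' (by simp [sp])

/-- a shared gadget edge makes all atoms coincide -/
theorem full_of_gadget {ψ ψ' : Vx P.s P.M ↪ ℕ} {Z : Finset J} (hZ : Z.card ≤ P.d + 1)
    (hC : ∀ j, j ∉ Z → (P.ed (Ix.c j)).map ψ = (P.ed (Ix.c j)).map ψ')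
    {x x' : Ix J P.M} (hx : P.sp x = true) (hx' : P.sp x' = true)
    (hg : x = Ix.g ↔ x' = Ix.g) (hxx : (P.ed x).map ψ = (P.ed x').map ψ')
    {p p' : Vx P.s P.M} (hp : p ≠ Sum.inr true) (hp' : p' ≠ Sum.inr true)
    (h : ψ p = ψ' p') : SameAt P ∅ p p' := by
  rcases atoms hZ hC hp hp' h with h1 | ⟨v, v', σ, rfl, rfl, hoo, _⟩
  · exact Or.inl h1
  · right
    refine ⟨v, v', σ, rfl, rfl, hoo, ?_⟩
    intro j _ hvj
    have hmem := mem_iff hxx h
    rw [mem_ed_inl, mem_ed_inl] at hmem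
    have hne : oo v ≠ none := by
      rw [hvj]
      simp
    have hne' : oo v' ≠ none := hoo ▸ hne
    have hval : ∀ (y : Ix J P.M) (u : Bs P.s P.M), P.sp y = true → oo u ≠ none →
        (y = Ix.g → P.fn y u = !(bb u)) ∧ (y ≠ Ix.g → P.fn y u = bb u) := by
      intro y u hy hu
      cases y with
      | c k => exact absurd hy (by simp [sp])
      | r => exact ⟨fun h => absurd h (by simp), fun _ => fn_r u⟩
      | g => exact ⟨fun _ => fn_g u, fun h => absurd rfl h⟩
      | a t => exact ⟨fun h => absurd h (by simp), fun _ => fn_a t hu⟩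
    by_cases hxg : x = Ix.g
    · rw [(hval x v hx hne).1 hxg, (hval x' v' hx' hne').1 (hg.1 hxg)] at hmem
      cases h1 : bb v <;> cases h2 : bb v' <;> cases σ <;> simp [h1, h2] at hmem <;> rfl
    · rw [(hval x v hx hne).2 hxg, (hval x' v' hx' hne').2 (fun h => hxg (hg.2 h))] at hmem
      cases h1 : bb v <;> cases h2 : bb v' <;> cases σ <;> simp [h1, h2] at hmem <;> rfl

theorem map_eq_of_closed {ψ ψ' : Vx P.s P.M ↪ ℕ}
    (hfull : ∀ p p' : Vx P.s P.M, p ≠ Sum.inr true → p' ≠ Sum.inr true → ψ p = ψ' p' →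
      SameAt P ∅ p p')
    (hex : ∀ p : Vx P.s P.M, p ≠ Sum.inr true → ∃ p', p' ≠ Sum.inr true ∧ ψ p = ψ' p')
    {e : Finset (Vx P.s P.M)} (he : (Sum.inr true : Vx P.s P.M) ∉ e)
    (hcl : ∀ p p', SameAt P ∅ p p' → p ∈ e → p' ∈ e) : e.map ψ = e.map ψ' := by
  apply Finset.eq_of_subset_of_card_le
  · intro u hu
    obtain ⟨p, hp, rfl⟩ := Finset.mem_map.1 hu
    have hpz : p ≠ Sum.inr true := by
      rintro rfl
      exact he hp
    obtain ⟨p', hp', hpp⟩ := hex p hpz
    rw [hpp, Finset.mem_map']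
    exact hcl p p' (hfull p p' hpz hp' hpp) hp
  · rw [Finset.card_map, Finset.card_map]

theorem bb_eq_of_same {v v' : Bs P.s P.M} (hoo : oo v = oo v')
    (h : ∀ j, j ∉ (∅ : Finset J) → oo v = some j → bb v = bb v') : bb v = bb v' := by
  cases hv : oo v with
  | some j => exact h j (Finset.notMem_empty _) hv
  | none =>
    rw [hv] at hoo
    rcases v with ⟨l, x, b⟩ | t
    · exact absurd hv (by simp [oo])
    · rcases v' with ⟨l', x', b'⟩ | t'
      · exact absurd hoo (by simp [oo])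
      · rfl

theorem closed_c (j : J) (p p' : Vx P.s P.M) (h : SameAt P ∅ p p')
    (hp : p ∈ P.ed (Ix.c j)) : p' ∈ P.ed (Ix.c j) := by
  rcases h with ⟨rfl, rfl⟩ | ⟨v, v', σ, rfl, rfl, hoo, hbb⟩
  · exact hp
  · rw [mem_ed_inl] at hp ⊢
    rw [← hp]
    exact (fn_c_atom hoo (bb_eq_of_same hoo hbb)).symm

theorem closed_r (p p' : Vx P.s P.M) (h : SameAt P ∅ p p')
    (hp : p ∈ gr (P.fn Ix.r)) : p' ∈ gr (P.fn Ix.r) := by
  rcases h with ⟨rfl, rfl⟩ | ⟨v, v', σ, rfl, rfl, hoo, hbb⟩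
  · exact hp
  · rw [mem_gr_inl, fn_r] at hp ⊢
    rw [← hp]
    exact (bb_eq_of_same hoo hbb).symm

theorem closed_g (p p' : Vx P.s P.M) (h : SameAt P ∅ p p')
    (hp : p ∈ gr (P.fn Ix.g)) : p' ∈ gr (P.fn Ix.g) := by
  rcases h with ⟨rfl, rfl⟩ | ⟨v, v', σ, rfl, rfl, hoo, hbb⟩
  · exact hp
  · rw [mem_gr_inl, fn_g] at hp ⊢
    rw [← hp, bb_eq_of_same hoo hbb]

end Par

end Conc

end Pool.Agent.Y418
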