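import Pool.Agent.Y418.Conc3

set_option autoImplicit false
set_option linter.unusedSectionVars false

namespace Pool.Agent.Y418

open Finset

namespace Conc

namespace Par

variable {I J : Type} [Fintype J] [DecidableEq J]

def sys (P : Par I J) : Sys (Vx P.s P.M) J (Fin P.M) where
  d := P.d
  h := Fintype.card (Bs P.s P.M)
  E := fun j => P.ed (Ix.c j)
  z := Sum.inr true
  Sr := gr (P.fn Ix.r)
  Sg := gr (P.fn Ix.g)
  A := fun t => gr (P.fn (Ix.a t))
  T0 := P.T0

variable {P : Par I J}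

theorem gad {x : Ix J P.M} (hx : P.sp x = true) :
    insert (Sum.inr true) (gr (P.fn x)) = P.ed x := by
  rw [ed, hx]

theorem mem_G {B : Finset (Vx P.s P.M)} (hB : B ∈ P.sys.G) :
    ∃ x : Ix J P.M, P.sp x = true ∧ B = gr (P.fn x) := by
  rw [Sys.G, mem_insert, mem_insert, mem_image] at hB
  rcases hB with rfl | rfl | ⟨t, _, rfl⟩
  · exact ⟨Ix.r, rfl, rfl⟩
  · exact ⟨Ix.g, rfl, rfl⟩
  · exact ⟨Ix.a t, rfl, rfl⟩

theorem mem_GI' {ψ : Vx P.s P.M ↪ ℕ} {y : Finset ℕ} (hy : y ∈ P.sys.GI ψ) :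
    ∃ x : Ix J P.M, P.sp x = true ∧ (P.ed x).map ψ = y := by
  obtain ⟨B, hB, rfl⟩ := Sys.mem_GI.1 hy
  obtain ⟨x, hx, rfl⟩ := mem_G hB
  refine ⟨x, hx, ?_⟩
  rw [← gad hx, Finset.map_insert]
  rfl

theorem mem_HI' {ψ : Vx P.s P.M ↪ ℕ} {y : Finset ℕ} (hy : y ∈ P.sys.HI ψ) :
    ∃ x : Ix J P.M, (P.ed x).map ψ = y := by
  rw [Sys.HI, mem_union] at hy
  rcases hy with h | h
  · obtain ⟨j, hj⟩ := Sys.mem_CI.1 h
    exact ⟨Ix.c j, hj⟩
  · obtain ⟨x, _, hx⟩ := mem_GI' h
    exact ⟨x, hx⟩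

theorem card_J (P : Par I J) : P.d + 4 ≤ Fintype.card J := by
  by_contra h
  obtain ⟨j, hj, _⟩ := P.hrow P.i0 univ (by rw [Finset.card_univ]; omega)
  exact hj (mem_univ _)

theorem card_G (P : Par I J) : P.sys.G.card = P.d := by
  have hM := P.hM
  have hd := P.hd
  have h1 : (P.T0.image P.sys.A).card = P.d - 2 := by
    rw [Finset.card_image_of_injective, P.hT0]
    intro t t' htt
    have h2 := gr_inj htt
    have h3 := congrFun h2 (Sum.inr t)
    have h4 : decide (t = t) = decide (t = t') := h3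
    simp at h4
    exact h4
  have hg : P.sys.Sg ∉ P.T0.image P.sys.A := by
    intro h
    obtain ⟨t, _, ht⟩ := mem_image.1 h
    have h3 := congrFun (gr_inj ht) (Sum.inr t)
    have h4 : decide (t = t) = false := h3
    simp at h4
  have hr : P.sys.Sr ∉ insert P.sys.Sg (P.T0.image P.sys.A) := by
    intro h
    have hpos : 0 < P.M := by omega
    rcases mem_insert.1 h with h | h
    · have h3 := congrFun (gr_inj h) (Sum.inr ⟨0, hpos⟩)
      have h4 : true = false := h3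
      exact absurd h4 (by simp)
    · obtain ⟨t, _, ht⟩ := mem_image.1 h
      obtain ⟨t', ht'⟩ : ∃ t' : Fin P.M, t' ≠ t := by
        by_cases h0 : t = ⟨0, hpos⟩
        · refine ⟨⟨1, by omega⟩, ?_⟩
          rw [h0]
          intro h
          exact absurd (congrArg Fin.val h) (by simp)
        · exact ⟨_, Ne.symm h0⟩
      have h3 := congrFun (gr_inj ht) (Sum.inr t')
      have h4 : decide (t' = t) = true := h3
      simp [ht'] at h4
  have hT : P.sys.T0 = P.T0 := rfl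
  rw [Sys.G, hT, Finset.card_insert_of_notMem hr, Finset.card_insert_of_notMem hg, h1]
  omega

theorem rigid (ψ ψ' : Vx P.s P.M ↪ ℕ)
    (h : Fintype.card J - 1 ≤ (P.sys.HI ψ ∩ P.sys.HI ψ').card) :
    P.sys.CI ψ = P.sys.CI ψ' ∨ P.sys.HI ψ ∩ P.sys.HI ψ' ⊆ P.sys.CI ψ ∩ P.sys.CI ψ' := by
  classical
  have hJ := card_J P
  set D : Finset J := univ.filter (fun j => ∃ x', (P.ed (Ix.c j)).map ψ = (P.ed x').map ψ')
    with hD
  have hsub : P.sys.HI ψ ∩ P.sys.HI ψ' ⊆
      D.image (fun j => (P.ed (Ix.c j)).map ψ) ∪ P.sys.GI ψ := by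
    intro y hy
    rw [mem_inter] at hy
    obtain ⟨h1, h2⟩ := hy
    rw [Sys.HI, mem_union] at h1
    rw [mem_union]
    rcases h1 with h1 | h1
    · left
      obtain ⟨j, hj⟩ := Sys.mem_CI.1 h1
      rw [mem_image]
      refine ⟨j, ?_, hj⟩
      rw [hD, mem_filter]
      obtain ⟨x', hx'⟩ := mem_HI' h2
      refine ⟨mem_univ _, x', ?_⟩
      rw [hx']
      exact hj
    · right
      exact h1
  have hc1 := Finset.card_le_card hsub
  have hc2 := Finset.card_union_le (D.image (fun j => (P.ed (Ix.c j)).map ψ)) (P.sys.GI ψ)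
  have hc3 : (D.image (fun j => (P.ed (Ix.c j)).map ψ)).card ≤ D.card := Finset.card_image_le
  have hc4 : (P.sys.GI ψ).card ≤ P.d := by
    rw [← card_G P, Sys.GI]
    exact Finset.card_image_le
  have hD3 : 3 ≤ D.card := by omega
  have hfix := fix (ψ := ψ) (ψ' := ψ') (D := D)
    (fun i hi => by
      rw [hD, mem_filter] at hi
      exact hi.2) hD3
  set Z : Finset J := univ \ D with hZ
  have hZc : Z.card ≤ P.d + 1 := by
    rw [hZ, Finset.card_sdiff_of_subset (Finset.subset_univ _), Finset.card_univ]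
    omega
  have hC : ∀ j, j ∉ Z → (P.ed (Ix.c j)).map ψ = (P.ed (Ix.c j)).map ψ' := by
    intro j hj
    apply hfix
    by_contra hjD
    apply hj
    rw [hZ, mem_sdiff]
    exact ⟨mem_univ _, hjD⟩
  by_cases hall : P.sys.HI ψ ∩ P.sys.HI ψ' ⊆ P.sys.CI ψ ∩ P.sys.CI ψ'
  · exact Or.inr hall
  · left
    obtain ⟨y, hy, hyn⟩ := Finset.not_subset.1 hall
    rw [mem_inter] at hy
    obtain ⟨x', hx'⟩ := mem_HI' hy.2
    have hyG : y ∈ P.sys.GI ψ := by
      have h1 := hy.1
      rw [Sys.HI, mem_union] at h1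
      rcases h1 with h1 | h1
      · exfalso
        apply hyn
        rw [mem_inter]
        refine ⟨h1, ?_⟩
        obtain ⟨j, hj⟩ := Sys.mem_CI.1 h1
        rw [Sys.mem_CI]
        refine ⟨j, ?_⟩
        rw [← hj]
        refine (hfix j ?_).symm
        rw [hD, mem_filter]
        refine ⟨mem_univ _, x', ?_⟩
        rw [hx']
        exact hj
      · exact h1
    obtain ⟨x, hx, hxy⟩ := mem_GI' hyG
    have hxx : (P.ed x).map ψ = (P.ed x').map ψ' := by rw [hxy, hx']
    obtain ⟨i, hi⟩ : D.Nonempty := by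
      rw [← Finset.card_pos]
      omega
    obtain ⟨hx's, hg⟩ := R2 (hfix i hi) hx hxx
    have hfull := fun p p' hp hp' hpp => full_of_gadget (p := p) (p' := p') hZc hC hx hx's hg hxx
      hp hp' hpp
    have hex := fun p hp => exists_partner (p := p) hZc hC hp
    have hE : ∀ j, (P.ed (Ix.c j)).map ψ = (P.ed (Ix.c j)).map ψ' := by
      intro j
      refine map_eq_of_closed hfull hex ?_ (closed_c j)
      rw [mem_ed_inr]
      simp [sp]
    ext u
    rw [Sys.mem_CI, Sys.mem_CI]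
    constructor
    · rintro ⟨j, hj⟩
      exact ⟨j, by rw [← hj]; exact (hE j).symm⟩
    · rintro ⟨j, hj⟩
      exact ⟨j, by rw [← hj]; exact hE j⟩

theorem core_fix {ψ ψ' : Vx P.s P.M ↪ ℕ} (h : P.sys.CI ψ = P.sys.CI ψ') (j : J) :
    (P.ed (Ix.c j)).map ψ = (P.ed (Ix.c j)).map ψ' := by
  have hJ := card_J P
  have hd := P.hd
  refine fix (D := univ) ?_ ?_ j (mem_univ _)
  · intro i _
    have h1 : (P.ed (Ix.c i)).map ψ ∈ P.sys.CI ψ := Sys.mem_CI.2 ⟨i, rfl⟩
    rw [h] at h1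
    obtain ⟨k, hk⟩ := Sys.mem_CI.1 h1
    exact ⟨Ix.c k, hk.symm⟩
  · rw [Finset.card_univ]
    omega

theorem core_full {ψ ψ' : Vx P.s P.M ↪ ℕ} (h : P.sys.CI ψ = P.sys.CI ψ')
    {p p' : Vx P.s P.M} (hp : p ≠ Sum.inr true) (hp' : p' ≠ Sum.inr true)
    (hpp : ψ p = ψ' p') : SameAt P ∅ p p' := by
  have h0 : (∅ : Finset J).card ≤ P.d + 1 := by
    rw [Finset.card_empty]
    omega
  exact atoms h0 (fun j _ => core_fix h j) hp hp' hpp

theorem core_ex {ψ ψ' : Vx P.s P.M ↪ ℕ} (h : P.sys.CI ψ = P.sys.CI ψ')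
    (p : Vx P.s P.M) (hp : p ≠ Sum.inr true) : ∃ p', p' ≠ Sum.inr true ∧ ψ p = ψ' p' := by
  have h0 : (∅ : Finset J).card ≤ P.d + 1 := by
    rw [Finset.card_empty]
    omega
  exact exists_partner h0 (fun j _ => core_fix h j) hp

theorem A9 (ψ ψ' : Vx P.s P.M ↪ ℕ) (h : P.sys.CI ψ = P.sys.CI ψ') :
    P.sys.Sr.map ψ = P.sys.Sr.map ψ' ∧ P.sys.Sg.map ψ = P.sys.Sg.map ψ' := by
  refine ⟨?_, ?_⟩
  · exact map_eq_of_closed (fun p p' hp hp' hpp => core_full h hp hp' hpp) (core_ex h)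
      not_mem_gr_inr closed_r
  · exact map_eq_of_closed (fun p p' hp hp' hpp => core_full h hp hp' hpp) (core_ex h)
      not_mem_gr_inr closed_g

/-- a generic atom test: if a whole atom meets both traces, the images are not disjoint -/
theorem not_disjoint_of_atom {ψ ψ' : Vx P.s P.M ↪ ℕ} (h : P.sys.CI ψ = P.sys.CI ψ')
    {B₁ B₂ : Finset (Vx P.s P.M)} {v : Bs P.s P.M} {σ : Bool}
    (h1 : (Sum.inl (v, σ) : Vx P.s P.M) ∈ B₁)
    (h2 : ∀ v', oo v = oo v' → bb v = bb v' → (Sum.inl (v', σ) : Vx P.s P.M) ∈ B₂) :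
    ¬ Disjoint (B₁.map ψ) (B₂.map ψ') := by
  intro hdis
  have hne : (Sum.inl (v, σ) : Vx P.s P.M) ≠ Sum.inr true := by simp
  obtain ⟨p', hp', hpp⟩ := core_ex h _ hne
  rcases core_full h hne hp' hpp with ⟨h3, _⟩ | ⟨u, u', σ', h3, h4, hoo, hbb⟩
  · exact absurd h3 (by simp)
  · have h5 := Sum.inl.inj h3
    rw [Prod.mk.injEq] at h5
    obtain ⟨rfl, rfl⟩ := h5
    rw [h4] at hpp
    have h6 : ψ (Sum.inl (v, σ)) ∈ B₁.map ψ := (Finset.mem_map' ψ).2 h1
    have h7 : ψ (Sum.inl (v, σ)) ∈ B₂.map ψ' := by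
      rw [hpp, Finset.mem_map']
      exact h2 u' hoo (bb_eq_of_same hoo hbb)
    exact Finset.disjoint_left.1 hdis h6 h7

theorem A9' (ψ ψ' : Vx P.s P.M ↪ ℕ) (h : P.sys.CI ψ = P.sys.CI ψ') :
    ∀ B₁ ∈ P.sys.G, ∀ B₂ ∈ P.sys.G,
    Disjoint (B₁.map ψ) (B₂.map ψ') → (B₁ = P.sys.Sr ∧ B₂ = P.sys.Sg) ∨
      (B₁ = P.sys.Sg ∧ B₂ = P.sys.Sr) := by
  have hM := P.hM
  have hd := P.hd
  have hJ := card_J P
  -- a block point
  obtain ⟨l⟩ : Nonempty J := by
    rw [← Fintype.card_pos_iff]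
    omega
  have hsl : 0 < P.s l := (Nat.zero_le _).trans_lt (P.hs l)
  let vt : Bs P.s P.M := Sum.inl ⟨l, ⟨0, hsl⟩, true⟩
  have hvt : oo vt = some l := rfl
  have hbt : bb vt = true := rfl
  -- both `r` or `a`
  have hnon : ∀ x y : Ix J P.M, P.sp x = true → P.sp y = true → x ≠ Ix.g → y ≠ Ix.g →
      ∀ χ χ' : Vx P.s P.M ↪ ℕ, P.sys.CI χ = P.sys.CI χ' →
      ¬ Disjoint ((gr (P.fn x)).map χ) ((gr (P.fn y)).map χ') := by
    intro x y hx hy hxg hyg χ χ' hχ
    have hval : ∀ (y : Ix J P.M) (u : Bs P.s P.M), P.sp y = true → y ≠ Ix.g → oo u ≠ none →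
        P.fn y u = bb u := by
      intro y u hy hyg hu
      cases y with
      | c k => exact absurd hy (by simp [sp])
      | r => exact fn_r u
      | g => exact absurd rfl hyg
      | a t => exact fn_a t hu
    refine not_disjoint_of_atom hχ (v := vt) (σ := true) ?_ ?_
    · rw [mem_gr_inl, hval x vt hx hxg (by rw [hvt]; simp), hbt]
    · intro v' hoo hbb
      rw [mem_gr_inl, hval y v' hy hyg (by rw [← hoo, hvt]; simp), ← hbb, hbt]
  have hgg : ∀ χ χ' : Vx P.s P.M ↪ ℕ, P.sys.CI χ = P.sys.CI χ' →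
      ¬ Disjoint ((gr (P.fn Ix.g)).map χ) ((gr (P.fn Ix.g)).map χ') := by
    intro χ χ' hχ
    refine not_disjoint_of_atom hχ (v := vt) (σ := false) ?_ ?_
    · rw [mem_gr_inl, fn_g, hbt]
      rfl
    · intro v' _ hbb
      rw [mem_gr_inl, fn_g, ← hbb, hbt]
      rfl
  have hag : ∀ (t : Fin P.M) (χ χ' : Vx P.s P.M ↪ ℕ), P.sys.CI χ = P.sys.CI χ' →
      ¬ Disjoint ((gr (P.fn (Ix.a t))).map χ) ((gr (P.fn Ix.g)).map χ') := by
    intro t χ χ' hχ
    obtain ⟨t', ht'⟩ : ∃ t' : Fin P.M, t' ≠ t := by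
      by_cases h0 : t = ⟨0, by omega⟩
      · refine ⟨⟨1, by omega⟩, ?_⟩
        rw [h0]
        intro h
        exact absurd (congrArg Fin.val h) (by simp)
      · exact ⟨_, Ne.symm h0⟩
    refine not_disjoint_of_atom hχ (v := Sum.inr t') (σ := false) ?_ ?_
    · rw [mem_gr_inl]
      change decide (t' = t) = false
      simp [ht']
    · intro v' hoo _
      rcases v' with ⟨l', x', b'⟩ | t''
      · exact absurd hoo (by simp [oo])
      · rw [mem_gr_inl]
        rfl
  intro B₁ hB₁ B₂ hB₂ hdis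
  obtain ⟨x, hx, rfl⟩ := mem_G hB₁
  obtain ⟨y, hy, rfl⟩ := mem_G hB₂
  by_cases hxg : x = Ix.g
  · subst hxg
    by_cases hyg : y = Ix.g
    · subst hyg
      exact absurd hdis (hgg ψ ψ' h)
    · cases y with
      | c k => exact absurd hy (by simp [sp])
      | r => exact Or.inr ⟨rfl, rfl⟩
      | g => exact absurd rfl hyg
      | a t => exact absurd hdis.symm (hag t ψ' ψ h.symm)
  · by_cases hyg : y = Ix.g
    · subst hyg
      cases x with
      | c k => exact absurd hx (by simp [sp])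
      | r => exact Or.inl ⟨rfl, rfl⟩
      | g => exact absurd rfl hxg
      | a t => exact absurd hdis (hag t ψ ψ' h)
    · exact absurd hdis (hnon x y hx hy hxg hyg ψ ψ' h)

theorem deg_core {p : Vx P.s P.M} (hp : p ≠ Sum.inr true) :
    P.d + 2 ≤ (P.sys.C.filter (fun e => p ∈ e)).card := by
  classical
  have h1 : P.d + 2 ≤ (univ.filter (fun j => p ∈ P.ed (Ix.c j))).card := by
    by_contra hcon
    obtain ⟨j, hj, hpj⟩ := exists_core (Z := univ.filter (fun j => p ∈ P.ed (Ix.c j)))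
      (by omega) hp
    apply hj
    rw [mem_filter]
    exact ⟨mem_univ _, hpj⟩
  have hinj : Function.Injective (fun j => P.ed (Ix.c j)) := fun i j h => ed_c_inj h
  rw [← Finset.card_image_of_injective _ hinj] at h1
  refine h1.trans (Finset.card_le_card ?_)
  intro e he
  obtain ⟨j, hj, rfl⟩ := mem_image.1 he
  rw [mem_filter] at hj
  rw [mem_filter, Sys.C]
  exact ⟨mem_image_of_mem _ (mem_univ _), hj.2⟩

theorem map_swap {V : Type} [DecidableEq V] {a b : V} {e : Finset V} (h : a ∈ e ↔ b ∈ e) :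
    e.map (Equiv.swap a b).toEmbedding = e := by
  ext u
  rw [Finset.mem_map_equiv, Equiv.symm_swap]
  by_cases h1 : u = a
  · rw [h1, Equiv.swap_apply_left]
    exact h.symm
  · by_cases h2 : u = b
    · rw [h2, Equiv.swap_apply_right]
      exact h
    · rw [Equiv.swap_apply_of_ne_of_ne h1 h2]

theorem flex (j : J) (U : Finset (Finset (Vx P.s P.M))) (hU : U.card ≤ 2 * Fintype.card J) :
    ∃ π : Equiv.Perm (Vx P.s P.M),
      (∀ i, i ≠ j → (P.ed (Ix.c i)).map π.toEmbedding = P.ed (Ix.c i)) ∧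
      (P.ed (Ix.c j)).map π.toEmbedding ∉ U := by
  classical
  let a : Fin (P.s j) → Vx P.s P.M := fun x => Sum.inl (Sum.inl ⟨j, x, true⟩, true)
  let b : Fin (P.s j) → Vx P.s P.M := fun x => Sum.inl (Sum.inl ⟨j, x, false⟩, true)
  let π : Fin (P.s j) → Equiv.Perm (Vx P.s P.M) := fun x => Equiv.swap (a x) (b x)
  have haj : ∀ x, a x ∈ P.ed (Ix.c j) := by
    intro x
    rw [mem_ed_inl]
    exact fn_c_self rfl
  have hbj : ∀ x, b x ∉ P.ed (Ix.c j) := by
    intro x h
    rw [mem_ed_inl] at h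
    have h1 : P.fn (Ix.c j) (Sum.inl ⟨j, x, false⟩) = false := fn_c_self rfl
    rw [h1] at h
    exact absurd h (by simp)
  have hnot : ∀ x, a x ∉ (P.ed (Ix.c j)).map (π x).toEmbedding := by
    intro x h
    rw [Finset.mem_map_equiv] at h
    have h1 : (π x).symm (a x) = b x := by
      change (Equiv.swap (a x) (b x)).symm (a x) = b x
      rw [Equiv.symm_swap, Equiv.swap_apply_left]
    rw [h1] at h
    exact hbj x h
  have hin : ∀ x x', x ≠ x' → a x ∈ (P.ed (Ix.c j)).map (π x').toEmbedding := by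
    intro x x' hxx
    rw [Finset.mem_map_equiv]
    have h1 : (π x').symm (a x) = a x := by
      change (Equiv.swap (a x') (b x')).symm (a x) = a x
      rw [Equiv.symm_swap, Equiv.swap_apply_of_ne_of_ne]
      · intro h
        have h2 := Sum.inl.inj h
        rw [Prod.mk.injEq] at h2
        have h3 := Sum.inl.inj h2.1
        simp at h3
        exact hxx h3
      · intro h
        have h2 := Sum.inl.inj h
        rw [Prod.mk.injEq] at h2
        have h3 := Sum.inl.inj h2.1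
        simp at h3
    rw [h1]
    exact haj x
  have hinj : Function.Injective (fun x => (P.ed (Ix.c j)).map (π x).toEmbedding) := by
    intro x x' hxx
    by_contra hne
    apply hnot x
    have hxx' : (P.ed (Ix.c j)).map (π x).toEmbedding =
      (P.ed (Ix.c j)).map (π x').toEmbedding := hxx
    rw [hxx']
    exact hin x x' hne
  obtain ⟨x, hx⟩ : ∃ x, (P.ed (Ix.c j)).map (π x).toEmbedding ∉ U := by
    by_contra hcon
    push Not at hcon
    have h1 : (univ : Finset (Fin (P.s j))).image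
        (fun x => (P.ed (Ix.c j)).map (π x).toEmbedding) ⊆ U := by
      intro y hy
      obtain ⟨x, _, rfl⟩ := mem_image.1 hy
      exact hcon x
    have h2 := Finset.card_le_card h1
    rw [Finset.card_image_of_injective _ hinj, Finset.card_univ, Fintype.card_fin] at h2
    have h3 := P.hs j
    omega
  refine ⟨π x, ?_, hx⟩
  intro i hij
  apply map_swap
  change (Sum.inl (Sum.inl ⟨j, x, true⟩, true) : Vx P.s P.M) ∈ P.ed (Ix.c i) ↔
    (Sum.inl (Sum.inl ⟨j, x, false⟩, true) : Vx P.s P.M) ∈ P.ed (Ix.c i)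
  have hne : ∀ b : Bool, oo (Sum.inl ⟨j, x, b⟩ : Bs P.s P.M) ≠ some i := by
    intro b h
    exact hij (Option.some.inj h).symm
  rw [mem_ed_inl, mem_ed_inl, fn_c_other (hne true), fn_c_other (hne false)]
  rfl

theorem symm (σ : Equiv.Perm (Fin P.M)) : ∃ ρ : Equiv.Perm (Vx P.s P.M),
    ρ (Sum.inr true) = Sum.inr true ∧
    (∀ j, (P.ed (Ix.c j)).map ρ.toEmbedding = P.ed (Ix.c j)) ∧
    (gr (P.fn Ix.r)).map ρ.toEmbedding = gr (P.fn Ix.r) ∧
    (gr (P.fn Ix.g)).map ρ.toEmbedding = gr (P.fn Ix.g) ∧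
    ∀ t, (gr (P.fn (Ix.a t))).map ρ.toEmbedding = gr (P.fn (Ix.a (σ t))) := by
  let ρ : Equiv.Perm (Vx P.s P.M) :=
    Equiv.sumCongr (Equiv.prodCongr (Equiv.sumCongr (Equiv.refl _) σ) (Equiv.refl _))
      (Equiv.refl _)
  have h1 : ∀ v s, ρ.symm (Sum.inl (Sum.inl v, s)) = Sum.inl (Sum.inl v, s) := fun v s => rfl
  have h2 : ∀ t s, ρ.symm (Sum.inl (Sum.inr t, s)) = Sum.inl (Sum.inr (σ.symm t), s) :=
    fun t s => rfl
  have h3 : ∀ c, ρ.symm (Sum.inr c) = Sum.inr c := fun c => rfl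
  refine ⟨ρ, rfl, ?_, ?_, ?_, ?_⟩
  · intro j
    ext u
    rw [Finset.mem_map_equiv]
    rcases u with ⟨v | t, s⟩ | c
    · rw [h1]
    · rw [h2, mem_ed_inl, mem_ed_inl]
      rfl
    · rw [h3]
  · ext u
    rw [Finset.mem_map_equiv]
    rcases u with ⟨v | t, s⟩ | c
    · rw [h1]
    · rw [h2, mem_gr_inl, mem_gr_inl]
      rfl
    · rw [h3]
  · ext u
    rw [Finset.mem_map_equiv]
    rcases u with ⟨v | t, s⟩ | c
    · rw [h1]
    · rw [h2, mem_gr_inl, mem_gr_inl]
      rfl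
    · rw [h3]
  · intro t
    ext u
    rw [Finset.mem_map_equiv]
    rcases u with ⟨v | t', s⟩ | c
    · rw [h1, mem_gr_inl, mem_gr_inl]
      rfl
    · rw [h2, mem_gr_inl, mem_gr_inl]
      change decide (σ.symm t' = t) = s ↔ decide (t' = σ t) = s
      have h4 : (σ.symm t' = t) ↔ (t' = σ t) := Equiv.symm_apply_eq σ
      simp only [h4]
    · rw [h3]
      exact ⟨fun h => absurd h not_mem_gr_inr, fun h => absurd h not_mem_gr_inr⟩

theorem good (P : Par I J) : P.sys.Good where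
  hd := P.hd
  hh := by
    have h1 : P.M ≤ Fintype.card (Bs P.s P.M) := by
      rw [Fintype.card_sum, Fintype.card_fin]
      exact Nat.le_add_left _ _
    have h2 := P.hM
    have h3 := P.hd
    exact le_trans (by omega) h1
  hE := fun i j h => ed_c_inj h
  hEc := by
    intro j
    change (insert _ (gr _)).card = _
    rw [Finset.card_insert_of_notMem not_mem_gr_inr, card_gr]
    rfl
  hGc := by
    intro B hB
    obtain ⟨x, _, rfl⟩ := mem_G hB
    exact card_gr _
  hAc := fun t => card_gr _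
  hAz := fun t => not_mem_gr_inr
  hAi := by
    intro t t' htt
    have h3 := congrFun (gr_inj htt) (Sum.inr t)
    have h4 : decide (t = t) = decide (t = t') := h3
    simp at h4
    exact h4
  hEz := by
    intro j h
    have := mem_ed_inr.1 h
    exact absurd this (by simp [sp])
  hGz := by
    intro B hB
    obtain ⟨x, _, rfl⟩ := mem_G hB
    exact not_mem_gr_inr
  hGn := card_G P
  hT0 := P.hT0
  hTn := by
    rw [Fintype.card_fin]
    exact P.hM
  hV := by
    change Fintype.card ((Bs P.s P.M × Bool) ⊕ Bool) = 2 * Fintype.card (Bs P.s P.M) + 2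
    rw [Fintype.card_sum, Fintype.card_prod, Fintype.card_bool]
    omega
  hdeg := by
    intro v hv
    have h1 := deg_core (P := P) hv
    refine h1.trans (Finset.card_le_card ?_)
    intro e he
    rw [mem_filter] at he
    rw [mem_filter, Sys.H, mem_union]
    exact ⟨Or.inl he.1, he.2⟩
  hdeg3 := by
    intro v hv
    have h1 := deg_core (P := P) hv
    have := P.hd
    omega
  hmeet := by
    intro j B hB
    obtain ⟨x, hx, rfl⟩ := mem_G hB
    obtain ⟨l, hl, _⟩ := exists_off P j j j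
    have hsl : 0 < P.s l := (Nat.zero_le _).trans_lt (P.hs l)
    have hoo : ∀ b, oo (Sum.inl ⟨l, ⟨0, hsl⟩, b⟩ : Bs P.s P.M) ≠ some j := by
      intro b h
      exact hl (Option.some.inj h)
    have hoo' : ∀ b, oo (Sum.inl ⟨l, ⟨0, hsl⟩, b⟩ : Bs P.s P.M) ≠ none := by
      intro b h
      exact absurd h (by simp [oo])
    by_cases hxg : x = Ix.g
    · subst hxg
      refine ⟨Sum.inl (Sum.inl ⟨l, ⟨0, hsl⟩, !(P.γ (some l) (P.row j))⟩,
        P.γ (some l) (P.row j)), ?_, ?_⟩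
      · change _ ∈ P.ed (Ix.c j)
        rw [mem_ed_inl, fn_c_other (hoo _)]
        rfl
      · rw [mem_gr_inl, fn_g]
        change (!(!(P.γ (some l) (P.row j)))) = _
        rw [Bool.not_not]
    · refine ⟨Sum.inl (Sum.inl ⟨l, ⟨0, hsl⟩, P.γ (some l) (P.row j)⟩,
        P.γ (some l) (P.row j)), ?_, ?_⟩
      · change _ ∈ P.ed (Ix.c j)
        rw [mem_ed_inl, fn_c_other (hoo _)]
        rfl
      · rw [mem_gr_inl]
        cases x with
        | c k => exact absurd hx (by simp [sp])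
        | r => rw [fn_r]; rfl
        | g => exact absurd rfl hxg
        | a t => rw [fn_a t (hoo' _)]; rfl
  hdis := by
    rw [Finset.disjoint_left]
    intro p hp hp'
    rcases p with ⟨v, σ⟩ | c
    · have h1 := mem_gr_inl.1 hp
      have h2 := mem_gr_inl.1 hp'
      rw [fn_r] at h1
      rw [fn_g, h1] at h2
      exact absurd h2 (by simp)
    · exact not_mem_gr_inr hp
  hrigid := fun ψ ψ' h => rigid ψ ψ' h
  hA9 := fun ψ ψ' h => A9 ψ ψ' h
  hA9' := fun ψ ψ' h => A9' ψ ψ' h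
  hflex := fun j U hU => flex j U hU
  hsym := fun σ => symm σ

end Par

end Conc

end Pool.Agent.Y418
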