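import Pool.Agent.Y418.Strat

set_option autoImplicit false
set_option linter.unusedSectionVars false

namespace Pool.Agent.Y418

open Finset

namespace Sys

variable {V J T : Type} [Fintype V] [DecidableEq V] [Fintype J] [DecidableEq J]
  [Fintype T] [DecidableEq T] {S : Sys V J T}

theorem Good.z_notin_A (hS : S.Good) (t : T) : S.z ∉ S.A t := hS.hAz t

theorem Good.Sr_card (hS : S.Good) : S.Sr.card = S.h := hS.hGc _ Sr_mem_G

theorem Good.Sg_card (hS : S.Good) : S.Sg.card = S.h := hS.hGc _ Sg_mem_G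

theorem Good.disj_map (hS : S.Good) (φ : V ↪ ℕ) : Disjoint (S.Sr.map φ) (S.Sg.map φ) :=
  (Finset.disjoint_map φ).2 hS.hdis

theorem Good.Sr_ne_Sg (hS : S.Good) (φ : V ↪ ℕ) : S.Sr.map φ ≠ S.Sg.map φ := by
  intro h
  have h1 := hS.disj_map φ
  rw [h, disjoint_self, Finset.bot_eq_empty, Finset.map_eq_empty] at h1
  have h2 := hS.Sg_card
  rw [h1, Finset.card_empty] at h2
  have := hS.hh
  omega

/-- starting phase 3 -/
theorem Good.start (hS : S.Good) {X Y : Finset (Finset ℕ)} {φ : V ↪ ℕ} {f : Finset ℕ}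
    (hc : S.Ctx X Y φ f)
    (hlive : ∀ ψ, S.Live Y ψ → (S.HI ψ ∩ X).card ≤ Fintype.card J)
    (hal : ∀ ψ₁ ψ₂ : V ↪ ℕ, S.CI ψ₁ ⊆ X → S.CI ψ₂ ⊆ X → ∀ B₁ ∈ S.G, ∀ B₂ ∈ S.G,
      B₁.map ψ₁ = S.Sg.map φ → B₂.map ψ₂ = S.Sr.map φ → S.CI ψ₁ = S.CI ψ₂) :
    ∃ y : Finset ℕ, y.card = S.h + 1 ∧ y ∉ X ∧ y ∉ Y ∧ S.StP X (insert y Y) := by
  -- choice of the trace `P`
  have hchoice : ∃ P P' : Finset ℕ,
      ((P = S.Sr.map φ ∧ P' = S.Sg.map φ) ∨ (P = S.Sg.map φ ∧ P' = S.Sr.map φ)) ∧
      (∀ ψ : V ↪ ℕ, S.CI ψ ⊆ X → ∀ B ∈ S.G, B.map ψ = P' →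
        P = S.Sr.map ψ ∨ P = S.Sg.map ψ) := by
    by_cases c1 : ∀ ψ : V ↪ ℕ, S.CI ψ ⊆ X → ∀ B ∈ S.G, B.map ψ = S.Sg.map φ →
        S.Sr.map φ = S.Sr.map ψ ∨ S.Sr.map φ = S.Sg.map ψ
    · exact ⟨_, _, Or.inl ⟨rfl, rfl⟩, c1⟩
    by_cases c2 : ∀ ψ : V ↪ ℕ, S.CI ψ ⊆ X → ∀ B ∈ S.G, B.map ψ = S.Sr.map φ →
        S.Sg.map φ = S.Sr.map ψ ∨ S.Sg.map φ = S.Sg.map ψ
    · exact ⟨_, _, Or.inr ⟨rfl, rfl⟩, c2⟩
    exfalso
    push Not at c1 c2
    obtain ⟨ψ₁, h1, B₁, hB₁, hm₁, hn₁, hn₁'⟩ := c1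
    obtain ⟨ψ₂, h2, B₂, hB₂, hm₂, hn₂, hn₂'⟩ := c2
    have hCC := hal ψ₁ ψ₂ h1 h2 B₁ hB₁ B₂ hB₂ hm₁ hm₂
    have hdd : Disjoint (B₁.map ψ₁) (B₂.map ψ₂) := by
      rw [hm₁, hm₂]
      exact (hS.disj_map φ).symm
    obtain ⟨hA, hB⟩ := hS.hA9 ψ₁ ψ₂ hCC
    rcases hS.hA9' ψ₁ ψ₂ hCC B₁ hB₁ B₂ hB₂ hdd with ⟨rfl, rfl⟩ | ⟨rfl, rfl⟩
    · exact hn₁' (by rw [hB, hm₂])
    · exact hn₁ (by rw [hA, hm₂])
  obtain ⟨P, P', hPP, hP3b⟩ := hchoice
  obtain ⟨w, hwφ, hw⟩ := exists_fresh_nat φ (X ∪ Y)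
  have hPsub : ∀ u ∈ P, ∃ v, φ v = u := by
    intro u hu
    rcases hPP with ⟨rfl, _⟩ | ⟨rfl, _⟩ <;>
    · obtain ⟨v, _, hv⟩ := Finset.mem_map.1 hu
      exact ⟨v, hv⟩
  have hwP : w ∉ P := by
    intro hwP
    obtain ⟨v, hv⟩ := hPsub w hwP
    exact hwφ v hv
  have hPc : P.card = S.h := by
    rcases hPP with ⟨rfl, _⟩ | ⟨rfl, _⟩
    · rw [Finset.card_map, hS.Sr_card]
    · rw [Finset.card_map, hS.Sg_card]
  have hwX : ∀ y ∈ X, w ∉ y := fun y hy => hw y (mem_union_left _ hy)
  have hwY : ∀ y ∈ Y, w ∉ y := fun y hy => hw y (mem_union_right _ hy)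
  refine ⟨insert w P, ?_, ?_, ?_, ?_⟩
  · rw [Finset.card_insert_of_notMem hwP, hPc]
  · intro h
    exact hwX _ h (mem_insert_self _ _)
  · intro h
    exact hwY _ h (mem_insert_self _ _)
  · refine ⟨φ, f, ⟨?_, ?_, hc.fX, hc.fφ⟩, X, ∅, w, P, P', hPP, ?_, ?_, ?_, ?_, ?_, hwφ, hwX,
      ?_, ?_, hP3b⟩
    · intro y hy hy'
      rcases mem_insert.1 hy' with rfl | h
      · exact hwX _ hy (mem_insert_self _ _)
      · exact hc.disj y hy h
    · exact hc.core.trans (subset_insert _ _)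
    · rw [Finset.image_empty, Finset.union_empty]
    · intro u hu
      exact absurd hu (Finset.notMem_empty _)
    · exact mem_insert_self _ _
    · intro u hu
      exact absurd hu (Finset.notMem_empty _)
    · intro u hu
      exact absurd hu (Finset.notMem_empty _)
    · intro y hy hwy
      rcases mem_insert.1 hy with h | h
      · exact h
      · exact absurd hwy (hwY y h)
    · intro ψ hψ
      exact hlive ψ (hψ.mono (subset_insert _ _))

/-- in the pending state live embeddings have at most `m` attacker edges -/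
theorem Good.pend_live (hS : S.Good) {X Y F : Finset (Finset ℕ)} {φ : V ↪ ℕ}
    {W : Finset ℕ} {P P' : Finset ℕ}
    (hPP : (P = S.Sr.map φ ∧ P' = S.Sg.map φ) ∨ (P = S.Sg.map φ ∧ P' = S.Sr.map φ))
    (hX : X = F ∪ W.image (fun u => insert u P'))
    (hWP : ∀ u ∈ W, insert u P ∈ Y)
    (hWφ : ∀ u ∈ W, ∀ v, φ v ≠ u) (hWF : ∀ u ∈ W, ∀ y ∈ F, u ∉ y)
    (hP3a : ∀ ψ, S.Live Y ψ → (S.HI ψ ∩ F).card ≤ Fintype.card J)
    (hP3b : ∀ ψ : V ↪ ℕ, S.CI ψ ⊆ F → ∀ B ∈ S.G, B.map ψ = P' →
      P = S.Sr.map ψ ∨ P = S.Sg.map ψ)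
    (ψ : V ↪ ℕ) (hψ : S.Live Y ψ) : (S.HI ψ ∩ X).card ≤ Fintype.card J := by
  by_contra hcon
  push Not at hcon
  have hP'sub : ∀ u ∈ P', ∃ v, φ v = u := by
    intro u hu
    rcases hPP with ⟨_, rfl⟩ | ⟨_, rfl⟩ <;>
    · obtain ⟨v, _, hv⟩ := Finset.mem_map.1 hu
      exact ⟨v, hv⟩
  have hWP' : ∀ u ∈ W, u ∉ P' := by
    intro u hu huP
    obtain ⟨v, hv⟩ := hP'sub u huP
    exact hWφ u hu v hv
  -- the only X-edge through u ∈ W
  have huniq : ∀ u ∈ W, ∀ y ∈ X, u ∈ y → y = insert u P' := by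
    intro u hu y hy huy
    rw [hX, mem_union] at hy
    rcases hy with h | h
    · exact absurd huy (hWF u hu y h)
    · obtain ⟨u', hu', rfl⟩ := mem_image.1 h
      rcases mem_insert.1 huy with rfl | h'
      · rfl
      · exact absurd h' (hWP' u hu)
  by_cases hex : ∃ u ∈ W, insert u P' ∈ S.HI ψ
  · obtain ⟨u, hu, huH⟩ := hex
    -- `u = ψ z`
    have huv : ∃ v, ψ v = u := by
      have hmem : u ∈ insert u P' := mem_insert_self _ _
      rcases mem_HI.1 huH with ⟨j, hj⟩ | ⟨B, hB, hBe⟩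
      · rw [← hj] at hmem
        obtain ⟨v, _, hv⟩ := Finset.mem_map.1 hmem
        exact ⟨v, hv⟩
      · rw [← hBe] at hmem
        rcases mem_insert.1 hmem with h | h
        · exact ⟨S.z, h.symm⟩
        · obtain ⟨v, _, hv⟩ := Finset.mem_map.1 h
          exact ⟨v, hv⟩
    obtain ⟨v, hv⟩ := huv
    have hfil : (X.filter (fun y => ψ v ∈ y)).card ≤ 1 := by
      rw [Finset.card_le_one]
      intro a ha b hb
      rw [mem_filter] at ha hb
      rw [hv] at ha hb
      rw [huniq u hu a ha.1 ha.2, huniq u hu b hb.1 hb.2]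
    have hvz : v = S.z := by
      by_contra hvz
      have := hS.deg_lemma ψ X hvz
      omega
    subst hvz
    -- all other shared edges are core edges in `F`
    have hsub : (S.HI ψ ∩ X).erase (insert u P') ⊆ S.CI ψ ∩ F := by
      intro y hy
      rw [mem_erase, mem_inter] at hy
      obtain ⟨hne, hyH, hyX⟩ := hy
      have huy : u ∉ y := fun h => hne (huniq u hu y hyX h)
      rw [mem_inter]
      refine ⟨mem_CI_of_z_notin hyH (by rw [hv]; exact huy), ?_⟩
      rw [hX, mem_union] at hyX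
      rcases hyX with h | h
      · exact h
      · exfalso
        obtain ⟨u', hu', rfl⟩ := mem_image.1 h
        -- then `u'` would also be `ψ z`
        have hu'v : ∃ v', ψ v' = u' := by
          have hmem : u' ∈ insert u' P' := mem_insert_self _ _
          rcases mem_HI.1 hyH with ⟨j, hj⟩ | ⟨B, hB, hBe⟩
          · rw [← hj] at hmem
            obtain ⟨v', _, hv'⟩ := Finset.mem_map.1 hmem
            exact ⟨v', hv'⟩
          · rw [← hBe] at hmem
            rcases mem_insert.1 hmem with h | h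
            · exact ⟨S.z, h.symm⟩
            · obtain ⟨v', _, hv'⟩ := Finset.mem_map.1 h
              exact ⟨v', hv'⟩
        obtain ⟨v', hv'⟩ := hu'v
        have hfil' : (X.filter (fun y => ψ v' ∈ y)).card ≤ 1 := by
          rw [Finset.card_le_one]
          intro a ha b hb
          rw [mem_filter] at ha hb
          rw [hv'] at ha hb
          rw [huniq u' hu' a ha.1 ha.2, huniq u' hu' b hb.1 hb.2]
        have hvz' : v' = S.z := by
          by_contra hvz'
          have := hS.deg_lemma ψ X hvz'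
          omega
        subst hvz'
        apply huy
        rw [← hv, hv']
        exact mem_insert_self _ _
    have hcard : Fintype.card J ≤ (S.CI ψ ∩ F).card := by
      have h1 := Finset.card_le_card hsub
      have h2 := Finset.pred_card_le_card_erase (s := S.HI ψ ∩ X) (a := insert u P')
      omega
    have hCF : S.CI ψ ⊆ F := by
      have h1 : S.CI ψ ∩ F = S.CI ψ := by
        apply Finset.eq_of_subset_of_card_le Finset.inter_subset_left
        rw [hS.card_CI]
        exact hcard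
      rw [← h1]
      exact Finset.inter_subset_right
    -- the gadget edge
    have hnC : insert u P' ∉ S.CI ψ := by
      intro h
      have := hS.z_notin_CI h
      rw [hv] at this
      exact this (mem_insert_self _ _)
    rcases mem_HI.1 huH with h | ⟨B, hB, hBe⟩
    · exact hnC (mem_CI.2 h)
    · rw [hv] at hBe
      have hzB : u ∉ B.map ψ := by
        rw [← hv, Finset.mem_map']
        exact hS.hGz B hB
      have hBP : B.map ψ = P' := by
        have : (insert u (B.map ψ)).erase u = (insert u P').erase u := by rw [hBe]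
        rwa [Finset.erase_insert hzB, Finset.erase_insert (hWP' u hu)] at this
      have hPY := hWP u hu
      rcases hP3b ψ hCF B hB hBP with h | h
      · apply hψ _ (r_mem_HI ψ)
        rw [hv, ← h]
        exact hPY
      · apply hψ _ (g_mem_HI ψ)
        rw [hv, ← h]
        exact hPY
  · push Not at hex
    have hsub : S.HI ψ ∩ X ⊆ S.HI ψ ∩ F := by
      intro y hy
      rw [mem_inter] at hy
      rw [mem_inter]
      refine ⟨hy.1, ?_⟩
      have h2 := hy.2
      rw [hX, mem_union] at h2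
      rcases h2 with h | h
      · exact h
      · obtain ⟨u, hu, rfl⟩ := mem_image.1 h
        exact absurd hy.1 (hex u hu)
    have h1 := Finset.card_le_card hsub
    have h2 := hP3a ψ hψ
    omega

theorem card_HI_inter_insert_le (ψ : V ↪ ℕ) (X : Finset (Finset ℕ)) (x : Finset ℕ) :
    (S.HI ψ ∩ insert x X).card ≤ (S.HI ψ ∩ X).card + 1 := by
  have : S.HI ψ ∩ insert x X ⊆ insert x (S.HI ψ ∩ X) := by
    intro y hy
    rw [mem_inter, mem_insert] at hy
    rw [mem_insert, mem_inter]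
    rcases hy with ⟨h1, h2 | h2⟩
    · exact Or.inl h2
    · exact Or.inr ⟨h1, h2⟩
  exact (Finset.card_le_card this).trans (Finset.card_insert_le _ _)

theorem Good.step_P (hS : S.Good) {X Y : Finset (Finset ℕ)} (hP : S.StP X Y) {x : Finset ℕ}
    (hxX : x ∉ X) (hxY : x ∉ Y) : S.Step X Y x := by
  obtain ⟨φ, f, hc, F, W, w, P, P', hPP, hX, hWP, hwP, hWφ, hWF, hwφ, hwX, hwY, hP3a, hP3b⟩ := hP
  have hlive := hS.pend_live hPP hX hWP hWφ hWF hP3a hP3b
  have hd := hS.hd
  have hdisj : ∀ y ∈ insert x X, y ∉ Y := by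
    intro y hy
    rcases mem_insert.1 hy with rfl | h
    · exact hxY
    · exact hc.disj y h
  have hlive' : ∀ ψ, S.Live Y ψ → (S.HI ψ ∩ insert x X).card ≤ Fintype.card J + 1 := by
    intro ψ hψ
    have h1 := hlive ψ hψ
    have h2 := card_HI_inter_insert_le (S := S) ψ X x
    omega
  refine ⟨?_, ?_⟩
  · intro hcopy
    exfalso
    refine hS.no_copy hdisj ?_ hcopy
    intro ψ hψ
    have := hlive' ψ hψ
    omega
  have hP'sub : ∀ u ∈ P', ∃ v, φ v = u := by
    intro u hu
    rcases hPP with ⟨_, rfl⟩ | ⟨_, rfl⟩ <;>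
    · obtain ⟨v, _, hv⟩ := Finset.mem_map.1 hu
      exact ⟨v, hv⟩
  have hPsub : ∀ u ∈ P, ∃ v, φ v = u := by
    intro u hu
    rcases hPP with ⟨rfl, _⟩ | ⟨rfl, _⟩ <;>
    · obtain ⟨v, _, hv⟩ := Finset.mem_map.1 hu
      exact ⟨v, hv⟩
  have hPc : P.card = S.h := by
    rcases hPP with ⟨rfl, _⟩ | ⟨rfl, _⟩
    · rw [Finset.card_map, hS.Sr_card]
    · rw [Finset.card_map, hS.Sg_card]
  have hP'c : P'.card = S.h := by
    rcases hPP with ⟨_, rfl⟩ | ⟨_, rfl⟩
    · rw [Finset.card_map, hS.Sg_card]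
    · rw [Finset.card_map, hS.Sr_card]
  have hne : P ≠ P' := by
    rcases hPP with ⟨rfl, rfl⟩ | ⟨rfl, rfl⟩
    · exact hS.Sr_ne_Sg φ
    · exact (hS.Sr_ne_Sg φ).symm
  have hwP' : w ∉ P' := by
    intro h
    obtain ⟨v, hv⟩ := hP'sub w h
    exact hwφ v hv
  have hwPn : w ∉ P := by
    intro h
    obtain ⟨v, hv⟩ := hPsub w h
    exact hwφ v hv
  by_cases hx : x = insert w P'
  · -- the attacker blocks: take a new fresh vertex
    obtain ⟨w₂, hw₂φ, hw₂⟩ := exists_fresh_nat φ (insert x X ∪ Y)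
    have hw₂X : ∀ y ∈ insert x X, w₂ ∉ y := fun y hy => hw₂ y (mem_union_left _ hy)
    have hw₂Y : ∀ y ∈ Y, w₂ ∉ y := fun y hy => hw₂ y (mem_union_right _ hy)
    have hw₂P : w₂ ∉ P := by
      intro h
      obtain ⟨v, hv⟩ := hPsub w₂ h
      exact hw₂φ v hv
    refine ⟨insert w₂ P, ?_, ?_, ?_, ?_⟩
    · rw [Finset.card_insert_of_notMem hw₂P, hPc]
    · intro h
      exact hw₂X _ h (mem_insert_self _ _)
    · intro h
      exact hw₂Y _ h (mem_insert_self _ _)
    · refine Or.inr (Or.inr (Or.inr (Or.inr (Or.inl ?_))))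
      refine ⟨φ, f, ⟨?_, ?_, mem_insert_of_mem hc.fX, hc.fφ⟩, F, insert w W, w₂, P, P', hPP,
        ?_, ?_, ?_, ?_, ?_, hw₂φ, hw₂X, ?_, ?_, hP3b⟩
      · intro y hy hy'
        rcases mem_insert.1 hy' with rfl | h
        · exact hw₂X _ hy (mem_insert_self _ _)
        · exact hdisj y hy h
      · exact hc.core.trans (subset_insert _ _)
      · rw [hX, hx, Finset.image_insert, Finset.union_insert]
      · intro u hu
        rcases mem_insert.1 hu with rfl | h
        · exact mem_insert_of_mem hwP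
        · exact mem_insert_of_mem (hWP u h)
      · exact mem_insert_self _ _
      · intro u hu
        rcases mem_insert.1 hu with rfl | h
        · exact hwφ
        · exact hWφ u h
      · intro u hu y hy
        rcases mem_insert.1 hu with rfl | h
        · apply hwX
          rw [hX]
          exact mem_union_left _ hy
        · exact hWF u h y hy
      · intro y hy hwy
        rcases mem_insert.1 hy with h | h
        · exact h
        · exact absurd hwy (hw₂Y y h)
      · intro ψ hψ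
        exact hP3a ψ (hψ.mono (subset_insert _ _))
  · -- complete both `r` and `g`
    have hnX : insert w P' ∉ insert x X := by
      intro h
      rcases mem_insert.1 h with h | h
      · exact hx h.symm
      · exact hwX _ h (mem_insert_self _ _)
    have hnY : insert w P' ∉ Y := by
      intro h
      have h1 := hwY _ h (mem_insert_self _ _)
      apply hne
      have : (insert w P').erase w = (insert w P).erase w := by rw [h1]
      rw [Finset.erase_insert hwP', Finset.erase_insert hwPn] at this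
      exact this.symm
    refine ⟨insert w P', ?_, hnX, hnY, ?_⟩
    · rw [Finset.card_insert_of_notMem hwP', hP'c]
    · refine Or.inr (Or.inr (Or.inr (Or.inr (Or.inr (Or.inl ⟨0, ?_⟩)))))
      refine ⟨by omega, ?_, φ, w, ∅, ?_, ?_, ?_, hwφ, Finset.card_empty, ?_, ?_, ?_, ?_⟩
      · intro y hy hy'
        rcases mem_insert.1 hy' with rfl | h
        · exact hnX hy
        · exact hdisj y hy h
      · exact hc.core.trans (subset_insert _ _)
      · rcases hPP with ⟨rfl, rfl⟩ | ⟨rfl, rfl⟩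
        · exact mem_insert_of_mem hwP
        · exact mem_insert_self _ _
      · rcases hPP with ⟨rfl, rfl⟩ | ⟨rfl, rfl⟩
        · exact mem_insert_self _ _
        · exact mem_insert_of_mem hwP
      · intro t ht
        exact absurd ht (Finset.notMem_empty _)
      · have : (insert x X).filter (fun y => w ∈ y) ⊆ {x} := by
          intro y hy
          rw [mem_filter, mem_insert] at hy
          rw [mem_singleton]
          rcases hy with ⟨h | h, h'⟩
          · exact h
          · exact absurd h' (hwX y h)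
        simpa using Finset.card_le_card this
      · have : (insert (insert w P') Y).filter (fun y => w ∈ y) ⊆ {insert w P', insert w P} := by
          intro y hy
          rw [mem_filter, mem_insert] at hy
          rw [mem_insert, mem_singleton]
          rcases hy with ⟨h | h, h'⟩
          · exact Or.inl h
          · exact Or.inr (hwY y h h')
        exact (Finset.card_le_card this).trans Finset.card_le_two
      · intro ψ hψ
        have := hlive' ψ (hψ.mono (subset_insert _ _))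
        omega

end Sys

end Pool.Agent.Y418
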