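import Pool.Agent.Y418.Phase3

set_option autoImplicit false
set_option linter.unusedSectionVars false

namespace Pool.Agent.Y418

open Finset

namespace Sys

variable {V J T : Type} [Fintype V] [DecidableEq V] [Fintype J] [DecidableEq J]
  [Fintype T] [DecidableEq T] {S : Sys V J T}

/-- changing the value at `z` -/
theorem exists_update (φ : V ↪ ℕ) (z : V) (w : ℕ) (hw : ∀ v, φ v ≠ w) :
    ∃ φ' : V ↪ ℕ, φ' z = w ∧ ∀ e : Finset V, z ∉ e → e.map φ' = e.map φ := by
  have hinj : Function.Injective (Function.update φ z w) := by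
    intro a b hab
    by_cases ha : a = z
    · by_cases hb : b = z
      · rw [ha, hb]
      · rw [ha, Function.update_self, Function.update_of_ne hb] at hab
        exact absurd hab.symm (hw b)
    · by_cases hb : b = z
      · rw [hb, Function.update_self, Function.update_of_ne ha] at hab
        exact absurd hab (hw a)
      · rw [Function.update_of_ne ha, Function.update_of_ne hb] at hab
        exact φ.injective hab
  refine ⟨⟨Function.update φ z w, hinj⟩, ?_, ?_⟩
  · exact Function.update_self _ _ _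
  · intro e he
    ext u
    simp only [Finset.mem_map, Function.Embedding.coeFn_mk]
    constructor
    · rintro ⟨v, hv, rfl⟩
      refine ⟨v, hv, ?_⟩
      rw [Function.update_of_ne]
      rintro rfl
      exact he hv
    · rintro ⟨v, hv, rfl⟩
      refine ⟨v, hv, ?_⟩
      rw [Function.update_of_ne]
      rintro rfl
      exact he hv

/-- the final configuration contains a copy -/
theorem Good.won_of_race (hS : S.Good) {Y : Finset (Finset ℕ)} {φ : V ↪ ℕ} {w : ℕ}
    {T1 : Finset T} (hcore : S.CI φ ⊆ Y)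
    (hr : insert w (S.Sr.map φ) ∈ Y) (hg : insert w (S.Sg.map φ) ∈ Y)
    (hw : ∀ v, φ v ≠ w) (hT1 : T1.card = S.d - 2)
    (hA : ∀ t ∈ T1, insert w ((S.A t).map φ) ∈ Y) : S.Copy Y := by
  classical
  -- a permutation of `T` mapping `T0` onto `T1`
  obtain ⟨σ, hσ⟩ : ∃ σ : Equiv.Perm T, ∀ t ∈ S.T0, σ t ∈ T1 := by
    have hcard : Fintype.card {t // t ∈ S.T0} = Fintype.card {t // t ∈ T1} := by
      rw [Fintype.card_coe, Fintype.card_coe, hT1, hS.hT0]
    let e : {t // t ∈ S.T0} ≃ {t // t ∈ T1} := Fintype.equivOfCardEq hcard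
    refine ⟨e.extendSubtype, ?_⟩
    intro t ht
    exact Equiv.extendSubtype_mem e t ht
  obtain ⟨ρ, hρz, hρE, hρr, hρg, hρA⟩ := hS.hsym σ
  obtain ⟨φ', hφ'z, hφ'⟩ := exists_update φ S.z w hw
  refine ⟨ρ.toEmbedding.trans φ', ?_⟩
  intro y hy
  have hz : (ρ.toEmbedding.trans φ') S.z = w := by
    change φ' (ρ S.z) = w
    rw [hρz, hφ'z]
  rcases mem_HI.1 hy with ⟨j, rfl⟩ | ⟨B, hB, rfl⟩
  · rw [← Finset.map_map, hρE, hφ' _ (hS.hEz j)]
    exact hcore (mem_CI.2 ⟨j, rfl⟩)
  · rw [hz, ← Finset.map_map]
    have hzB := hS.hGz B hB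
    rw [G, mem_insert, mem_insert, mem_image] at hB
    rcases hB with rfl | rfl | ⟨t, ht, rfl⟩
    · rw [hρr, hφ' _ hzB]
      exact hr
    · rw [hρg, hφ' _ hzB]
      exact hg
    · rw [hρA, hφ' _ (hS.hAz _)]
      exact hA _ (hσ t ht)

theorem Good.step_R (hS : S.Good) {X Y : Finset (Finset ℕ)} {n : ℕ} (hR : S.StR n X Y)
    {x : Finset ℕ} (hxX : x ∉ X) (hxY : x ∉ Y) : S.Step X Y x := by
  classical
  obtain ⟨hn, hdisj, φ, w, T1, hcore, hr, hg, hw, hT1, hA, hXw, hYw, hlive⟩ := hR
  have hd := hS.hd
  have hdisj' : ∀ y ∈ insert x X, y ∉ Y := by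
    intro y hy
    rcases mem_insert.1 hy with rfl | h
    · exact hxY
    · exact hdisj y h
  have hlive' : ∀ ψ, S.Live Y ψ → (S.HI ψ ∩ insert x X).card ≤ Fintype.card J + 1 + (n + 1) := by
    intro ψ hψ
    have h1 := hlive ψ hψ
    have h2 := card_HI_inter_insert_le (S := S) ψ X x
    omega
  refine ⟨?_, ?_⟩
  · intro hcopy
    exfalso
    refine hS.no_copy hdisj' ?_ hcopy
    intro ψ hψ
    have := hlive' ψ hψ
    omega
  -- the candidate edges
  have hwA : ∀ t, w ∉ (S.A t).map φ := by
    intro t h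
    obtain ⟨v, _, hv⟩ := Finset.mem_map.1 h
    exact hw v hv
  have hinj : Function.Injective (fun t => insert w ((S.A t).map φ)) := by
    intro t t' htt
    have htt' : insert w ((S.A t).map φ) = insert w ((S.A t').map φ) := htt
    have : (insert w ((S.A t).map φ)).erase w = (insert w ((S.A t').map φ)).erase w := by
      rw [htt']
    rw [Finset.erase_insert (hwA t), Finset.erase_insert (hwA t')] at this
    exact hS.hAi (Finset.map_injective φ this)
  obtain ⟨t, ht⟩ : ∃ t : T, insert w ((S.A t).map φ) ∉ insert x X ∪ Y := by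
    by_contra hcon
    push Not at hcon
    have hsub : (univ : Finset T).image (fun t => insert w ((S.A t).map φ)) ⊆
        ((insert x X).filter (fun y => w ∈ y)) ∪ (Y.filter (fun y => w ∈ y)) := by
      intro y hy
      obtain ⟨t, _, rfl⟩ := mem_image.1 hy
      rw [mem_union, mem_filter, mem_filter]
      rcases mem_union.1 (hcon t) with h | h
      · exact Or.inl ⟨h, mem_insert_self _ _⟩
      · exact Or.inr ⟨h, mem_insert_self _ _⟩
    have h1 := Finset.card_le_card hsub
    rw [Finset.card_image_of_injective _ hinj, Finset.card_univ] at h1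
    have h2 : ((insert x X).filter (fun y => w ∈ y)).card ≤ n + 2 := by
      have : (insert x X).filter (fun y => w ∈ y) ⊆ insert x (X.filter (fun y => w ∈ y)) := by
        intro y hy
        rw [mem_filter, mem_insert] at hy
        rw [mem_insert, mem_filter]
        rcases hy with ⟨h | h, h'⟩
        · exact Or.inl h
        · exact Or.inr ⟨h, h'⟩
      have h3 := Finset.card_le_card this
      have h4 := Finset.card_insert_le x (X.filter (fun y => w ∈ y))
      omega
    have h5 := Finset.card_union_le ((insert x X).filter (fun y => w ∈ y))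
      (Y.filter (fun y => w ∈ y))
    have h6 := hS.hTn
    omega
  rw [mem_union, not_or] at ht
  have htT1 : t ∉ T1 := fun h => ht.2 (hA t h)
  refine ⟨insert w ((S.A t).map φ), ?_, ht.1, ht.2, ?_⟩
  · rw [Finset.card_insert_of_notMem (hwA t), Finset.card_map, hS.hAc]
  have hcore' : S.CI φ ⊆ insert (insert w ((S.A t).map φ)) Y :=
    hcore.trans (subset_insert _ _)
  have hA' : ∀ t' ∈ insert t T1,
      insert w ((S.A t').map φ) ∈ insert (insert w ((S.A t).map φ)) Y := by
    intro t' ht'
    rcases mem_insert.1 ht' with rfl | h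
    · exact mem_insert_self _ _
    · exact mem_insert_of_mem (hA t' h)
  have hT1' : (insert t T1).card = n + 1 := by
    rw [Finset.card_insert_of_notMem htT1, hT1]
  by_cases hlast : n + 1 < S.d - 2
  · refine Or.inr (Or.inr (Or.inr (Or.inr (Or.inr (Or.inl ⟨n + 1, ?_⟩)))))
    refine ⟨hlast, ?_, φ, w, insert t T1, hcore', mem_insert_of_mem hr, mem_insert_of_mem hg,
      hw, hT1', hA', ?_, ?_, ?_⟩
    · intro y hy hy'
      rcases mem_insert.1 hy' with rfl | h
      · exact ht.1 hy
      · exact hdisj' y hy h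
    · have : (insert x X).filter (fun y => w ∈ y) ⊆ insert x (X.filter (fun y => w ∈ y)) := by
        intro y hy
        rw [mem_filter, mem_insert] at hy
        rw [mem_insert, mem_filter]
        rcases hy with ⟨h | h, h'⟩
        · exact Or.inl h
        · exact Or.inr ⟨h, h'⟩
      have h3 := Finset.card_le_card this
      have h4 := Finset.card_insert_le x (X.filter (fun y => w ∈ y))
      omega
    · have : (insert (insert w ((S.A t).map φ)) Y).filter (fun y => w ∈ y) ⊆
          insert (insert w ((S.A t).map φ)) (Y.filter (fun y => w ∈ y)) := by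
        intro y hy
        rw [mem_filter, mem_insert] at hy
        rw [mem_insert, mem_filter]
        rcases hy with ⟨h | h, h'⟩
        · exact Or.inl h
        · exact Or.inr ⟨h, h'⟩
      have h3 := Finset.card_le_card this
      have h4 := Finset.card_insert_le (insert w ((S.A t).map φ)) (Y.filter (fun y => w ∈ y))
      omega
    · intro ψ hψ
      exact hlive' ψ (hψ.mono (subset_insert _ _))
  · refine Or.inr (Or.inr (Or.inr (Or.inr (Or.inr (Or.inr ?_)))))
    refine hS.won_of_race hcore' (mem_insert_of_mem hr) (mem_insert_of_mem hg) hw ?_ hA'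
    omega

theorem step_W {X Y : Finset (Finset ℕ)} (hW : S.Copy Y)
    {x : Finset ℕ} : S.Step X Y x := by
  refine ⟨fun _ => hW, ?_⟩
  obtain ⟨y, hy, hyn⟩ := exists_fresh_edge (S.h + 1) (Nat.succ_pos _) (insert x X ∪ Y)
  rw [mem_union, not_or] at hyn
  refine ⟨y, hy, hyn.1, hyn.2, ?_⟩
  refine Or.inr (Or.inr (Or.inr (Or.inr (Or.inr (Or.inr ?_)))))
  obtain ⟨ψ, hψ⟩ := hW
  exact ⟨ψ, hψ.trans (subset_insert _ _)⟩

end Sys

end Pool.Agent.Y418
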