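import Pool.Agent.Y418.Build

set_option autoImplicit false
set_option linter.unusedSectionVars false

namespace Pool.Agent.Y418

open Finset

namespace Sys

variable {V J T : Type} [Fintype V] [DecidableEq V] [Fintype J] [DecidableEq J]
  [Fintype T] [DecidableEq T] {S : Sys V J T}

/-- killed: an embedding with the same core and the same value at `z` is not live -/
theorem Good.killed (hS : S.Good) {Y : Finset (Finset ℕ)} {ψ χ : V ↪ ℕ}
    (hC : S.CI ψ = S.CI χ) (hz : χ S.z = ψ S.z)
    (hk : insert (ψ S.z) (S.Sr.map ψ) ∈ Y ∨ insert (ψ S.z) (S.Sg.map ψ) ∈ Y) :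
    ¬ S.Live Y χ := by
  intro hlive
  obtain ⟨hA, hB⟩ := hS.hA9 ψ χ hC
  rcases hk with h | h
  · apply hlive _ (r_mem_HI χ)
    rw [hz, ← hA]
    exact h
  · apply hlive _ (g_mem_HI χ)
    rw [hz, ← hB]
    exact h

theorem Good.step_S (hS : S.Good) {X Y : Finset (Finset ℕ)} (hSt : S.StS X Y) {x : Finset ℕ}
    (hxX : x ∉ X) (hxY : x ∉ Y) : S.Step X Y x := by
  classical
  obtain ⟨φ, f, hc, ψ₀, hψ₀X, hK⟩ := hSt
  have hd := hS.hd
  have hh := hS.hh
  have hdisj' : ∀ y ∈ insert x X, y ∉ Y := by
    intro y hy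
    rcases mem_insert.1 hy with rfl | h
    · exact hxY
    · exact hc.disj y h
  have hc' : S.Ctx (insert x X) Y φ f := ⟨hdisj', hc.core, mem_insert_of_mem hc.fX, hc.fφ⟩
  -- degree bound for the private vertices
  have hfil : ∀ y ∈ X, ∀ u : ℕ, (∀ y' ∈ X, u ∈ y' → y' = y) →
      ((insert x X).filter (fun y => u ∈ y)).card ≤ 2 := by
    intro y _ u hu
    have : (insert x X).filter (fun y => u ∈ y) ⊆ {x, y} := by
      intro y' hy'
      rw [mem_filter, mem_insert] at hy'
      rw [mem_insert, mem_singleton]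
      rcases hy' with ⟨h | h, h'⟩
      · exact Or.inl h
      · exact Or.inr (hu y' h h')
    exact (Finset.card_le_card this).trans Finset.card_le_two
  -- the main claim
  have hmain : ∀ χ, S.Live Y χ → Fintype.card J + 1 ≤ (S.HI χ ∩ insert x X).card →
      S.CI χ = S.CI ψ₀ ∧ x ∈ S.HI χ ∧ x ∉ S.CI χ ∧ ∀ y ∈ X, χ S.z ∉ y := by
    intro χ hχ hcnt
    -- step 1
    have h1 : ∀ y ∈ X, y ∉ S.CI ψ₀ → y ∈ S.HI χ → ∀ ψ : V ↪ ℕ, S.CI ψ = S.CI ψ₀ →
        y ∈ S.HI ψ → (∀ y' ∈ X, ψ S.z ∈ y' → y' = y) → χ S.z = ψ S.z := by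
      intro y hy hyn hyχ ψ hψC hyψ hu
      have hzy : ψ S.z ∈ y := by
        apply z_mem_of_notin_CI hyψ
        rw [hψC]
        exact hyn
      obtain ⟨v, hv⟩ := exists_preimage_of_mem_HI hyχ hzy
      by_cases hvz : v = S.z
      · rw [hvz] at hv
        exact hv
      · exfalso
        have h2 := hS.deg_lemma χ (insert x X) hvz
        rw [hv] at h2
        have h3 := hfil y hy (ψ S.z) hu
        omega
    -- step 2
    have h2 : ∀ y ∈ X, y ∈ S.HI χ → y ∈ S.CI ψ₀ := by
      intro y hy hyχ
      by_contra hyn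
      obtain ⟨ψ, hψC, hyψ, hu, hk⟩ := hK y hy hyn
      have hzz := h1 y hy hyn hyχ ψ hψC hyψ hu
      set D := ((S.HI χ ∩ insert x X).erase y).erase x with hD
      have hDsub : D ⊆ S.CI ψ₀ ∩ S.CI χ := by
        intro y' hy'
        rw [hD, mem_erase, mem_erase, mem_inter, mem_insert] at hy'
        obtain ⟨hne1, hne2, hyH, hy'' | hyX⟩ := hy'
        · exact absurd hy'' hne1
        · have hzn : ψ S.z ∉ y' := fun h => hne2 (hu y' hyX h)
          rw [mem_inter]
          refine ⟨?_, mem_CI_of_z_notin hyH (by rw [hzz]; exact hzn)⟩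
          by_contra hyn'
          obtain ⟨ψ', hψC', hyψ', hu', _⟩ := hK y' hyX hyn'
          have hzz' := h1 y' hyX hyn' hyH ψ' hψC' hyψ' hu'
          apply hzn
          rw [← hzz, hzz']
          apply z_mem_of_notin_CI hyψ'
          rw [hψC']
          exact hyn'
      have hDc : Fintype.card J - 1 ≤ D.card := by
        have e1 := Finset.pred_card_le_card_erase (s := S.HI χ ∩ insert x X) (a := y)
        have e2 := Finset.pred_card_le_card_erase (s := (S.HI χ ∩ insert x X).erase y) (a := x)
        rw [← hD] at e2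
        omega
      have hDHH : D ⊆ S.HI ψ ∩ S.HI χ := by
        intro y' hy'
        have := mem_inter.1 (hDsub hy')
        rw [mem_inter]
        refine ⟨CI_sub_HI ψ ?_, CI_sub_HI χ this.2⟩
        rw [hψC]
        exact this.1
      rcases hS.hrigid ψ χ (hDc.trans (Finset.card_le_card hDHH)) with h | h
      · exact hS.killed h hzz hk hχ
      · have : y ∈ S.CI ψ ∩ S.CI χ := h (mem_inter.2 ⟨hyψ, hyχ⟩)
        apply hyn
        rw [← hψC]
        exact (mem_inter.1 this).1
    -- step 3
    have hsub : S.HI χ ∩ X ⊆ S.CI ψ₀ := by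
      intro y hy
      rw [mem_inter] at hy
      exact h2 y hy.2 hy.1
    have hle := Finset.card_le_card hsub
    rw [hS.card_CI] at hle
    have hle2 := card_HI_inter_insert_le (S := S) χ X x
    have heq : S.HI χ ∩ X = S.CI ψ₀ := by
      apply Finset.eq_of_subset_of_card_le hsub
      rw [hS.card_CI]
      omega
    have hxχ : x ∈ S.HI χ := by
      by_contra hx
      have : S.HI χ ∩ insert x X = S.HI χ ∩ X := by
        rw [Finset.inter_insert_of_notMem hx]
      rw [this] at hcnt
      omega
    have hCsub : S.CI ψ₀ ⊆ S.HI ψ₀ ∩ S.HI χ := by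
      intro y hy
      rw [mem_inter]
      refine ⟨CI_sub_HI _ hy, ?_⟩
      rw [← heq] at hy
      exact (mem_inter.1 hy).1
    have hCC : S.CI χ = S.CI ψ₀ := by
      have hcc := Finset.card_le_card hCsub
      rw [hS.card_CI] at hcc
      rcases hS.hrigid ψ₀ χ (by omega) with h | h
      · exact h.symm
      · symm
        apply Finset.eq_of_subset_of_card_le
        · intro y hy
          exact (mem_inter.1 (h (hCsub hy))).2
        · rw [hS.card_CI, hS.card_CI]
    refine ⟨hCC, hxχ, ?_, ?_⟩
    · rw [hCC]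
      intro h
      exact hxX (hψ₀X h)
    · intro y hy hzy
      by_cases hyC : y ∈ S.CI ψ₀
      · rw [← hCC] at hyC
        exact hS.z_notin_CI hyC hzy
      · obtain ⟨ψ, hψC, hyψ, hu, hk⟩ := hK y hy hyC
        obtain ⟨v, hv⟩ := exists_preimage_of_mem_HI hyψ hzy
        have hψχ : S.CI ψ = S.CI χ := by rw [hψC, hCC]
        by_cases hvz : v = S.z
        · rw [hvz] at hv
          exact hS.killed hψχ hv.symm hk hχ
        · obtain ⟨v', hv', hv''⟩ := hS.range_eq hψχ hvz
          rw [hv] at hv''
          exact hv' (χ.injective hv'')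
  refine ⟨?_, ?_⟩
  · -- no copy
    rintro ⟨χ, hχX⟩
    exfalso
    have hχlive : S.Live Y χ := fun y hy => hdisj' y (hχX hy)
    have hcnt : Fintype.card J + 1 ≤ (S.HI χ ∩ insert x X).card := by
      rw [Finset.inter_eq_left.2 hχX, hS.card_HI]
      omega
    obtain ⟨_, _, _, h4⟩ := hmain χ hχlive hcnt
    have key : ∀ y ∈ S.HI χ, χ S.z ∈ y → y = x := by
      intro y hy hz
      rcases mem_insert.1 (hχX hy) with h | h
      · exact h
      · exact absurd hz (h4 y h)
    apply hS.r_ne_g χ
    rw [key _ (r_mem_HI χ) (mem_insert_self _ _), key _ (g_mem_HI χ) (mem_insert_self _ _)]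
  by_cases hex : ∃ χ, S.Live Y χ ∧ Fintype.card J + 1 ≤ (S.HI χ ∩ insert x X).card
  · -- answer the threat
    obtain ⟨χ, hχ, hcnt⟩ := hex
    obtain ⟨hCC, hxχ, hxC, h4⟩ := hmain χ hχ hcnt
    obtain ⟨y, hyrg, hyx⟩ : ∃ y, (y = insert (χ S.z) (S.Sr.map χ) ∨
        y = insert (χ S.z) (S.Sg.map χ)) ∧ y ≠ x := by
      by_contra hcon
      push Not at hcon
      apply hS.r_ne_g χ
      rw [hcon _ (Or.inl rfl), hcon _ (Or.inr rfl)]
    have hzy : χ S.z ∈ y := by
      rcases hyrg with rfl | rfl <;> exact mem_insert_self _ _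
    have hyH : y ∈ S.HI χ := by
      rcases hyrg with rfl | rfl
      · exact r_mem_HI χ
      · exact g_mem_HI χ
    have hyX : y ∉ insert x X := by
      intro h
      rcases mem_insert.1 h with h | h
      · exact hyx h
      · exact h4 y h hzy
    refine ⟨y, hS.card_of_mem_HI hyH, hyX, hχ y hyH, ?_⟩
    refine Or.inr (Or.inr (Or.inl ?_))
    refine ⟨φ, f, ⟨?_, hc.core.trans (subset_insert _ _), mem_insert_of_mem hc.fX, hc.fφ⟩,
      ψ₀, hψ₀X.trans (subset_insert _ _), ?_⟩
    · intro y' hy' hyy
      rcases mem_insert.1 hyy with rfl | h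
      · exact hyX hy'
      · exact hdisj' y' hy' h
    · intro y' hy' hyn'
      rcases mem_insert.1 hy' with rfl | hy'X
      · refine ⟨χ, hCC, hxχ, ?_, ?_⟩
        · intro y'' hy'' hz''
          rcases mem_insert.1 hy'' with h | h
          · exact h
          · exact absurd hz'' (h4 y'' h)
        · rcases hyrg with rfl | rfl
          · exact Or.inl (mem_insert_self _ _)
          · exact Or.inr (mem_insert_self _ _)
      · obtain ⟨ψ, hψC, hyψ, hu, hk⟩ := hK y' hy'X hyn'
        have hzy' : ψ S.z ∈ y' := by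
          apply z_mem_of_notin_CI hyψ
          rw [hψC]
          exact hyn'
        refine ⟨ψ, hψC, hyψ, ?_, ?_⟩
        · intro y'' hy'' hz''
          rcases mem_insert.1 hy'' with h | h
          · exfalso
            rw [h] at hz''
            obtain ⟨v, hv⟩ := exists_preimage_of_mem_HI hxχ hz''
            have hχψ : S.CI χ = S.CI ψ := by rw [hψC, hCC]
            by_cases hvz : v = S.z
            · rw [hvz] at hv
              apply h4 y' hy'X
              rw [hv]
              exact hzy'
            · obtain ⟨v', hv', hv''⟩ := hS.range_eq hχψ hvz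
              rw [hv] at hv''
              exact hv' (ψ.injective hv'')
          · exact hu y'' h hz''
        · rcases hk with h | h
          · exact Or.inl (mem_insert_of_mem h)
          · exact Or.inr (mem_insert_of_mem h)
  · -- start phase 3
    push Not at hex
    suffices hst : ∃ y : Finset ℕ, y.card = S.h + 1 ∧ y ∉ insert x X ∧ y ∉ Y ∧
        S.StP (insert x X) (insert y Y) by
      obtain ⟨y, hy1, hy2, hy3, hy4⟩ := hst
      exact ⟨y, hy1, hy2, hy3, Or.inr (Or.inr (Or.inr (Or.inr (Or.inl hy4))))⟩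
    refine hS.start hc' ?_ ?_
    · intro ψ hψ
      have := hex ψ hψ
      omega
    -- cores inside `insert x X` are inside `insert x (CI ψ₀)`
    have hcoreIn : ∀ ψ : V ↪ ℕ, S.CI ψ ⊆ insert x X → S.CI ψ ⊆ insert x (S.CI ψ₀) := by
      intro ψ hψ y hy
      rcases mem_insert.1 (hψ hy) with h | h
      · rw [h]
        exact mem_insert_self _ _
      · apply mem_insert_of_mem
        by_contra hyn
        obtain ⟨ψ', hψC', hyψ', hu', _⟩ := hK y h hyn
        have hzy : ψ' S.z ∈ y := by
          apply z_mem_of_notin_CI hyψ'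
          rw [hψC']
          exact hyn
        obtain ⟨v, hv⟩ := exists_preimage_of_mem_HI (CI_sub_HI ψ hy) hzy
        have hvz : v ≠ S.z := by
          rintro rfl
          apply hS.z_notin_CI hy
          rw [hv]
          exact hzy
        have h3 := hS.deg3_lemma ψ hvz hψ
        rw [hv] at h3
        have h4 := hfil y h _ hu'
        omega
    intro ψ₁ ψ₂ h1 h2 B₁ hB₁ B₂ hB₂ hm₁ hm₂
    have hf1 := hS.aligned_avoid hc.fφ hB₁ hm₁
    have hf2 := hS.aligned_avoid hc.fφ hB₂ hm₂
    by_cases hfC : f ∈ S.CI ψ₀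
    · have key : ∀ ψ : V ↪ ℕ, S.CI ψ ⊆ insert x X → f ∉ S.CI ψ →
          S.CI ψ = insert x ((S.CI ψ₀).erase f) := by
        intro ψ hψ hfn
        apply Finset.eq_of_subset_of_card_le
        · intro y hy
          rcases mem_insert.1 (hcoreIn ψ hψ hy) with h | h
          · rw [h]
            exact mem_insert_self _ _
          · apply mem_insert_of_mem
            rw [mem_erase]
            refine ⟨?_, h⟩
            rintro rfl
            exact hfn hy
        · rw [hS.card_CI]
          refine (Finset.card_insert_le _ _).trans ?_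
          rw [Finset.card_erase_of_mem hfC, hS.card_CI]
          have : 0 < (S.CI ψ₀).card := Finset.card_pos.2 ⟨f, hfC⟩
          rw [hS.card_CI] at this
          omega
      rw [key ψ₁ h1 hf1, key ψ₂ h2 hf2]
    · exfalso
      obtain ⟨ψf, hψfC, hfψ, _, _⟩ := hK f hc.fX hfC
      -- the vertex set of the core of ψ₀
      set R : Finset ℕ := (univ.erase S.z).map ψ₀ with hR
      have hRc : R.card = 2 * S.h + 1 := by
        rw [hR, Finset.card_map, Finset.card_erase_of_mem (mem_univ _), Finset.card_univ, hS.hV]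
        omega
      have hBR : ∀ ψ : V ↪ ℕ, S.CI ψ ⊆ insert x X → ∀ B ∈ S.G, B.map ψ ⊆ R := by
        intro ψ hψ B hB u hu
        obtain ⟨v, hv, rfl⟩ := Finset.mem_map.1 hu
        have hvz : v ≠ S.z := by
          rintro rfl
          exact hS.hGz B hB hv
        have h3 := hS.deg3_lemma ψ hvz (Finset.Subset.refl (S.CI ψ))
        -- some core edge different from x contains it
        obtain ⟨e, he, hex'⟩ : ∃ e ∈ (S.CI ψ).filter (fun y => ψ v ∈ y), e ≠ x := by
          by_contra hcon
          push Not at hcon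
          have : (S.CI ψ).filter (fun y => ψ v ∈ y) ⊆ {x} := by
            intro e he
            rw [mem_singleton]
            exact hcon e he
          have := Finset.card_le_card this
          rw [Finset.card_singleton] at this
          omega
        rw [mem_filter] at he
        have heC : e ∈ S.CI ψ₀ := by
          rcases mem_insert.1 (hcoreIn ψ hψ he.1) with h | h
          · exact absurd h hex'
          · exact h
        obtain ⟨j, rfl⟩ := mem_CI.1 heC
        obtain ⟨v', hv', hv''⟩ := Finset.mem_map.1 he.2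
        rw [hR, Finset.mem_map]
        refine ⟨v', ?_, hv''⟩
        rw [mem_erase]
        refine ⟨?_, mem_univ _⟩
        rintro rfl
        exact hS.hEz j hv'
      have hfR : f.erase (ψf S.z) ⊆ R := by
        intro u hu
        rw [mem_erase] at hu
        obtain ⟨v, hv⟩ := exists_preimage_of_mem_HI hfψ hu.2
        have hvz : v ≠ S.z := by
          rintro rfl
          exact hu.1 hv.symm
        obtain ⟨v', hv', hv''⟩ := hS.range_eq hψfC hvz
        rw [hR, Finset.mem_map]
        refine ⟨v', ?_, by rw [hv'', hv]⟩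
        rw [mem_erase]
        exact ⟨hv', mem_univ _⟩
      have hfc : (f.erase (ψf S.z)).card = S.h := by
        have hzf : ψf S.z ∈ f := by
          apply z_mem_of_notin_CI hfψ
          rw [hψfC]
          exact hfC
        rw [Finset.card_erase_of_mem hzf, hS.card_of_mem_HI hfψ]
        omega
      have hd1 : Disjoint (S.Sr.map φ) (S.Sg.map φ) := hS.disj_map φ
      have hd2 : Disjoint (S.Sr.map φ ∪ S.Sg.map φ) (f.erase (ψf S.z)) := by
        rw [Finset.disjoint_left]
        intro u hu hu'
        have huf := mem_of_mem_erase hu'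
        rcases mem_union.1 hu with h | h
        · obtain ⟨v, _, rfl⟩ := Finset.mem_map.1 h
          exact hc.fφ v huf
        · obtain ⟨v, _, rfl⟩ := Finset.mem_map.1 h
          exact hc.fφ v huf
      have hsub : S.Sr.map φ ∪ S.Sg.map φ ∪ f.erase (ψf S.z) ⊆ R := by
        apply Finset.union_subset
        · apply Finset.union_subset
          · rw [← hm₂]
            exact hBR ψ₂ h2 B₂ hB₂
          · rw [← hm₁]
            exact hBR ψ₁ h1 B₁ hB₁
        · exact hfR
      have hcard := Finset.card_le_card hsub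
      rw [Finset.card_union_of_disjoint hd2, Finset.card_union_of_disjoint hd1, Finset.card_map,
        Finset.card_map, hS.Sr_card, hS.Sg_card, hfc, hRc] at hcard
      omega

/-- one round of the drawing strategy -/
theorem Good.step (hS : S.Good) {X Y : Finset (Finset ℕ)} (h : S.Inv X Y) {x : Finset ℕ}
    (hxX : x ∉ X) (hxY : x ∉ Y) : S.Step X Y x := by
  rcases h with h | h | h | h | h | ⟨n, h⟩ | h
  · exact hS.step_1 h hxX hxY
  · exact hS.step_2 h hxX hxY
  · exact hS.step_S h hxX hxY
  · exact hS.step_N h hxX hxY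
  · exact hS.step_P h hxX hxY
  · exact hS.step_R h hxX hxY
  · exact step_W h

theorem inv_init (hJ : 0 < Fintype.card J) : S.Inv ∅ ∅ := by
  obtain ⟨φ, _⟩ := exists_fresh_emb (V := V) ∅
  refine Or.inl ⟨?_, ?_, ?_, φ, ∅, ?_, ?_, Or.inl rfl⟩
  · intro y hy
    exact absurd hy (Finset.notMem_empty _)
  · rw [Finset.card_empty]
    exact hJ
  · rw [Finset.card_empty]
    omega
  · rw [Finset.card_empty, Finset.card_empty]
  · intro j hj
    exact absurd hj (Finset.notMem_empty _)

theorem inv_init' (hJ : 0 < Fintype.card J) (y₀ : Finset ℕ) : S.Inv ∅ {y₀} := by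
  obtain ⟨φ, _⟩ := exists_fresh_emb (V := V) ∅
  refine Or.inl ⟨?_, ?_, ?_, φ, ∅, ?_, ?_, Or.inl rfl⟩
  · intro y hy
    exact absurd hy (Finset.notMem_empty _)
  · rw [Finset.card_empty]
    exact hJ
  · rw [Finset.card_singleton, Finset.card_empty]
  · rw [Finset.card_empty, Finset.card_empty]
  · intro j hj
    exact absurd hj (Finset.notMem_empty _)

end Sys

end Pool.Agent.Y418
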