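import Pool.Agent.Y418.Sys

set_option autoImplicit false
set_option linter.unusedSectionVars false

namespace Pool.Agent.Y418

open Finset

namespace Sys

variable {V J T : Type} [Fintype V] [DecidableEq V] [Fintype J] [DecidableEq J]
  [Fintype T] [DecidableEq T]

/-- `ψ` is live with respect to `Y` -/
def Live (S : Sys V J T) (Y : Finset (Finset ℕ)) (ψ : V ↪ ℕ) : Prop := ∀ y ∈ S.HI ψ, y ∉ Y

/-- common context: the drawer owns the core of `φ`, and the attacker owns an edge `f` outside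
the vertex set of `φ` -/
structure Ctx (S : Sys V J T) (X Y : Finset (Finset ℕ)) (φ : V ↪ ℕ) (f : Finset ℕ) : Prop where
  disj : ∀ y ∈ X, y ∉ Y
  core : S.CI φ ⊆ Y
  fX : f ∈ X
  fφ : ∀ v, φ v ∉ f

def St1 (S : Sys V J T) (X Y : Finset (Finset ℕ)) : Prop :=
  (∀ y ∈ X, y ∉ Y) ∧ X.card < Fintype.card J ∧ Y.card ≤ X.card + 1 ∧
    ∃ φ : V ↪ ℕ, ∃ J0 : Finset J, J0.card = X.card ∧ (∀ j ∈ J0, (S.E j).map φ ∈ Y) ∧
      (X = ∅ ∨ ∃ f ∈ X, ∀ v, φ v ∉ f)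

def St2 (S : Sys V J T) (X Y : Finset (Finset ℕ)) : Prop :=
  X.card = Fintype.card J ∧ ∃ φ f, S.Ctx X Y φ f

def StS (S : Sys V J T) (X Y : Finset (Finset ℕ)) : Prop :=
  ∃ φ f, S.Ctx X Y φ f ∧ ∃ ψ₀ : V ↪ ℕ, S.CI ψ₀ ⊆ X ∧
    ∀ y ∈ X, y ∉ S.CI ψ₀ → ∃ ψ : V ↪ ℕ, S.CI ψ = S.CI ψ₀ ∧ y ∈ S.HI ψ ∧
      (∀ y' ∈ X, ψ S.z ∈ y' → y' = y) ∧
      (insert (ψ S.z) (S.Sr.map ψ) ∈ Y ∨ insert (ψ S.z) (S.Sg.map ψ) ∈ Y)

def StN (S : Sys V J T) (X Y : Finset (Finset ℕ)) : Prop :=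
  ∃ φ f, S.Ctx X Y φ f ∧ X.card = Fintype.card J + 1 ∧ ∃ ψ : V ↪ ℕ, X ⊆ S.HI ψ ∧
    ∃ b ∈ S.CI ψ, b ∈ Y

def StP (S : Sys V J T) (X Y : Finset (Finset ℕ)) : Prop :=
  ∃ φ f, S.Ctx X Y φ f ∧ ∃ (F : Finset (Finset ℕ)) (W : Finset ℕ) (w : ℕ) (P P' : Finset ℕ),
    ((P = S.Sr.map φ ∧ P' = S.Sg.map φ) ∨ (P = S.Sg.map φ ∧ P' = S.Sr.map φ)) ∧
    X = F ∪ W.image (fun u => insert u P') ∧
    (∀ u ∈ W, insert u P ∈ Y) ∧ insert w P ∈ Y ∧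
    (∀ u ∈ W, ∀ v, φ v ≠ u) ∧ (∀ u ∈ W, ∀ y ∈ F, u ∉ y) ∧
    (∀ v, φ v ≠ w) ∧ (∀ y ∈ X, w ∉ y) ∧ (∀ y ∈ Y, w ∈ y → y = insert w P) ∧
    (∀ ψ, S.Live Y ψ → (S.HI ψ ∩ F).card ≤ Fintype.card J) ∧
    (∀ ψ : V ↪ ℕ, S.CI ψ ⊆ F → ∀ B ∈ S.G, B.map ψ = P' → P = S.Sr.map ψ ∨ P = S.Sg.map ψ)

def StR (S : Sys V J T) (n : ℕ) (X Y : Finset (Finset ℕ)) : Prop :=
  n < S.d - 2 ∧ (∀ y ∈ X, y ∉ Y) ∧
  ∃ (φ : V ↪ ℕ) (w : ℕ) (T1 : Finset T), S.CI φ ⊆ Y ∧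
    insert w (S.Sr.map φ) ∈ Y ∧ insert w (S.Sg.map φ) ∈ Y ∧ (∀ v, φ v ≠ w) ∧
    T1.card = n ∧ (∀ t ∈ T1, insert w ((S.A t).map φ) ∈ Y) ∧
    (X.filter (fun y => w ∈ y)).card ≤ n + 1 ∧ (Y.filter (fun y => w ∈ y)).card ≤ n + 2 ∧
    (∀ ψ, S.Live Y ψ → (S.HI ψ ∩ X).card ≤ Fintype.card J + 1 + n)

def Inv (S : Sys V J T) (X Y : Finset (Finset ℕ)) : Prop :=
  S.St1 X Y ∨ S.St2 X Y ∨ S.StS X Y ∨ S.StN X Y ∨ S.StP X Y ∨ (∃ n, S.StR n X Y) ∨ S.Copy Y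

/-- what has to be shown for each state -/
def Step (S : Sys V J T) (X Y : Finset (Finset ℕ)) (x : Finset ℕ) : Prop :=
  (S.Copy (insert x X) → S.Copy Y) ∧
    ∃ y : Finset ℕ, y.card = S.h + 1 ∧ y ∉ insert x X ∧ y ∉ Y ∧
      S.Inv (insert x X) (insert y Y)

variable {S : Sys V J T}

theorem Live.mono {Y Y' : Finset (Finset ℕ)} {ψ : V ↪ ℕ} (h : S.Live Y' ψ) (hYY : Y ⊆ Y') :
    S.Live Y ψ := fun y hy hy' => h y hy (hYY hy')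

/-- no copy if all live embeddings have few attacker edges -/
theorem Good.no_copy (hS : S.Good) {X Y : Finset (Finset ℕ)} (hXY : ∀ y ∈ X, y ∉ Y)
    (h : ∀ ψ, S.Live Y ψ → (S.HI ψ ∩ X).card < Fintype.card J + S.d) : ¬ S.Copy X := by
  rintro ⟨ψ, hψ⟩
  have h1 : S.Live Y ψ := fun y hy => hXY y (hψ hy)
  have h2 := h ψ h1
  rw [Finset.inter_eq_left.2 hψ, hS.card_HI] at h2
  exact lt_irrefl _ h2

theorem Good.no_copy' (hS : S.Good) {X : Finset (Finset ℕ)}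
    (h : X.card < Fintype.card J + S.d) : ¬ S.Copy X := by
  rintro ⟨ψ, hψ⟩
  have h2 := Finset.card_le_card hψ
  rw [hS.card_HI] at h2
  omega

/-- there are always fresh naturals -/
theorem exists_fresh_nat (φ : V ↪ ℕ) (Z : Finset (Finset ℕ)) :
    ∃ w : ℕ, (∀ v, φ v ≠ w) ∧ ∀ y ∈ Z, w ∉ y := by
  classical
  obtain ⟨w, hw⟩ := Infinite.exists_notMem_finset ((univ.map φ) ∪ Z.biUnion id)
  rw [mem_union, not_or] at hw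
  refine ⟨w, ?_, ?_⟩
  · intro v hv
    apply hw.1
    rw [Finset.mem_map]
    exact ⟨v, mem_univ _, hv⟩
  · intro y hy hwy
    apply hw.2
    rw [mem_biUnion]
    exact ⟨y, hy, hwy⟩

theorem exists_fresh_emb (Z : Finset (Finset ℕ)) :
    ∃ φ : V ↪ ℕ, ∀ v, ∀ y ∈ Z, φ v ∉ y := by
  classical
  obtain ⟨B, hB⟩ : ∃ B : ℕ, ∀ y ∈ Z, ∀ u ∈ y, u < B := by
    refine ⟨(Z.biUnion id).sup id + 1, ?_⟩
    intro y hy u hu
    have : u ∈ Z.biUnion id := mem_biUnion.2 ⟨y, hy, hu⟩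
    have h2 := Finset.le_sup (f := id) this
    simp only [id] at h2
    exact Nat.lt_succ_of_le h2
  let e := Fintype.equivFin V
  refine ⟨⟨fun v => B + (e v : ℕ), ?_⟩, ?_⟩
  · intro a b hab
    have : (e a : ℕ) = (e b : ℕ) := by
      have := hab
      simp only at this
      omega
    exact e.injective (Fin.ext this)
  · intro v y hy hv
    have := hB y hy _ hv
    change B + (e v : ℕ) < B at this
    omega

/-- for any number there are fresh edges -/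
theorem exists_fresh_edge (k : ℕ) (hk : 0 < k) (Z : Finset (Finset ℕ)) :
    ∃ y : Finset ℕ, y.card = k ∧ y ∉ Z := by
  classical
  obtain ⟨φ, hφ⟩ := exists_fresh_emb (V := Fin k) Z
  refine ⟨univ.map φ, by simp, ?_⟩
  intro h
  exact hφ ⟨0, hk⟩ _ h (Finset.mem_map_of_mem _ (mem_univ _))

end Sys

end Pool.Agent.Y418
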