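import Mathlib

set_option autoImplicit false
set_option linter.unusedSectionVars false

namespace Pool.Agent.Y418

open Finset

/-- Raw data of the hypergraph: core edges `E j`, a special vertex `z`, and the traces on
`V \ {z}` of the edges through `z` (`Sr`, `Sg` and `A t` for `t ∈ T0`). -/
structure Sys (V J T : Type) where
  d : ℕ
  h : ℕ
  E : J → Finset V
  z : V
  Sr : Finset V
  Sg : Finset V
  A : T → Finset V
  T0 : Finset T

namespace Sys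

variable {V J T : Type} [Fintype V] [DecidableEq V] [Fintype J] [DecidableEq J]
  [Fintype T] [DecidableEq T]

/-- traces of the gadget edges -/
def G (S : Sys V J T) : Finset (Finset V) := insert S.Sr (insert S.Sg (S.T0.image S.A))

/-- core edges -/
def C (S : Sys V J T) : Finset (Finset V) := univ.image S.E

/-- all edges -/
def H (S : Sys V J T) : Finset (Finset V) := S.C ∪ S.G.image (insert S.z)

def CI (S : Sys V J T) (ψ : V ↪ ℕ) : Finset (Finset ℕ) := S.C.image (Finset.map ψ)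

def GI (S : Sys V J T) (ψ : V ↪ ℕ) : Finset (Finset ℕ) :=
  S.G.image (fun B => insert (ψ S.z) (B.map ψ))

def HI (S : Sys V J T) (ψ : V ↪ ℕ) : Finset (Finset ℕ) := S.CI ψ ∪ S.GI ψ

/-- the abstract properties used by the drawing strategy -/
structure Good (S : Sys V J T) : Prop where
  hd : 3 ≤ S.d
  hh : 2 ≤ S.h
  hE : Function.Injective S.E
  hEc : ∀ j, (S.E j).card = S.h + 1
  hGc : ∀ B ∈ S.G, B.card = S.h
  hAc : ∀ t, (S.A t).card = S.h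
  hAz : ∀ t, S.z ∉ S.A t
  hAi : Function.Injective S.A
  hEz : ∀ j, S.z ∉ S.E j
  hGz : ∀ B ∈ S.G, S.z ∉ B
  hGn : S.G.card = S.d
  hT0 : S.T0.card = S.d - 2
  hTn : 2 * S.d ≤ Fintype.card T
  hV : Fintype.card V = 2 * S.h + 2
  hdeg : ∀ v, v ≠ S.z → S.d + 2 ≤ (S.H.filter (fun e => v ∈ e)).card
  hdeg3 : ∀ v, v ≠ S.z → 3 ≤ (S.C.filter (fun e => v ∈ e)).card
  hmeet : ∀ j, ∀ B ∈ S.G, ∃ v ∈ S.E j, v ∈ B
  hdis : Disjoint S.Sr S.Sg
  hrigid : ∀ ψ ψ' : V ↪ ℕ, Fintype.card J - 1 ≤ (S.HI ψ ∩ S.HI ψ').card →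
    S.CI ψ = S.CI ψ' ∨ S.HI ψ ∩ S.HI ψ' ⊆ S.CI ψ ∩ S.CI ψ'
  hA9 : ∀ ψ ψ' : V ↪ ℕ, S.CI ψ = S.CI ψ' →
    S.Sr.map ψ = S.Sr.map ψ' ∧ S.Sg.map ψ = S.Sg.map ψ'
  hA9' : ∀ ψ ψ' : V ↪ ℕ, S.CI ψ = S.CI ψ' → ∀ B₁ ∈ S.G, ∀ B₂ ∈ S.G,
    Disjoint (B₁.map ψ) (B₂.map ψ') → (B₁ = S.Sr ∧ B₂ = S.Sg) ∨ (B₁ = S.Sg ∧ B₂ = S.Sr)
  hflex : ∀ j, ∀ U : Finset (Finset V), U.card ≤ 2 * Fintype.card J →
    ∃ π : Equiv.Perm V, (∀ i, i ≠ j → (S.E i).map π.toEmbedding = S.E i) ∧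
      (S.E j).map π.toEmbedding ∉ U
  hsym : ∀ σ : Equiv.Perm T, ∃ ρ : Equiv.Perm V, ρ S.z = S.z ∧
    (∀ j, (S.E j).map ρ.toEmbedding = S.E j) ∧
    S.Sr.map ρ.toEmbedding = S.Sr ∧ S.Sg.map ρ.toEmbedding = S.Sg ∧
    ∀ t, (S.A t).map ρ.toEmbedding = S.A (σ t)

variable {S : Sys V J T}

theorem mem_CI {ψ : V ↪ ℕ} {y : Finset ℕ} : y ∈ S.CI ψ ↔ ∃ j, (S.E j).map ψ = y := by
  simp [CI, C]

theorem mem_GI {ψ : V ↪ ℕ} {y : Finset ℕ} :
    y ∈ S.GI ψ ↔ ∃ B ∈ S.G, insert (ψ S.z) (B.map ψ) = y := by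
  simp [GI]

theorem mem_HI {ψ : V ↪ ℕ} {y : Finset ℕ} :
    y ∈ S.HI ψ ↔ (∃ j, (S.E j).map ψ = y) ∨ ∃ B ∈ S.G, insert (ψ S.z) (B.map ψ) = y := by
  rw [HI, mem_union, mem_CI, mem_GI]

theorem HI_eq (ψ : V ↪ ℕ) : S.HI ψ = S.H.image (Finset.map ψ) := by
  ext y
  simp only [HI, CI, GI, H, mem_union, mem_image, C]
  constructor
  · rintro (⟨e, he, rfl⟩ | ⟨B, hB, rfl⟩)
    · exact ⟨e, Or.inl he, rfl⟩
    · exact ⟨insert S.z B, Or.inr ⟨B, hB, rfl⟩, by rw [Finset.map_insert]⟩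
  · rintro ⟨e, (he | ⟨B, hB, rfl⟩), rfl⟩
    · exact Or.inl ⟨e, he, rfl⟩
    · exact Or.inr ⟨B, hB, by rw [Finset.map_insert]⟩

theorem CI_sub_HI (ψ : V ↪ ℕ) : S.CI ψ ⊆ S.HI ψ := subset_union_left

theorem Sr_mem_G : S.Sr ∈ S.G := by simp [G]

theorem Sg_mem_G : S.Sg ∈ S.G := by simp [G]

theorem r_mem_HI (ψ : V ↪ ℕ) : insert (ψ S.z) (S.Sr.map ψ) ∈ S.HI ψ :=
  mem_HI.2 (Or.inr ⟨_, Sr_mem_G, rfl⟩)

theorem g_mem_HI (ψ : V ↪ ℕ) : insert (ψ S.z) (S.Sg.map ψ) ∈ S.HI ψ :=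
  mem_HI.2 (Or.inr ⟨_, Sg_mem_G, rfl⟩)

theorem Good.z_notin_CI (hS : S.Good) {ψ : V ↪ ℕ} {y : Finset ℕ} (hy : y ∈ S.CI ψ) :
    ψ S.z ∉ y := by
  obtain ⟨j, rfl⟩ := mem_CI.1 hy
  intro h
  rw [Finset.mem_map'] at h
  exact hS.hEz j h

theorem z_mem_of_notin_CI {ψ : V ↪ ℕ} {y : Finset ℕ} (hy : y ∈ S.HI ψ) (hy' : y ∉ S.CI ψ) :
    ψ S.z ∈ y := by
  rw [HI, mem_union] at hy
  rcases hy with h | h
  · exact absurd h hy'
  · obtain ⟨B, _, rfl⟩ := mem_GI.1 h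
    exact mem_insert_self _ _

theorem mem_CI_of_z_notin {ψ : V ↪ ℕ} {y : Finset ℕ} (hy : y ∈ S.HI ψ) (hz : ψ S.z ∉ y) :
    y ∈ S.CI ψ := by
  by_contra h
  exact hz (z_mem_of_notin_CI hy h)

theorem Good.card_CI (hS : S.Good) (ψ : V ↪ ℕ) : (S.CI ψ).card = Fintype.card J := by
  rw [CI, Finset.card_image_of_injective _ (Finset.map_injective ψ), C,
    Finset.card_image_of_injective _ hS.hE, Finset.card_univ]

theorem Good.card_H (hS : S.Good) : S.H.card = Fintype.card J + S.d := by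
  have hd : Disjoint S.C (S.G.image (insert S.z)) := by
    rw [Finset.disjoint_left]
    intro e he he'
    obtain ⟨j, _, rfl⟩ := mem_image.1 he
    obtain ⟨B, _, hB⟩ := mem_image.1 he'
    apply hS.hEz j
    rw [← hB]
    exact mem_insert_self _ _
  rw [H, Finset.card_union_of_disjoint hd, C, Finset.card_image_of_injective _ hS.hE,
    Finset.card_univ, Finset.card_image_of_injOn, hS.hGn]
  intro B hB B' hB' hBB
  have h1 := hS.hGz B hB
  have h2 := hS.hGz B' hB'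
  have : (insert S.z B).erase S.z = (insert S.z B').erase S.z := by
    rw [hBB]
  rwa [Finset.erase_insert h1, Finset.erase_insert h2] at this

theorem Good.card_HI (hS : S.Good) (ψ : V ↪ ℕ) : (S.HI ψ).card = Fintype.card J + S.d := by
  rw [HI_eq, Finset.card_image_of_injective _ (Finset.map_injective ψ), hS.card_H]

theorem Good.card_of_mem_HI (hS : S.Good) {ψ : V ↪ ℕ} {y : Finset ℕ} (hy : y ∈ S.HI ψ) :
    y.card = S.h + 1 := by
  rcases mem_HI.1 hy with ⟨j, rfl⟩ | ⟨B, hB, rfl⟩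
  · rw [Finset.card_map, hS.hEc]
  · rw [Finset.card_insert_of_notMem, Finset.card_map, hS.hGc B hB]
    rw [Finset.mem_map']
    exact hS.hGz B hB

/-- degree lemma -/
theorem Good.deg_lemma (hS : S.Good) (ψ : V ↪ ℕ) (X : Finset (Finset ℕ)) {v : V}
    (hv : v ≠ S.z) :
    (S.HI ψ ∩ X).card + 2 ≤ Fintype.card J + (X.filter (fun y => ψ v ∈ y)).card := by
  classical
  set A := S.HI ψ ∩ X with hA
  set B := (S.HI ψ).filter (fun y => ψ v ∈ y) with hB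
  have hBc : S.d + 2 ≤ B.card := by
    have h1 := hS.hdeg v hv
    have h2 : B = (S.H.filter (fun e => v ∈ e)).image (Finset.map ψ) := by
      ext y
      rw [hB, HI_eq]
      simp only [mem_filter, mem_image]
      constructor
      · rintro ⟨⟨e, he, rfl⟩, hy⟩
        rw [Finset.mem_map'] at hy
        exact ⟨e, ⟨he, hy⟩, rfl⟩
      · rintro ⟨e, ⟨he, hy⟩, rfl⟩
        exact ⟨⟨e, he, rfl⟩, (Finset.mem_map' ψ).2 hy⟩
    rw [h2, Finset.card_image_of_injective _ (Finset.map_injective ψ)]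
    exact h1
  have h3 : (A ∪ B).card ≤ Fintype.card J + S.d := by
    rw [← hS.card_HI ψ]
    apply Finset.card_le_card
    apply Finset.union_subset
    · exact Finset.inter_subset_left
    · exact Finset.filter_subset _ _
  have h4 : (A ∩ B).card ≤ (X.filter (fun y => ψ v ∈ y)).card := by
    apply Finset.card_le_card
    intro y hy
    rw [mem_inter] at hy
    rw [mem_filter]
    exact ⟨(mem_inter.1 hy.1).2, (mem_filter.1 hy.2).2⟩
  have h5 := Finset.card_union_add_card_inter A B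
  omega

theorem Good.deg3_lemma (hS : S.Good) (ψ : V ↪ ℕ) {F : Finset (Finset ℕ)} {v : V}
    (hv : v ≠ S.z) (hF : S.CI ψ ⊆ F) :
    3 ≤ (F.filter (fun y => ψ v ∈ y)).card := by
  have h1 := hS.hdeg3 v hv
  rw [← Finset.card_image_of_injective _ (Finset.map_injective ψ)] at h1
  refine h1.trans (Finset.card_le_card ?_)
  intro y hy
  obtain ⟨e, he, rfl⟩ := mem_image.1 hy
  rw [mem_filter] at he
  rw [mem_filter]
  refine ⟨hF ?_, (Finset.mem_map' ψ).2 he.2⟩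
  rw [CI]
  exact mem_image_of_mem _ he.1

/-- embeddings with the same core image have the same vertex set outside the image of `z` -/
theorem Good.range_eq (hS : S.Good) {ψ ψ' : V ↪ ℕ} (h : S.CI ψ = S.CI ψ') {v : V}
    (hv : v ≠ S.z) : ∃ v', v' ≠ S.z ∧ ψ' v' = ψ v := by
  have h1 := hS.hdeg3 v hv
  have h2 : (S.C.filter (fun e => v ∈ e)).Nonempty := by
    rw [← Finset.card_pos]
    omega
  obtain ⟨e, he⟩ := h2
  rw [mem_filter] at he
  have h3 : e.map ψ ∈ S.CI ψ' := by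
    rw [← h, CI]
    exact mem_image_of_mem _ he.1
  have h4 : ψ v ∈ e.map ψ := (Finset.mem_map' ψ).2 he.2
  obtain ⟨j, hj⟩ := mem_CI.1 h3
  rw [← hj] at h4
  obtain ⟨v', hv', hv''⟩ := Finset.mem_map.1 h4
  refine ⟨v', ?_, hv''⟩
  rintro rfl
  exact hS.hEz j hv'

/-- a copy of the hypergraph inside a family of finite sets -/
def Copy (S : Sys V J T) (Z : Finset (Finset ℕ)) : Prop := ∃ ψ : V ↪ ℕ, S.HI ψ ⊆ Z

end Sys

end Pool.Agent.Y418
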